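import Mathlib

/-!
A complex manifold structure from a family of local homeomorphisms from a vector space with
holomorphic transition maps.
-/

open scoped Manifold ContDiff Topology
open Filter Set

noncomputable section

namespace Pool.Agent.Lib.MP_69200a_ag.CE

variable {V : Type} [NormedAddCommGroup V] [NormedSpace ℂ V]
  {X : Type} [TopologicalSpace X] {I : Type}

/-- A jointly surjective family of local homeomorphisms with holomorphic transition maps. -/
structure AtlasData (p : I → V → X) : Prop where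
  homeo : ∀ i, IsLocalHomeomorph (p i)
  surj : ∀ x, ∃ (i : I) (v : V), p i v = x
  compat : ∀ i j v w, p i v = p j w →
    ∃ φ : V → V, ContDiffAt ℂ ω φ v ∧ φ v = w ∧ ∀ᶠ v' in 𝓝 v, p j (φ v') = p i v'

/-- A map with a continuous local inverse is a local homeomorphism. -/
theorem isLocalHomeomorph_of_inverse {p : V → X} (hp : Continuous p)
    (h : ∀ v, ∃ c : X → V, (∀ᶠ x in 𝓝 (p v), ContinuousAt c x ∧ p (c x) = x) ∧
      ∀ᶠ v' in 𝓝 v, c (p v') = v') : IsLocalHomeomorph p := by
  refine IsLocalHomeomorph.mk p fun v ↦ ?_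
  obtain ⟨c, h1, h2⟩ := h v
  obtain ⟨B, hB, hBo, hvB⟩ := eventually_nhds_iff.1 h1
  obtain ⟨A, hA, hAo, hvA⟩ := eventually_nhds_iff.1 h2
  have hcB : ContinuousOn c B := fun x hx ↦ (hB x hx).1.continuousWithinAt
  have hpB : IsOpen (p ⁻¹' B) := hBo.preimage hp
  have hcp : c (p v) = v := hA v hvA
  refine ⟨{
    toFun := p
    invFun := c
    source := A ∩ p ⁻¹' B
    target := B ∩ c ⁻¹' A
    map_source' := ?_
    map_target' := ?_
    left_inv' := ?_
    right_inv' := ?_
    open_source := hAo.inter hpB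
    open_target := hcB.isOpen_inter_preimage hBo hAo
    continuousOn_toFun := hp.continuousOn
    continuousOn_invFun := hcB.mono inter_subset_left }, ⟨hvA, hvB⟩, fun _ _ ↦ rfl⟩
  · rintro x ⟨hxA, hxB⟩
    refine ⟨hxB, ?_⟩
    change c (p x) ∈ A
    rw [hA x hxA]; exact hxA
  · rintro x ⟨hxB, hxA⟩
    refine ⟨hxA, ?_⟩
    change p (c x) ∈ B
    rw [(hB x hxB).2]; exact hxB
  · rintro x ⟨hxA, -⟩
    exact hA x hxA
  · rintro x ⟨hxB, -⟩
    exact (hB x hxB).2

variable {p : I → V → X} (hp : AtlasData p)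

include hp in
theorem AtlasData.transition {i j : I} {τ : V → V} {v : V} (hτ : ContinuousAt τ v)
    (h : ∀ᶠ v' in 𝓝 v, p j (τ v') = p i v') : ContDiffAt ℂ ω τ v := by
  obtain ⟨φ, h1, h2, h3⟩ := hp.compat i j v (τ v) (h.self_of_nhds).symm
  obtain ⟨e, he, hee⟩ := hp.homeo j (τ v)
  have hW : e.source ∈ 𝓝 (τ v) := e.open_source.mem_nhds he
  refine h1.congr_of_eventuallyEq ?_
  have h4 : ∀ᶠ v' in 𝓝 v, τ v' ∈ e.source := hτ hW
  have h5 : ∀ᶠ v' in 𝓝 v, φ v' ∈ e.source := by
    have h6 : ContinuousAt φ v := h1.continuousAt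
    have h7 : e.source ∈ 𝓝 (φ v) := by rw [h2]; exact hW
    exact h6 h7
  filter_upwards [h, h3, h4, h5] with v' a1 a2 a3 a4
  refine e.injOn a3 a4 ?_
  rw [← hee, a1, a2]

/-- The charts are the local inverses of the maps of the family. -/
@[reducible] def AtlasData.chartedSpace : ChartedSpace V X where
  atlas := {e | ∃ i v, e = (hp.homeo i).localInverseAt v}
  chartAt x := (hp.homeo (hp.surj x).choose).localInverseAt (hp.surj x).choose_spec.choose
  mem_chart_source x := by
    have h := (hp.homeo (hp.surj x).choose).apply_self_mem_localInverseAt_source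
      (x := (hp.surj x).choose_spec.choose)
    rw [(hp.surj x).choose_spec.choose_spec] at h
    exact h
  chart_mem_atlas x := ⟨_, _, rfl⟩

theorem AtlasData.isManifold :
    letI := hp.chartedSpace
    IsManifold 𝓘(ℂ, V) ω X := by
  letI := hp.chartedSpace
  refine isManifold_of_contDiffOn 𝓘(ℂ, V) ω X ?_
  intro e e' he he'
  simp only [modelWithCornersSelf_coe, modelWithCornersSelf_coe_symm, Function.id_comp,
    Function.comp_id, Set.preimage_id, Set.range_id, Set.inter_univ]
  intro v₀ hv
  obtain ⟨i, w, rfl⟩ := he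
  obtain ⟨j, w', rfl⟩ := he'
  refine ContDiffAt.contDiffWithinAt ?_
  refine hp.transition (i := i) (j := j) ?_ ?_
  · exact (((hp.homeo i).localInverseAt w).symm.trans
      ((hp.homeo j).localInverseAt w')).continuousAt hv
  · filter_upwards [(((hp.homeo i).localInverseAt w).symm.trans
      ((hp.homeo j).localInverseAt w')).open_source.mem_nhds hv] with v' hv'
    rw [OpenPartialHomeomorph.trans_source] at hv'
    have h1 := (hp.homeo j).apply_localInverseAt_of_mem hv'.2
    change p j (((hp.homeo j).localInverseAt w') (((hp.homeo i).localInverseAt w).symm v')) = _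
    rw [h1, (hp.homeo i).localInverseAt_symm]

/-- The local inverses of the maps of the family are holomorphic. -/
theorem AtlasData.contMDiffAt_inverse (i : I) (v : V) :
    letI := hp.chartedSpace
    ContMDiffAt 𝓘(ℂ, V) 𝓘(ℂ, V) ω ((hp.homeo i).localInverseAt v : X → V) (p i v) := by
  letI := hp.chartedSpace
  have : IsManifold 𝓘(ℂ, V) ω X := hp.isManifold
  have h : ContMDiffOn 𝓘(ℂ, V) 𝓘(ℂ, V) ω ((hp.homeo i).localInverseAt v : X → V)
      ((hp.homeo i).localInverseAt v).source :=
    contMDiffOn_of_mem_maximalAtlas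
      (IsManifold.subset_maximalAtlas (show _ ∈ hp.chartedSpace.atlas from ⟨i, v, rfl⟩))
  exact h.contMDiffAt (((hp.homeo i).localInverseAt v).open_source.mem_nhds
    (hp.homeo i).apply_self_mem_localInverseAt_source)

/-- The maps of the family are holomorphic. -/
theorem AtlasData.contMDiff (i : I) :
    letI := hp.chartedSpace
    ContMDiff 𝓘(ℂ, V) 𝓘(ℂ, V) ω (p i) := by
  letI := hp.chartedSpace
  have : IsManifold 𝓘(ℂ, V) ω X := hp.isManifold
  intro v
  have h : ContMDiffOn 𝓘(ℂ, V) 𝓘(ℂ, V) ω (((hp.homeo i).localInverseAt v).symm : V → X)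
      ((hp.homeo i).localInverseAt v).target :=
    contMDiffOn_symm_of_mem_maximalAtlas
      (IsManifold.subset_maximalAtlas (show _ ∈ hp.chartedSpace.atlas from ⟨i, v, rfl⟩))
  rw [(hp.homeo i).localInverseAt_symm] at h
  exact h.contMDiffAt (((hp.homeo i).localInverseAt v).open_target.mem_nhds
    (hp.homeo i).self_mem_localInverseAt_target)

/-- A map which locally factors through one of the maps of the family is holomorphic. -/
theorem AtlasData.contMDiffAt_of_lift {E' : Type} [NormedAddCommGroup E'] [NormedSpace ℂ E']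
    {H' : Type} [TopologicalSpace H'] {I' : ModelWithCorners ℂ E' H'}
    {N : Type} [TopologicalSpace N] [ChartedSpace H' N] {f : N → X} {g : N → V} {x : N} (i : I)
    (hg : ContMDiffAt I' 𝓘(ℂ, V) ω g x) (hfg : ∀ᶠ y in 𝓝 x, f y = p i (g y)) :
    letI := hp.chartedSpace
    ContMDiffAt I' 𝓘(ℂ, V) ω f x := by
  letI := hp.chartedSpace
  have h1 : ContMDiffAt I' 𝓘(ℂ, V) ω (p i ∘ g) x := (hp.contMDiff i).contMDiffAt.comp x hg
  exact h1.congr_of_eventuallyEq hfg

/-- The derivative of a map of the family is surjective. -/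
theorem AtlasData.mfderiv_surjective (i : I) (v : V) :
    letI := hp.chartedSpace
    Function.Surjective (mfderiv 𝓘(ℂ, V) 𝓘(ℂ, V) (p i) v) := by
  letI := hp.chartedSpace
  have h1 : MDifferentiableAt 𝓘(ℂ, V) 𝓘(ℂ, V) ((hp.homeo i).localInverseAt v : X → V) (p i v) :=
    (hp.contMDiffAt_inverse i v).mdifferentiableAt (by simp)
  have hv : ((hp.homeo i).localInverseAt v) (p i v) = v := (hp.homeo i).localInverseAt_apply_self
  have h2 : MDifferentiableAt 𝓘(ℂ, V) 𝓘(ℂ, V) (p i)
      (((hp.homeo i).localInverseAt v) (p i v)) :=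
    (hp.contMDiff i).contMDiffAt.mdifferentiableAt (by simp)
  have h3 := mfderiv_comp (p i v) h2 h1
  have h4 : (p i ∘ ((hp.homeo i).localInverseAt v)) =ᶠ[𝓝 (p i v)] id := by
    filter_upwards [((hp.homeo i).localInverseAt v).open_source.mem_nhds
      (hp.homeo i).apply_self_mem_localInverseAt_source] with x hx
    exact (hp.homeo i).apply_localInverseAt_of_mem hx
  rw [h4.mfderiv_eq, mfderiv_id] at h3
  intro y
  rw [hv] at h3
  refine ⟨mfderiv 𝓘(ℂ, V) 𝓘(ℂ, V) ((hp.homeo i).localInverseAt v : X → V) (p i v) y, ?_⟩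
  exact (congrArg (fun L ↦ L y) h3).symm

end Pool.Agent.Lib.MP_69200a_ag.CE
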