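import Mathlib
import Pool.Agent.Lib.MP_69200a_ag.Defs
import Pool.Agent.Lib.MP_69200a_ag.FlatDefs
import Pool.Agent.Lib.MP_69200a_ag.Torus

/-!
Tools for derivatives on manifolds modelled on normed spaces.
-/

open scoped Manifold ContDiff Topology
open Filter Set

noncomputable section

namespace Pool.Agent.Lib.MP_69200a_ag.CE

section Rep

variable {V : Type} [NormedAddCommGroup V] [NormedSpace ℂ V]
  {N : Type} [TopologicalSpace N] [ChartedSpace V N]
  {V' : Type} [NormedAddCommGroup V'] [NormedSpace ℂ V']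
  {N' : Type} [TopologicalSpace N'] [ChartedSpace V' N']

/-- The derivative of a map computed in the preferred charts. -/
theorem hasMFDerivAt_of_rep {f : N → N'} {x : N} {F : V → V'} {L : V →L[ℂ] V'}
    (hf : ContinuousAt f x) (hF : HasFDerivAt F L (chartAt V x x))
    (h : ∀ᶠ y in 𝓝 x, chartAt V' (f x) (f y) = F (chartAt V x y)) :
    HasMFDerivAt 𝓘(ℂ, V) 𝓘(ℂ, V') f x L := by
  refine ⟨hf, ?_⟩
  rw [modelWithCornersSelf_coe, Set.range_id, hasFDerivWithinAt_univ]
  have h1 : writtenInExtChartAt 𝓘(ℂ, V) 𝓘(ℂ, V') x f =ᶠ[𝓝 (chartAt V x x)] F := by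
    have h2 : Tendsto (chartAt V x).symm (𝓝 (chartAt V x x)) (𝓝 x) := by
      have h3 := (chartAt V x).symm.continuousAt
        (x := chartAt V x x) ((chartAt V x).map_source (mem_chart_source V x))
      rw [ContinuousAt, (chartAt V x).left_inv (mem_chart_source V x)] at h3
      exact h3
    filter_upwards [h2.eventually h, (chartAt V x).open_target.mem_nhds
      ((chartAt V x).map_source (mem_chart_source V x))] with w hw hw2
    change chartAt V' (f x) (f ((chartAt V x).symm w)) = F w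
    rw [hw, (chartAt V x).right_inv hw2]
  exact hF.congr_of_eventuallyEq h1

/-- A map to a manifold with one chart is holomorphic if its composition with the chart is. -/
theorem contMDiffAt_of_comp_chart {E₁ : Type} [NormedAddCommGroup E₁] [NormedSpace ℂ E₁]
    {H₁ : Type} [TopologicalSpace H₁] {I₁ : ModelWithCorners ℂ E₁ H₁}
    {M₁ : Type} [TopologicalSpace M₁] [ChartedSpace H₁ M₁] {f : M₁ → N'} {x : M₁}
    (hf : ContinuousAt f x)
    (h : ContMDiffAt I₁ 𝓘(ℂ, V') ω (fun y ↦ chartAt V' (f x) (f y)) x) :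
    ContMDiffAt I₁ 𝓘(ℂ, V') ω f x :=
  contMDiffAt_iff_target.2 ⟨hf, h⟩

/-- If the coordinate changes have derivative the identity, the second component of a tangent vector
is a holomorphic function on the tangent bundle. -/
theorem contMDiff_snd_of_frame [IsManifold 𝓘(ℂ, V) ω N]
    (hT : ∀ x y : N, y ∈ (chartAt V x).source →
      HasFDerivAt (fun w ↦ chartAt V x ((chartAt V y).symm w)) (ContinuousLinearMap.id ℂ V)
        (chartAt V y y)) :
    ContMDiff (M' := V) 𝓘(ℂ, V).tangent 𝓘(ℂ, V) ω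
      (fun v : TangentBundle 𝓘(ℂ, V) N ↦ v.snd) := by
  intro v₀
  have h1 : ContMDiffAt 𝓘(ℂ, V).tangent 𝓘(ℂ, V).tangent ω
      (fun v : TangentBundle 𝓘(ℂ, V) N ↦ v) v₀ := contMDiffAt_id
  have h2 := (Bundle.contMDiffAt_totalSpace.1 h1).2
  refine h2.congr_of_eventuallyEq ?_
  have hopen : {v : TangentBundle 𝓘(ℂ, V) N | v.proj ∈ (chartAt V v₀.proj).source} ∈ 𝓝 v₀ := by
    have hcont : Continuous (fun v : TangentBundle 𝓘(ℂ, V) N ↦ v.proj) :=
      FiberBundle.continuous_proj V (TangentSpace 𝓘(ℂ, V))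
    exact hcont.continuousAt.preimage_mem_nhds
      ((chartAt V v₀.proj).open_source.mem_nhds (mem_chart_source V v₀.proj))
  filter_upwards [hopen] with v hv
  rw [TangentBundle.trivializationAt_apply]
  have hfd : fderivWithin ℂ (((chartAt V v₀.proj).extend 𝓘(ℂ, V)) ∘
      ((chartAt V v.proj).extend 𝓘(ℂ, V)).symm) (Set.range 𝓘(ℂ, V))
      (((chartAt V v.proj).extend 𝓘(ℂ, V)) v.proj) = ContinuousLinearMap.id ℂ V := by
    rw [modelWithCornersSelf_coe, Set.range_id, fderivWithin_univ]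
    exact (hT v₀.proj v.proj hv).fderiv
  exact (congrArg (fun L : V →L[ℂ] V ↦ L v.snd) hfd).symm

/-- The product charted space, modelled on the product vector space. -/
@[reducible] def prodCharted : ChartedSpace (V × V') (N × N') :=
  prodChartedSpace V N V' N'

theorem chartAt_prod (x : N × N') :
    letI := prodCharted (V := V) (N := N) (V' := V') (N' := N')
    chartAt (V × V') x = (chartAt V x.1).prod (chartAt V' x.2) := rfl

theorem prod_isManifold [IsManifold 𝓘(ℂ, V) ω N] [IsManifold 𝓘(ℂ, V') ω N'] :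
    letI := prodCharted (V := V) (N := N) (V' := V') (N' := N')
    IsManifold 𝓘(ℂ, V × V') ω (N × N') := by
  have h := IsManifold.prod (I := 𝓘(ℂ, V)) (I' := 𝓘(ℂ, V')) (n := ω) N N'
  rw [← modelWithCornersSelf_prod] at h
  exact h

theorem contMDiff_fst_prod :
    letI := prodCharted (V := V) (N := N) (V' := V') (N' := N')
    ContMDiff 𝓘(ℂ, V × V') 𝓘(ℂ, V) ω (Prod.fst : N × N' → N) := by
  have h := contMDiff_fst (I := 𝓘(ℂ, V)) (J := 𝓘(ℂ, V')) (n := ω) (M := N) (N := N')
  rw [← modelWithCornersSelf_prod] at h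
  exact h

theorem contMDiff_snd_prod :
    letI := prodCharted (V := V) (N := N) (V' := V') (N' := N')
    ContMDiff 𝓘(ℂ, V × V') 𝓘(ℂ, V') ω (Prod.snd : N × N' → N') := by
  have h := _root_.contMDiff_snd (I := 𝓘(ℂ, V)) (J := 𝓘(ℂ, V')) (n := ω) (M := N) (N := N')
  rw [← modelWithCornersSelf_prod] at h
  exact h

theorem contMDiffAt_prodMk {E₁ : Type} [NormedAddCommGroup E₁] [NormedSpace ℂ E₁]
    {H₁ : Type} [TopologicalSpace H₁] {I₁ : ModelWithCorners ℂ E₁ H₁}
    {M₁ : Type} [TopologicalSpace M₁] [ChartedSpace H₁ M₁] {f : M₁ → N} {g : M₁ → N'} {x : M₁}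
    (hf : ContMDiffAt I₁ 𝓘(ℂ, V) ω f x) (hg : ContMDiffAt I₁ 𝓘(ℂ, V') ω g x) :
    letI := prodCharted (V := V) (N := N) (V' := V') (N' := N')
    ContMDiffAt I₁ 𝓘(ℂ, V × V') ω (fun y ↦ (f y, g y)) x := by
  have h := hf.prodMk hg
  rw [← modelWithCornersSelf_prod] at h
  exact h

end Rep

end Pool.Agent.Lib.MP_69200a_ag.CE
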