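import Mathlib

/-!
The Calabi-Eckmann manifold `S³ × S³ = ((ℂ² ∖ 0) × (ℂ² ∖ 0)) / ℂ`, where `t` acts by
`(u, v) ↦ (e^t u, e^{it} v)`: the topological space.
-/

open scoped Topology
open Filter Set

noncomputable section

namespace Pool.Agent.Lib.MP_69200a_ag.CE

/-- Pairs of vectors of `ℂ²`. -/
abbrev W : Type := (ℂ × ℂ) × (ℂ × ℂ)

/-- The Euclidean norm on `ℂ²`. -/
def nn (u : ℂ × ℂ) : ℝ := √(‖u.1‖ ^ 2 + ‖u.2‖ ^ 2)

theorem nn_nonneg (u : ℂ × ℂ) : 0 ≤ nn u := Real.sqrt_nonneg _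

theorem nn_sq (u : ℂ × ℂ) : nn u ^ 2 = ‖u.1‖ ^ 2 + ‖u.2‖ ^ 2 :=
  Real.sq_sqrt (by positivity)

theorem nn_eq_zero {u : ℂ × ℂ} (h : nn u = 0) : u = 0 := by
  have h1 := nn_sq u
  rw [h] at h1
  have h2 : 0 ≤ ‖u.1‖ ^ 2 := by positivity
  have h3 : 0 ≤ ‖u.2‖ ^ 2 := by positivity
  have h4 : ‖u.1‖ ^ 2 = 0 := by nlinarith
  have h5 : ‖u.2‖ ^ 2 = 0 := by nlinarith
  refine Prod.ext ?_ ?_
  · simpa using h4
  · simpa using h5

theorem nn_pos {u : ℂ × ℂ} (h : u ≠ 0) : 0 < nn u :=
  lt_of_le_of_ne (nn_nonneg u) fun h2 ↦ h (nn_eq_zero h2.symm)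

theorem ne_zero_of_nn {u : ℂ × ℂ} (h : nn u = 1) : u ≠ 0 := by
  rintro rfl
  simp [nn] at h

theorem nn_smul (c : ℂ) (u : ℂ × ℂ) : nn (c • u) = ‖c‖ * nn u := by
  have h : ‖(c • u).1‖ ^ 2 + ‖(c • u).2‖ ^ 2 = ‖c‖ ^ 2 * (‖u.1‖ ^ 2 + ‖u.2‖ ^ 2) := by
    simp only [Prod.smul_fst, Prod.smul_snd, smul_eq_mul, norm_mul]
    ring
  unfold nn
  rw [h, Real.sqrt_mul (by positivity), Real.sqrt_sq (norm_nonneg c)]

theorem continuous_nn : Continuous nn := by
  unfold nn; fun_prop

/-- The action of `ℂ` on pairs of vectors. -/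
def tw (t : ℂ) (p : W) : W := (Complex.exp t • p.1, Complex.exp (Complex.I * t) • p.2)

theorem tw_zero (p : W) : tw 0 p = p := by
  simp [tw]

theorem tw_tw (s t : ℂ) (p : W) : tw s (tw t p) = tw (s + t) p := by
  simp only [tw, smul_smul, ← Complex.exp_add, mul_add]

theorem continuous_tw : Continuous fun q : ℂ × W ↦ tw q.1 q.2 := by
  unfold tw; fun_prop

/-- Both vectors are non-zero. -/
def Good (p : W) : Prop := p.1 ≠ 0 ∧ p.2 ≠ 0

theorem Good.tw {p : W} (h : Good p) (t : ℂ) : Good (tw t p) :=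
  ⟨smul_ne_zero (Complex.exp_ne_zero _) h.1, smul_ne_zero (Complex.exp_ne_zero _) h.2⟩

theorem isOpen_good : IsOpen {p : W | Good p} := by
  have h1 : IsOpen {p : W | p.1 ≠ 0} := isOpen_ne.preimage continuous_fst
  have h2 : IsOpen {p : W | p.2 ≠ 0} := isOpen_ne.preimage continuous_snd
  exact h1.inter h2

/-- The time that moves a pair of vectors to a pair of unit vectors. -/
def tau (p : W) : ℂ := -(Real.log (nn p.1) : ℂ) + Complex.I * (Real.log (nn p.2) : ℂ)

theorem tau_re (p : W) : (tau p).re = -Real.log (nn p.1) := by simp [tau]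

theorem tau_im (p : W) : (tau p).im = Real.log (nn p.2) := by simp [tau]

theorem nn_tw_fst (t : ℂ) (p : W) : nn (tw t p).1 = Real.exp t.re * nn p.1 := by
  rw [tw, nn_smul, Complex.norm_exp]

theorem nn_tw_snd (t : ℂ) (p : W) : nn (tw t p).2 = Real.exp (-t.im) * nn p.2 := by
  rw [tw, nn_smul, Complex.norm_exp]
  simp

theorem nn_tw_tau {p : W} (h : Good p) : nn (tw (tau p) p).1 = 1 ∧ nn (tw (tau p) p).2 = 1 := by
  have h1 := nn_pos h.1
  have h2 := nn_pos h.2
  constructor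
  · rw [nn_tw_fst, tau_re, Real.exp_neg, Real.exp_log h1, inv_mul_cancel₀ h1.ne']
  · rw [nn_tw_snd, tau_im, Real.exp_neg, Real.exp_log h2, inv_mul_cancel₀ h2.ne']

theorem tau_tw {p : W} (h : Good p) (t : ℂ) : tau (tw t p) = tau p - t := by
  have h1 := nn_pos h.1
  have h2 := nn_pos h.2
  apply Complex.ext
  · rw [tau_re, nn_tw_fst, Real.log_mul (Real.exp_ne_zero _) h1.ne', Real.log_exp,
      Complex.sub_re, tau_re]
    ring
  · rw [tau_im, nn_tw_snd, Real.log_mul (Real.exp_ne_zero _) h2.ne', Real.log_exp,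
      Complex.sub_im, tau_im]
    ring

theorem tau_eq_zero {p : W} (h : nn p.1 = 1 ∧ nn p.2 = 1) : tau p = 0 := by
  rw [tau, h.1, h.2]; simp

theorem continuousAt_tau {p : W} (h : Good p) : ContinuousAt tau p := by
  have h1 : ContinuousAt (fun p : W ↦ Real.log (nn p.1)) p :=
    ContinuousAt.log (continuous_nn.comp continuous_fst).continuousAt (nn_pos h.1).ne'
  have h2 : ContinuousAt (fun p : W ↦ Real.log (nn p.2)) p :=
    ContinuousAt.log (continuous_nn.comp continuous_snd).continuousAt (nn_pos h.2).ne'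
  unfold tau
  exact (Complex.continuous_ofReal.continuousAt.comp h1).neg.add
    (continuousAt_const.mul (Complex.continuous_ofReal.continuousAt.comp h2))

/-- The space `S³ × S³`. -/
def CEX : Type := {p : W // nn p.1 = 1 ∧ nn p.2 = 1}

namespace CEX

instance : TopologicalSpace CEX :=
  inferInstanceAs (TopologicalSpace {p : W // nn p.1 = 1 ∧ nn p.2 = 1})

instance : T2Space CEX := inferInstanceAs (T2Space {p : W // nn p.1 = 1 ∧ nn p.2 = 1})

instance : SecondCountableTopology CEX :=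
  inferInstanceAs (SecondCountableTopology {p : W // nn p.1 = 1 ∧ nn p.2 = 1})

/-- The pair of vectors. -/
def val (x : CEX) : W := Subtype.val x

theorem prop (x : CEX) : nn x.val.1 = 1 ∧ nn x.val.2 = 1 := Subtype.property x

theorem ext {x y : CEX} (h : x.val = y.val) : x = y := Subtype.ext h

theorem good (x : CEX) : Good x.val := ⟨ne_zero_of_nn x.prop.1, ne_zero_of_nn x.prop.2⟩

theorem isEmbedding_val : Topology.IsEmbedding val := Topology.IsEmbedding.subtypeVal

theorem continuous_val : Continuous val := isEmbedding_val.continuous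

instance : CompactSpace CEX := by
  have h1 : IsClosed {p : W | nn p.1 = 1 ∧ nn p.2 = 1} := by
    have h2 : IsClosed {p : W | nn p.1 = 1} :=
      isClosed_singleton.preimage (continuous_nn.comp continuous_fst)
    have h3 : IsClosed {p : W | nn p.2 = 1} :=
      isClosed_singleton.preimage (continuous_nn.comp continuous_snd)
    exact h2.inter h3
  have h4 : {p : W | nn p.1 = 1 ∧ nn p.2 = 1} ⊆ Metric.closedBall 0 1 := by
    rintro p ⟨h5, h6⟩
    have key : ∀ u : ℂ × ℂ, nn u = 1 → ‖u‖ ≤ 1 := by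
      intro u hu
      have h7 := nn_sq u
      rw [hu] at h7
      have h8 : 0 ≤ ‖u.1‖ := norm_nonneg _
      have h9 : 0 ≤ ‖u.2‖ := norm_nonneg _
      rw [Prod.norm_def, sup_le_iff]
      constructor <;> nlinarith
    rw [mem_closedBall_zero_iff, Prod.norm_def, sup_le_iff]
    exact ⟨key _ h5, key _ h6⟩
  exact isCompact_iff_compactSpace.1 ((isCompact_closedBall (0 : W) 1).of_isClosed_subset h1 h4)

end CEX

/-- The base point. -/
def base : CEX := ⟨((1, 0), (1, 0)), by simp [nn]⟩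

theorem base_val : base.val = ((1, 0), (1, 0)) := rfl

open Classical in
/-- The projection `(ℂ² ∖ 0) × (ℂ² ∖ 0) → S³ × S³`. -/
def toX (p : W) : CEX := if h : Good p then ⟨tw (tau p) p, nn_tw_tau h⟩ else base

theorem toX_val {p : W} (h : Good p) : (toX p).val = tw (tau p) p := by
  rw [toX, dif_pos h]; rfl

theorem toX_of_val (x : CEX) : toX x.val = x := by
  apply CEX.ext
  rw [toX_val x.good, tau_eq_zero x.prop, tw_zero]

theorem toX_tw {p : W} (h : Good p) (t : ℂ) : toX (tw t p) = toX p := by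
  apply CEX.ext
  rw [toX_val (h.tw t), toX_val h, tau_tw h, tw_tw]
  congr 1; ring

theorem eq_tw_of_toX {p q : W} (hp : Good p) (hq : Good q) (h : toX p = toX q) :
    q = tw (tau p - tau q) p := by
  have h1 := congrArg CEX.val h
  rw [toX_val hp, toX_val hq] at h1
  have h2 : tw (-tau q) (tw (tau p) p) = tw (-tau q) (tw (tau q) q) := by rw [h1]
  rw [tw_tw, tw_tw, neg_add_cancel, tw_zero] at h2
  have h3 : -tau q + tau p = tau p - tau q := by ring
  rw [h3] at h2
  exact h2.symm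

theorem continuousAt_toX {p : W} (h : Good p) : ContinuousAt toX p := by
  rw [CEX.isEmbedding_val.continuousAt_iff]
  have h1 : ContinuousAt (fun p : W ↦ tw (tau p) p) p := by
    have h2 : ContinuousAt (fun p : W ↦ (tau p, p)) p := (continuousAt_tau h).prodMk continuousAt_id
    exact continuous_tw.continuousAt.comp h2
  refine h1.congr ?_
  filter_upwards [isOpen_good.mem_nhds h] with q hq
  exact (toX_val hq).symm

/-- The standard local lift. -/
def lift (a : ℂ × ℂ × ℂ) : W :=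
  ((1, a.1), (Complex.exp a.2.2, a.2.1 * Complex.exp a.2.2))

theorem lift_good (a : ℂ × ℂ × ℂ) : Good (lift a) := by
  constructor
  · intro h
    have h1 := congrArg Prod.fst h
    exact one_ne_zero h1
  · intro h
    have h1 := congrArg Prod.fst h
    exact Complex.exp_ne_zero _ h1

/-- The local coordinates near `lift a₀`. -/
def crd (a₀ : ℂ × ℂ × ℂ) (p : W) : ℂ × ℂ × ℂ :=
  (p.1.2 / p.1.1, p.2.2 / p.2.1,
    a₀.2.2 + Complex.log (p.2.1 * Complex.exp (-a₀.2.2)) - Complex.I * Complex.log p.1.1)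

theorem lift_crd (a₀ : ℂ × ℂ × ℂ) {p : W} (h1 : p.1.1 ≠ 0) (h2 : p.2.1 ≠ 0) :
    lift (crd a₀ p) = tw (-Complex.log p.1.1) p := by
  have e1 : Complex.exp (-Complex.log p.1.1) = p.1.1⁻¹ := by
    rw [Complex.exp_neg, Complex.exp_log h1]
  have e2 : Complex.exp (a₀.2.2 + Complex.log (p.2.1 * Complex.exp (-a₀.2.2)) -
      Complex.I * Complex.log p.1.1) =
      Complex.exp (Complex.I * (-Complex.log p.1.1)) * p.2.1 := by
    have h3 : p.2.1 * Complex.exp (-a₀.2.2) ≠ 0 := mul_ne_zero h2 (Complex.exp_ne_zero _)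
    rw [sub_eq_add_neg, Complex.exp_add, Complex.exp_add, Complex.exp_log h3]
    have h4 : Complex.exp a₀.2.2 * Complex.exp (-a₀.2.2) = 1 := by
      rw [← Complex.exp_add, add_neg_cancel, Complex.exp_zero]
    have h5 : -(Complex.I * Complex.log p.1.1) = Complex.I * (-Complex.log p.1.1) := by ring
    rw [h5]
    linear_combination p.2.1 * Complex.exp (Complex.I * (-Complex.log p.1.1)) * h4
  refine Prod.ext (Prod.ext ?_ ?_) (Prod.ext ?_ ?_)
  · change (1 : ℂ) = Complex.exp (-Complex.log p.1.1) * p.1.1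
    rw [e1, inv_mul_cancel₀ h1]
  · change p.1.2 / p.1.1 = Complex.exp (-Complex.log p.1.1) * p.1.2
    rw [e1]; field_simp
  · change Complex.exp (a₀.2.2 + Complex.log (p.2.1 * Complex.exp (-a₀.2.2)) -
      Complex.I * Complex.log p.1.1) = _ * p.2.1
    rw [e2]
  · change p.2.2 / p.2.1 * Complex.exp (a₀.2.2 + Complex.log (p.2.1 * Complex.exp (-a₀.2.2)) -
      Complex.I * Complex.log p.1.1) = _ * p.2.2
    rw [e2]; field_simp

theorem crd_tw_lift {a₀ a : ℂ × ℂ × ℂ} {t : ℂ} (ht : ‖t‖ < 1) (ha : ‖a.2.2 - a₀.2.2‖ < 1) :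
    crd a₀ (tw t (lift a)) = a := by
  have hpi := Real.pi_gt_three
  have h1 : Complex.log (Complex.exp t) = t := by
    have h2 := (Complex.abs_im_le_norm t).trans_lt ht
    rw [abs_lt] at h2
    exact Complex.log_exp (by linarith) (by linarith)
  have h3 : Complex.log (Complex.exp (Complex.I * t + (a.2.2 - a₀.2.2))) =
      Complex.I * t + (a.2.2 - a₀.2.2) := by
    have h2 : |(Complex.I * t + (a.2.2 - a₀.2.2)).im| < 2 := by
      refine (Complex.abs_im_le_norm _).trans_lt ?_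
      refine (norm_add_le _ _).trans_lt ?_
      rw [norm_mul, Complex.norm_I, one_mul]
      linarith
    rw [abs_lt] at h2
    exact Complex.log_exp (by linarith) (by linarith)
  have e0 : (tw t (lift a)).1.1 = Complex.exp t := by simp [tw, lift]
  have e1 : (tw t (lift a)).1.2 = Complex.exp t * a.1 := by simp [tw, lift]
  have e2 : (tw t (lift a)).2.1 = Complex.exp (Complex.I * t) * Complex.exp a.2.2 := by
    simp [tw, lift]
  have e3 : (tw t (lift a)).2.2 =
      Complex.exp (Complex.I * t) * (a.2.1 * Complex.exp a.2.2) := by simp [tw, lift]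
  unfold crd
  rw [e0, e1, e2, e3]
  refine Prod.ext ?_ (Prod.ext ?_ ?_)
  · change Complex.exp t * a.1 / Complex.exp t = a.1
    have := Complex.exp_ne_zero t
    field_simp
  · change Complex.exp (Complex.I * t) * (a.2.1 * Complex.exp a.2.2) /
      (Complex.exp (Complex.I * t) * Complex.exp a.2.2) = a.2.1
    have := Complex.exp_ne_zero (Complex.I * t)
    have := Complex.exp_ne_zero a.2.2
    field_simp
  · change a₀.2.2 + Complex.log (Complex.exp (Complex.I * t) * Complex.exp a.2.2 *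
      Complex.exp (-a₀.2.2)) - Complex.I * Complex.log (Complex.exp t) = a.2.2
    have h4 : Complex.exp (Complex.I * t) * Complex.exp a.2.2 * Complex.exp (-a₀.2.2) =
        Complex.exp (Complex.I * t + (a.2.2 - a₀.2.2)) := by
      rw [← Complex.exp_add, ← Complex.exp_add]; congr 1; ring
    rw [h4, h3, h1]; ring

/-- The domain of holomorphy of `crd a₀`. -/
def Dom (a₀ : ℂ × ℂ × ℂ) : Set W :=
  {p | p.1.1 ∈ Complex.slitPlane ∧ p.2.1 * Complex.exp (-a₀.2.2) ∈ Complex.slitPlane}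

theorem isOpen_dom (a₀ : ℂ × ℂ × ℂ) : IsOpen (Dom a₀) := by
  have h1 : IsOpen {p : W | p.1.1 ∈ Complex.slitPlane} :=
    Complex.isOpen_slitPlane.preimage (by fun_prop)
  have h2 : IsOpen {p : W | p.2.1 * Complex.exp (-a₀.2.2) ∈ Complex.slitPlane} :=
    Complex.isOpen_slitPlane.preimage (by fun_prop)
  exact h1.inter h2

theorem lift_mem_dom (a₀ : ℂ × ℂ × ℂ) : lift a₀ ∈ Dom a₀ := by
  constructor
  · exact Complex.one_mem_slitPlane
  · change Complex.exp a₀.2.2 * Complex.exp (-a₀.2.2) ∈ Complex.slitPlane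
    rw [← Complex.exp_add, add_neg_cancel, Complex.exp_zero]
    exact Complex.one_mem_slitPlane

theorem dom_ne {a₀ : ℂ × ℂ × ℂ} {p : W} (h : p ∈ Dom a₀) : p.1.1 ≠ 0 ∧ p.2.1 ≠ 0 :=
  ⟨Complex.slitPlane_ne_zero h.1, left_ne_zero_of_mul (Complex.slitPlane_ne_zero h.2)⟩

theorem analyticAt_crd {a₀ : ℂ × ℂ × ℂ} {p : W} (h : p ∈ Dom a₀) : AnalyticAt ℂ (crd a₀) p := by
  have h11 : AnalyticAt ℂ (fun p : W ↦ p.1.1) p := analyticAt_fst.comp analyticAt_fst
  have h12 : AnalyticAt ℂ (fun p : W ↦ p.1.2) p := analyticAt_snd.comp analyticAt_fst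
  have h21 : AnalyticAt ℂ (fun p : W ↦ p.2.1) p := analyticAt_fst.comp analyticAt_snd
  have h22 : AnalyticAt ℂ (fun p : W ↦ p.2.2) p := analyticAt_snd.comp analyticAt_snd
  refine (h12.div h11 (dom_ne h).1).prod ((h22.div h21 (dom_ne h).2).prod ?_)
  exact (analyticAt_const.add ((h21.mul analyticAt_const).clog h.2)).sub
    (analyticAt_const.mul (h11.clog h.1))

end Pool.Agent.Lib.MP_69200a_ag.CE
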