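import Mathlib
import Pool.Agent.Lib.MP_69200a_ag.Defs
import Pool.Agent.Lib.MP_69200a_ag.FlatDefs
import Pool.Agent.Lib.MP_69200a_ag.CE.Atlas
import Pool.Agent.Lib.MP_69200a_ag.CE.Space

/-!
The group `GL₂(ℂ) × GL₂(ℂ)`, its action on the Calabi-Eckmann manifold, and the complex structure
of the Calabi-Eckmann manifold.
-/

open scoped Manifold ContDiff Topology
open Filter Set

noncomputable section

namespace Pool.Agent.Lib.MP_69200a_ag.CE

/-- Endomorphisms of `ℂ²`. -/
abbrev End2 : Type := ℂ × ℂ →L[ℂ] ℂ × ℂ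

/-- The algebra `M₂(ℂ) × M₂(ℂ)`. -/
def Alg : Type := End2 × End2

instance : NormedRing Alg := inferInstanceAs (NormedRing (End2 × End2))
instance : NormedAlgebra ℂ Alg := inferInstanceAs (NormedAlgebra ℂ (End2 × End2))
instance : CompleteSpace Alg := inferInstanceAs (CompleteSpace (End2 × End2))
instance : FiniteDimensional ℂ Alg := inferInstanceAs (FiniteDimensional ℂ (End2 × End2))

/-- The first component. -/
def pr1 : Alg →L[ℂ] End2 := ContinuousLinearMap.fst ℂ End2 End2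

/-- The second component. -/
def pr2 : Alg →L[ℂ] End2 := ContinuousLinearMap.snd ℂ End2 End2

/-- The pair of two endomorphisms. -/
def pair : End2 × End2 →L[ℂ] Alg := ContinuousLinearMap.id ℂ (End2 × End2)

theorem pr1_pair (a : End2 × End2) : pr1 (pair a) = a.1 := rfl
theorem pr2_pair (a : End2 × End2) : pr2 (pair a) = a.2 := rfl
theorem pair_pr (a : Alg) : pair (pr1 a, pr2 a) = a := rfl
theorem pr1_mul (a b : Alg) : pr1 (a * b) = pr1 a * pr1 b := rfl
theorem pr2_mul (a b : Alg) : pr2 (a * b) = pr2 a * pr2 b := rfl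
theorem pr1_one : pr1 1 = 1 := rfl
theorem pr2_one : pr2 1 = 1 := rfl
theorem alg_ext {a b : Alg} (h1 : pr1 a = pr1 b) (h2 : pr2 a = pr2 b) : a = b := Prod.ext h1 h2

/-- The group `GL₂(ℂ) × GL₂(ℂ)`. -/
abbrev GG : Type := Algˣ

/-- The matrix with rows `(a, b)` and `(c, d)`. -/
def mk (a b c d : ℂ) : End2 :=
  (a • ContinuousLinearMap.fst ℂ ℂ ℂ + b • ContinuousLinearMap.snd ℂ ℂ ℂ).prod
    (c • ContinuousLinearMap.fst ℂ ℂ ℂ + d • ContinuousLinearMap.snd ℂ ℂ ℂ)

theorem mk_apply (a b c d : ℂ) (u : ℂ × ℂ) :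
    mk a b c d u = (a * u.1 + b * u.2, c * u.1 + d * u.2) := rfl

theorem mk_mul (a b c d a' b' c' d' : ℂ) : mk a b c d * mk a' b' c' d' =
    mk (a * a' + b * c') (a * b' + b * d') (c * a' + d * c') (c * b' + d * d') := by
  refine ContinuousLinearMap.ext fun u ↦ ?_
  rw [mul_apply_eq_comp, mk_apply, mk_apply, mk_apply]
  refine Prod.ext ?_ ?_
  · change a * (a' * u.1 + b' * u.2) + b * (c' * u.1 + d' * u.2) = _
    ring
  · change c * (a' * u.1 + b' * u.2) + d * (c' * u.1 + d' * u.2) = _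
    ring

theorem mk_one : mk 1 0 0 1 = 1 := by
  refine ContinuousLinearMap.ext fun u ↦ ?_
  rw [mk_apply]
  simp

theorem eq_mk (a : End2) : a = mk (a (1, 0)).1 (a (0, 1)).1 (a (1, 0)).2 (a (0, 1)).2 := by
  refine ContinuousLinearMap.ext fun u ↦ ?_
  have h : u = u.1 • ((1, 0) : ℂ × ℂ) + u.2 • ((0, 1) : ℂ × ℂ) := by
    refine Prod.ext ?_ ?_ <;> simp
  conv_lhs => rw [h]
  rw [map_add, map_smul, map_smul, mk_apply]
  refine Prod.ext ?_ ?_
  · simp only [Prod.fst_add, Prod.smul_fst, smul_eq_mul]; ring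
  · simp only [Prod.snd_add, Prod.smul_snd, smul_eq_mul]; ring

/-- The action of the algebra on pairs of vectors. -/
def act (a : Alg) (p : W) : W := (pr1 a p.1, pr2 a p.2)

theorem act_one (p : W) : act 1 p = p := rfl

theorem act_mul (a b : Alg) (p : W) : act (a * b) p = act a (act b p) := rfl

theorem act_tw (a : Alg) (t : ℂ) (p : W) : act a (tw t p) = tw t (act a p) := by
  unfold act tw
  rw [map_smul, map_smul]

theorem act_good (g : GG) {p : W} (h : Good p) : Good (act g p) := by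
  constructor
  · intro h1
    apply h.1
    have h2 : (act (↑g⁻¹) (act (↑g) p)).1 = 0 := by
      change pr1 ((g⁻¹ : GG) : Alg) ((act (↑g) p).1) = 0
      rw [h1, map_zero]
    rw [← act_mul, Units.inv_mul, act_one] at h2
    exact h2
  · intro h1
    apply h.2
    have h2 : (act (↑g⁻¹) (act (↑g) p)).2 = 0 := by
      change pr2 ((g⁻¹ : GG) : Alg) ((act (↑g) p).2) = 0
      rw [h1, map_zero]
    rw [← act_mul, Units.inv_mul, act_one] at h2
    exact h2

theorem continuous_act : Continuous fun q : Alg × W ↦ act q.1 q.2 := by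
  unfold act
  fun_prop

instance : MulAction GG CEX where
  smul g x := toX (act g x.val)
  one_smul x := by
    change toX (act ((1 : GG) : Alg) x.val) = x
    rw [Units.val_one, act_one, toX_of_val]
  mul_smul g h x := by
    change toX (act ((g * h : GG) : Alg) x.val) = toX (act g (toX (act h x.val)).val)
    rw [toX_val (act_good h x.good), act_tw, toX_tw (act_good g (act_good h x.good)), Units.val_mul,
      act_mul]

theorem smul_def (g : GG) (x : CEX) : g • x = toX (act g x.val) := rfl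

theorem smul_toX (g : GG) {p : W} (h : Good p) : g • toX p = toX (act g p) := by
  rw [smul_def, toX_val h, act_tw, toX_tw (act_good g h)]

/-- The local parametrisations of the Calabi-Eckmann manifold. -/
def pp (g : GG) (a : ℂ × ℂ × ℂ) : CEX := toX (act g (lift a))

theorem continuous_lift : Continuous lift := by unfold lift; fun_prop

theorem continuous_pp (g : GG) : Continuous (pp g) := by
  rw [continuous_iff_continuousAt]
  intro a
  have h1 : Continuous fun a ↦ act (g : Alg) (lift a) :=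
    continuous_act.comp (continuous_const.prodMk continuous_lift)
  exact ContinuousAt.comp (f := fun a ↦ act (g : Alg) (lift a))
    (continuousAt_toX (act_good g (lift_good a))) h1.continuousAt

/-- The unitary matrix with a given first column. -/
theorem exists_unit {u : ℂ × ℂ} (h : nn u = 1) :
    ∃ a b : End2, a * b = 1 ∧ b * a = 1 ∧ a (1, 0) = u := by
  have h1 := nn_sq u
  rw [h] at h1
  have h2 : u.1 * (starRingEnd ℂ) u.1 + u.2 * (starRingEnd ℂ) u.2 = 1 := by
    rw [Complex.mul_conj, Complex.mul_conj, Complex.normSq_eq_norm_sq, Complex.normSq_eq_norm_sq]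
    norm_cast
    rw [← h1]; norm_num
  refine ⟨mk u.1 (-(starRingEnd ℂ) u.2) u.2 ((starRingEnd ℂ) u.1),
    mk ((starRingEnd ℂ) u.1) ((starRingEnd ℂ) u.2) (-u.2) u.1, ?_, ?_, ?_⟩
  · rw [mk_mul, ← mk_one]
    congr 1
    · linear_combination h2
    · ring
    · ring
    · linear_combination h2
  · rw [mk_mul, ← mk_one]
    congr 1
    · linear_combination h2
    · ring
    · ring
    · linear_combination h2
  · rw [mk_apply]
    refine Prod.ext ?_ ?_ <;> simp

theorem transitive (x : CEX) : ∃ g : GG, g • base = x := by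
  obtain ⟨a, b, h1, h2, h3⟩ := exists_unit x.prop.1
  obtain ⟨a', b', h1', h2', h3'⟩ := exists_unit x.prop.2
  refine ⟨⟨pair (a, a'), pair (b, b'), alg_ext h1 h1', alg_ext h2 h2'⟩, ?_⟩
  rw [smul_def]
  have h4 : act (pair (a, a')) base.val = x.val := Prod.ext h3 h3'
  exact (congrArg toX h4).trans (toX_of_val x)

theorem lift_zero : lift 0 = base.val := by
  rw [base_val]
  simp [lift]

theorem pp_data : AtlasData pp where
  homeo g := by
    refine isLocalHomeomorph_of_inverse (continuous_pp g) fun a₀ ↦ ?_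
    obtain ⟨t₀, ht₀⟩ : ∃ t₀, t₀ = -tau (act g (lift a₀)) := ⟨_, rfl⟩
    have hcont : Continuous fun x : CEX ↦ tw t₀ (act ((g⁻¹ : GG) : Alg) x.val) :=
      continuous_tw.comp (continuous_const.prodMk
        (continuous_act.comp (continuous_const.prodMk CEX.continuous_val)))
    have hval : ∀ a, act ((g⁻¹ : GG) : Alg) (pp g a).val = tw (tau (act g (lift a))) (lift a) := by
      intro a
      unfold pp
      rw [toX_val (act_good g (lift_good a)), act_tw, ← act_mul, Units.inv_mul, act_one]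
    have h0 : tw t₀ (act ((g⁻¹ : GG) : Alg) (pp g a₀).val) = lift a₀ := by
      rw [hval, tw_tw, ht₀, neg_add_cancel, tw_zero]
    refine ⟨fun x ↦ crd a₀ (tw t₀ (act ((g⁻¹ : GG) : Alg) x.val)), ?_, ?_⟩
    · have h1 : ∀ᶠ x in 𝓝 (pp g a₀), tw t₀ (act ((g⁻¹ : GG) : Alg) x.val) ∈ Dom a₀ := by
        have h2 : Dom a₀ ∈ 𝓝 (tw t₀ (act ((g⁻¹ : GG) : Alg) (pp g a₀).val)) := by
          rw [h0]; exact (isOpen_dom a₀).mem_nhds (lift_mem_dom a₀)
        exact hcont.continuousAt h2
      filter_upwards [h1] with x hx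
      refine ⟨ContinuousAt.comp (f := fun x : CEX ↦ tw t₀ (act ((g⁻¹ : GG) : Alg) x.val))
        (analyticAt_crd hx).continuousAt hcont.continuousAt, ?_⟩
      have hgood : Good (act ((g⁻¹ : GG) : Alg) x.val) := act_good g⁻¹ x.good
      unfold pp
      rw [lift_crd a₀ (dom_ne hx).1 (dom_ne hx).2, act_tw, act_tw, ← act_mul, Units.mul_inv,
        act_one, toX_tw (x.good.tw _), toX_tw x.good, toX_of_val]
    · have h1 : ∀ᶠ a in 𝓝 a₀, ‖t₀ + tau (act g (lift a))‖ < 1 := by
        have h2 : ContinuousAt (fun a ↦ ‖t₀ + tau (act g (lift a))‖) a₀ := by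
          have h3 : ContinuousAt (fun a ↦ act (g : Alg) (lift a)) a₀ :=
            (continuous_act.comp (continuous_const.prodMk continuous_lift)).continuousAt
          have h4 : ContinuousAt (fun a ↦ tau (act (g : Alg) (lift a))) a₀ :=
            ContinuousAt.comp (f := fun a ↦ act (g : Alg) (lift a))
              (continuousAt_tau (act_good g (lift_good a₀))) h3
          exact (continuousAt_const.add h4).norm
        have h5 : (fun a ↦ ‖t₀ + tau (act g (lift a))‖) a₀ < 1 := by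
          rw [ht₀]; simp
        exact h2.eventually_lt_const h5
      have h6 : ∀ᶠ a in 𝓝 a₀, ‖a.2.2 - a₀.2.2‖ < 1 := by
        have h7 : ContinuousAt (fun a : ℂ × ℂ × ℂ ↦ ‖a.2.2 - a₀.2.2‖) a₀ := by fun_prop
        exact h7.eventually_lt_const (by simp)
      filter_upwards [h1, h6] with a ha1 ha2
      rw [hval, tw_tw]
      exact crd_tw_lift ha1 ha2
  surj x := by
    obtain ⟨g, hg⟩ := transitive x
    refine ⟨g, 0, ?_⟩
    unfold pp
    rw [lift_zero]
    exact hg
  compat g g' a b hab := by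
    have h1 : toX (act g (lift a)) = toX (act g' (lift b)) := hab
    have h2 := eq_tw_of_toX (act_good g (lift_good a)) (act_good g' (lift_good b)) h1
    obtain ⟨t, ht⟩ : ∃ t, t = tau (act (g : Alg) (lift a)) - tau (act (g' : Alg) (lift b)) :=
      ⟨_, rfl⟩
    rw [← ht] at h2
    have h3 : act ((g'⁻¹ : GG) : Alg) (tw t (act g (lift a))) = lift b := by
      rw [← h2, ← act_mul, Units.inv_mul, act_one]
    rw [act_tw] at h3
    have hy : ContDiff ℂ ω (fun v ↦ tw t (act ((g'⁻¹ : GG) : Alg) (act (g : Alg) (lift v)))) := by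
      unfold tw act lift
      fun_prop
    refine ⟨fun v ↦ crd b (tw t (act ((g'⁻¹ : GG) : Alg) (act (g : Alg) (lift v)))), ?_, ?_, ?_⟩
    · have h4 : ContDiffAt ℂ ω (crd b) (tw t (act ((g'⁻¹ : GG) : Alg) (act (g : Alg) (lift a)))) := by
        rw [h3]; exact (analyticAt_crd (lift_mem_dom b)).contDiffAt
      exact h4.comp a hy.contDiffAt
    · change crd b (tw t (act ((g'⁻¹ : GG) : Alg) (act (g : Alg) (lift a)))) = b
      rw [h3]
      have h5 := crd_tw_lift (a₀ := b) (a := b) (t := 0) (by simp) (by simp)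
      rwa [tw_zero] at h5
    · have h4 : ∀ᶠ v in 𝓝 a, tw t (act ((g'⁻¹ : GG) : Alg) (act (g : Alg) (lift v))) ∈ Dom b := by
        have h5 : Dom b ∈ 𝓝 (tw t (act ((g'⁻¹ : GG) : Alg) (act (g : Alg) (lift a)))) := by
          rw [h3]; exact (isOpen_dom b).mem_nhds (lift_mem_dom b)
        exact hy.continuous.continuousAt h5
      filter_upwards [h4] with v hv
      unfold pp
      have hgood := act_good g (lift_good v)
      rw [lift_crd b (dom_ne hv).1 (dom_ne hv).2, act_tw, act_tw, ← act_mul (g' : Alg),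
        Units.mul_inv, act_one, toX_tw (hgood.tw _), toX_tw hgood]

instance : ChartedSpace (ℂ × ℂ × ℂ) CEX := pp_data.chartedSpace

instance : IsManifold 𝓘(ℂ, ℂ × ℂ × ℂ) ω CEX := pp_data.isManifold

theorem contMDiff_pp (g : GG) : ContMDiff 𝓘(ℂ, ℂ × ℂ × ℂ) 𝓘(ℂ, ℂ × ℂ × ℂ) ω (pp g) :=
  pp_data.contMDiff g

/-- The action is holomorphic. -/
theorem contMDiff_smul' : ContMDiff (𝓘(ℂ, Alg).prod 𝓘(ℂ, ℂ × ℂ × ℂ)) 𝓘(ℂ, ℂ × ℂ × ℂ) ω
    (fun p : GG × CEX ↦ p.1 • p.2) := by
  rintro ⟨g₀, x₀⟩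
  obtain ⟨k, a₀, rfl⟩ := pp_data.surj x₀
  obtain ⟨e, he⟩ : ∃ e : CEX → ℂ × ℂ × ℂ, e = (pp_data.homeo k).localInverseAt a₀ := ⟨_, rfl⟩
  have he1 : ContMDiffAt 𝓘(ℂ, ℂ × ℂ × ℂ) 𝓘(ℂ, ℂ × ℂ × ℂ) ω e (pp k a₀) := by
    rw [he]; exact pp_data.contMDiffAt_inverse k a₀
  have he2 : e (pp k a₀) = a₀ := by
    rw [he]; exact (pp_data.homeo k).localInverseAt_apply_self
  have he3 : ∀ᶠ x in 𝓝 (pp k a₀), pp k (e x) = x := by
    rw [he]
    filter_upwards [((pp_data.homeo k).localInverseAt a₀).open_source.mem_nhds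
      (pp_data.homeo k).apply_self_mem_localInverseAt_source] with x hx
    exact (pp_data.homeo k).apply_localInverseAt_of_mem hx
  obtain ⟨m, hm⟩ : ∃ m : GG, m = g₀ * k := ⟨_, rfl⟩
  obtain ⟨Y, hY⟩ : ∃ Y : Alg × (ℂ × ℂ × ℂ) → W,
      Y = fun q ↦ act (((m⁻¹ : GG) : Alg) * q.1 * (k : Alg)) (lift q.2) := ⟨_, rfl⟩
  have hYd : ContDiff ℂ ω Y := by
    rw [hY]
    unfold act lift
    fun_prop
  have hpair : ContMDiffAt (𝓘(ℂ, Alg).prod 𝓘(ℂ, ℂ × ℂ × ℂ)) 𝓘(ℂ, Alg × (ℂ × ℂ × ℂ)) ω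
      (fun p : GG × CEX ↦ ((p.1 : Alg), e p.2)) (g₀, pp k a₀) := by
    refine ContMDiffAt.prodMk_space ?_ ?_
    · have h1 : ContMDiff 𝓘(ℂ, Alg) 𝓘(ℂ, Alg) ω (Units.val : GG → Alg) := Units.contMDiff_val
      exact h1.contMDiffAt.comp (g₀, pp k a₀) contMDiffAt_fst
    · exact ContMDiffAt.comp (x := (g₀, pp k a₀)) (g := e) he1 contMDiffAt_snd
  have hY0 : Y ((g₀ : Alg), e (pp k a₀)) = lift a₀ := by
    rw [hY, he2]
    change act (((m⁻¹ : GG) : Alg) * (g₀ : Alg) * (k : Alg)) (lift a₀) = _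
    rw [mul_assoc, ← Units.val_mul, ← Units.val_mul, hm, inv_mul_cancel, Units.val_one, act_one]
  refine pp_data.contMDiffAt_of_lift (g := fun p : GG × CEX ↦ crd a₀ (Y ((p.1 : Alg), e p.2))) m
    ?_ ?_
  · have h1 : ContDiffAt ℂ ω (fun q ↦ crd a₀ (Y q)) ((g₀ : Alg), e (pp k a₀)) := by
      have h2 : ContDiffAt ℂ ω (crd a₀) (Y ((g₀ : Alg), e (pp k a₀))) := by
        rw [hY0]; exact (analyticAt_crd (lift_mem_dom a₀)).contDiffAt
      exact h2.comp _ hYd.contDiffAt
    exact h1.contMDiffAt.comp (g₀, pp k a₀) hpair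
  · have h1 : ∀ᶠ p : GG × CEX in 𝓝 (g₀, pp k a₀), Y ((p.1 : Alg), e p.2) ∈ Dom a₀ := by
      have h2 : ContinuousAt (fun p : GG × CEX ↦ Y ((p.1 : Alg), e p.2)) (g₀, pp k a₀) :=
        hYd.continuous.continuousAt.comp hpair.continuousAt
      have h3 : Dom a₀ ∈ 𝓝 (Y ((g₀ : Alg), e (pp k a₀))) := by
        rw [hY0]; exact (isOpen_dom a₀).mem_nhds (lift_mem_dom a₀)
      exact h2 h3
    have h4 : ∀ᶠ p : GG × CEX in 𝓝 (g₀, pp k a₀), pp k (e p.2) = p.2 :=
      (continuous_snd.tendsto (g₀, pp k a₀)).eventually he3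
    filter_upwards [h1, h4] with p hp1 hp2
    have hgood : Good (act ((p.1 * k : GG) : Alg) (lift (e p.2))) := act_good _ (lift_good _)
    have h5 : act (m : Alg) (Y ((p.1 : Alg), e p.2)) = act ((p.1 * k : GG) : Alg) (lift (e p.2)) := by
      rw [hY]
      change act (m : Alg) (act (((m⁻¹ : GG) : Alg) * (p.1 : Alg) * (k : Alg)) (lift (e p.2))) = _
      rw [← act_mul, mul_assoc, Units.mul_inv_cancel_left, Units.val_mul]
    conv_lhs => rw [← hp2]
    unfold pp
    rw [smul_toX p.1 (act_good k (lift_good _)), ← act_mul, ← Units.val_mul,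
      lift_crd a₀ (dom_ne hp1).1 (dom_ne hp1).2, act_tw, h5, toX_tw hgood]

end Pool.Agent.Lib.MP_69200a_ag.CE
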