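import Mathlib
import Pool.Agent.Lib.MP_69200a_ag.CE.Group
import Pool.Agent.Lib.MP_69200a_ag.CE.Frame

/-!
The stabiliser `H` of the base point of the Calabi-Eckmann manifold, as a complex Lie group, and the
homogeneous space structure.
-/

open scoped Manifold ContDiff Topology
open Filter Set

noncomputable section

namespace Pool.Agent.Lib.MP_69200a_ag.CE

/-- The coordinate space `ℂ⁵` of the stabiliser. -/
abbrev E5 : Type := ℂ × (ℂ × ℂ) × (ℂ × ℂ)

/-- The element of the algebra with coordinates `h`. -/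
def iH (h : E5) : Alg :=
  pair (mk (Complex.exp h.1) h.2.1.1 0 h.2.1.2,
    mk (Complex.exp (Complex.I * h.1)) h.2.2.1 0 h.2.2.2)

/-- The product in coordinates. -/
def mulE (h h' : E5) : E5 :=
  (h.1 + h'.1, (Complex.exp h.1 * h'.2.1.1 + h.2.1.1 * h'.2.1.2, h.2.1.2 * h'.2.1.2),
    (Complex.exp (Complex.I * h.1) * h'.2.2.1 + h.2.2.1 * h'.2.2.2, h.2.2.2 * h'.2.2.2))

/-- The inverse in coordinates. -/
def invE (h : E5) : E5 :=
  (-h.1, (-(Complex.exp (-h.1) * h.2.1.1 / h.2.1.2), (h.2.1.2)⁻¹),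
    (-(Complex.exp (Complex.I * -h.1) * h.2.2.1 / h.2.2.2), (h.2.2.2)⁻¹))

theorem iH_mulE (h h' : E5) : iH (mulE h h') = iH h * iH h' := by
  refine alg_ext ?_ ?_
  · rw [pr1_mul]
    change mk _ _ _ _ = mk _ _ _ _ * mk _ _ _ _
    rw [mk_mul]
    simp only [mulE, Complex.exp_add]
    congr 1 <;> ring
  · rw [pr2_mul]
    change mk _ _ _ _ = mk _ _ _ _ * mk _ _ _ _
    rw [mk_mul]
    simp only [mulE, mul_add, Complex.exp_add]
    congr 1 <;> ring

/-- The stabiliser of the base point. -/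
def HH : Type := {h : E5 // h.2.1.2 ≠ 0 ∧ h.2.2.2 ≠ 0}

namespace HH

instance : TopologicalSpace HH :=
  inferInstanceAs (TopologicalSpace {h : E5 // h.2.1.2 ≠ 0 ∧ h.2.2.2 ≠ 0})

instance : T2Space HH := inferInstanceAs (T2Space {h : E5 // h.2.1.2 ≠ 0 ∧ h.2.2.2 ≠ 0})

instance : SecondCountableTopology HH :=
  inferInstanceAs (SecondCountableTopology {h : E5 // h.2.1.2 ≠ 0 ∧ h.2.2.2 ≠ 0})

/-- The coordinates. -/
def val (h : HH) : E5 := Subtype.val h

theorem prop (h : HH) : h.val.2.1.2 ≠ 0 ∧ h.val.2.2.2 ≠ 0 := Subtype.property h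

theorem ext {x y : HH} (h : x.val = y.val) : x = y := Subtype.ext h

theorem isOpen_dom : IsOpen {h : E5 | h.2.1.2 ≠ 0 ∧ h.2.2.2 ≠ 0} := by
  have h1 : IsOpen {h : E5 | h.2.1.2 ≠ 0} := isOpen_ne.preimage (by fun_prop)
  have h2 : IsOpen {h : E5 | h.2.2.2 ≠ 0} := isOpen_ne.preimage (by fun_prop)
  exact h1.inter h2

theorem isOpenEmbedding_val : Topology.IsOpenEmbedding val := isOpen_dom.isOpenEmbedding_subtypeVal

theorem continuous_val : Continuous val := isOpenEmbedding_val.continuous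

instance : Nonempty HH := ⟨⟨(0, (0, 1), (0, 1)), one_ne_zero, one_ne_zero⟩⟩

instance : ChartedSpace E5 HH := isOpenEmbedding_val.singletonChartedSpace

instance : IsManifold 𝓘(ℂ, E5) ω HH := isOpenEmbedding_val.isManifold_singleton

theorem chartAt_apply (x y : HH) : chartAt E5 x y = y.val := rfl

theorem contMDiff_val : ContMDiff 𝓘(ℂ, E5) 𝓘(ℂ, E5) ω val :=
  contMDiff_isOpenEmbedding isOpenEmbedding_val

instance : Group HH where
  mul a b := ⟨mulE a.val b.val, mul_ne_zero a.prop.1 b.prop.1, mul_ne_zero a.prop.2 b.prop.2⟩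
  one := ⟨(0, (0, 1), (0, 1)), one_ne_zero, one_ne_zero⟩
  inv a := ⟨invE a.val, inv_ne_zero a.prop.1, inv_ne_zero a.prop.2⟩
  mul_assoc a b c := by
    apply Subtype.ext
    change mulE (mulE a.val b.val) c.val = mulE a.val (mulE b.val c.val)
    simp only [mulE, mul_add, Complex.exp_add]
    refine Prod.ext ?_ (Prod.ext (Prod.ext ?_ ?_) (Prod.ext ?_ ?_)) <;> simp only [] <;> ring
  one_mul a := by
    apply Subtype.ext
    change mulE (0, (0, 1), (0, 1)) a.val = a.val
    simp only [mulE, mul_zero, Complex.exp_zero]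
    refine Prod.ext ?_ (Prod.ext (Prod.ext ?_ ?_) (Prod.ext ?_ ?_)) <;> simp only [] <;> ring
  mul_one a := by
    apply Subtype.ext
    change mulE a.val (0, (0, 1), (0, 1)) = a.val
    simp only [mulE]
    refine Prod.ext ?_ (Prod.ext (Prod.ext ?_ ?_) (Prod.ext ?_ ?_)) <;> simp only [] <;> ring
  inv_mul_cancel a := by
    apply Subtype.ext
    change mulE (invE a.val) a.val = (0, (0, 1), (0, 1))
    have h1 := a.prop.1
    have h2 := a.prop.2
    simp only [mulE, invE]
    refine Prod.ext ?_ (Prod.ext (Prod.ext ?_ ?_) (Prod.ext ?_ ?_)) <;> simp only []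
    · ring
    · field_simp; ring
    · field_simp
    · field_simp; ring
    · field_simp

theorem val_mul (a b : HH) : (a * b).val = mulE a.val b.val := rfl
theorem val_one : (1 : HH).val = (0, (0, 1), (0, 1)) := rfl
theorem val_inv (a : HH) : (a⁻¹).val = invE a.val := rfl

theorem contDiff_mulE : ContDiff ℂ ω (fun q : E5 × E5 ↦ mulE q.1 q.2) := by
  unfold mulE
  fun_prop

instance : LieGroup 𝓘(ℂ, E5) ω HH where
  contMDiff_mul := by
    apply ContMDiff.of_comp_isOpenEmbedding isOpenEmbedding_val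
    have h1 : val ∘ (fun x : HH × HH ↦ x.1 * x.2) =
      (fun x : E5 × E5 ↦ mulE x.1 x.2) ∘ (fun x : HH × HH ↦ (x.1.val, x.2.val)) := rfl
    rw [h1]
    have h2 : ContMDiff (𝓘(ℂ, E5).prod 𝓘(ℂ, E5)) 𝓘(ℂ, E5 × E5) ω
        (fun x : HH × HH ↦ (x.1.val, x.2.val)) :=
      (contMDiff_val.comp contMDiff_fst).prodMk_space (contMDiff_val.comp _root_.contMDiff_snd)
    exact contDiff_mulE.contMDiff.comp h2
  contMDiff_inv := by
    apply ContMDiff.of_comp_isOpenEmbedding isOpenEmbedding_val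
    intro x
    have h1 : val ∘ (fun x : HH ↦ x⁻¹) = invE ∘ val := rfl
    rw [h1]
    have h2 : ContDiffAt ℂ ω invE x.val := by
      have h3 := x.prop.1
      have h4 := x.prop.2
      unfold invE
      have e1 : ContDiffAt ℂ ω (fun h : E5 ↦ h.1) x.val := by fun_prop
      have e2 : ContDiffAt ℂ ω (fun h : E5 ↦ h.2.1.1) x.val := by fun_prop
      have e3 : ContDiffAt ℂ ω (fun h : E5 ↦ h.2.1.2) x.val := by fun_prop
      have e4 : ContDiffAt ℂ ω (fun h : E5 ↦ h.2.2.1) x.val := by fun_prop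
      have e5 : ContDiffAt ℂ ω (fun h : E5 ↦ h.2.2.2) x.val := by fun_prop
      refine e1.neg.prodMk ((((e1.neg.cexp.mul e2).div e3 h3).neg.prodMk (e3.inv h3)).prodMk
        (((((contDiffAt_const.mul e1.neg).cexp).mul e4).div e5 h4).neg.prodMk (e5.inv h4)))
    exact h2.contMDiffAt.comp x contMDiff_val.contMDiffAt

instance : IsTopologicalGroup HH := topologicalGroup_of_lieGroup 𝓘(ℂ, E5) ω

end HH

theorem iH_one : iH (0, (0, 1), (0, 1)) = 1 := by
  refine alg_ext ?_ ?_
  · rw [pr1_one, ← mk_one]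
    change mk _ _ _ _ = mk _ _ _ _
    simp
  · rw [pr2_one, ← mk_one]
    change mk _ _ _ _ = mk _ _ _ _
    simp

/-- The embedding of the stabiliser. -/
def iota : HH →* GG where
  toFun h := ⟨iH h.val, iH (h⁻¹).val, by
    rw [← iH_mulE, ← HH.val_mul, mul_inv_cancel, HH.val_one, iH_one], by
    rw [← iH_mulE, ← HH.val_mul, inv_mul_cancel, HH.val_one, iH_one]⟩
  map_one' := by
    apply Units.ext
    exact iH_one
  map_mul' a b := by
    apply Units.ext
    exact iH_mulE a.val b.val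

theorem val_iota (h : HH) : (iota h : Alg) = iH h.val := rfl

/-- The entries of a matrix, as a continuous linear map. -/
def mkL : ((ℂ × ℂ) × (ℂ × ℂ)) →L[ℂ] End2 :=
  LinearMap.toContinuousLinearMap
    { toFun := fun m ↦ mk m.1.1 m.1.2 m.2.1 m.2.2
      map_add' := by
        intro m m'
        refine ContinuousLinearMap.ext fun u ↦ ?_
        rw [add_apply, mk_apply, mk_apply, mk_apply]
        refine Prod.ext ?_ ?_
        · simp only [Prod.fst_add, Prod.snd_add]; ring
        · simp only [Prod.fst_add, Prod.snd_add]; ring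
      map_smul' := by
        intro c m
        refine ContinuousLinearMap.ext fun u ↦ ?_
        rw [RingHom.id_apply, smul_apply, mk_apply, mk_apply]
        refine Prod.ext ?_ ?_
        · simp only [Prod.smul_fst, Prod.smul_snd, smul_eq_mul]; ring
        · simp only [Prod.smul_fst, Prod.smul_snd, smul_eq_mul]; ring }

theorem mkL_apply (a b c d : ℂ) : mkL ((a, b), (c, d)) = mk a b c d := rfl

theorem iH_eq (h : E5) : iH h = pair (mkL ((Complex.exp h.1, h.2.1.1), (0, h.2.1.2)),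
    mkL ((Complex.exp (Complex.I * h.1), h.2.2.1), (0, h.2.2.2))) := rfl

theorem contDiff_iH : ContDiff ℂ ω iH := by
  have h : iH = fun h : E5 ↦ pair (mkL ((Complex.exp h.1, h.2.1.1), (0, h.2.1.2)),
    mkL ((Complex.exp (Complex.I * h.1), h.2.2.1), (0, h.2.2.2))) := funext iH_eq
  rw [h]
  fun_prop

/-- The derivative of `iH`. -/
def diH (h v : E5) : Alg :=
  pair (mk (Complex.exp h.1 * v.1) v.2.1.1 0 v.2.1.2,
    mk (Complex.exp (Complex.I * h.1) * (Complex.I * v.1)) v.2.2.1 0 v.2.2.2)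

theorem fderiv_iH (h v : E5) : fderiv ℂ iH h v = diH h v := by
  have h1 : HasFDerivAt (fun h : E5 ↦ h.1) (ContinuousLinearMap.fst ℂ ℂ ((ℂ × ℂ) × (ℂ × ℂ))) h :=
    hasFDerivAt_fst
  have h2 : HasFDerivAt (fun h : E5 ↦ h.2) (ContinuousLinearMap.snd ℂ ℂ ((ℂ × ℂ) × (ℂ × ℂ))) h :=
    hasFDerivAt_snd
  have h21 : HasFDerivAt (fun h : E5 ↦ h.2.1) _ h := h2.fst
  have h22 : HasFDerivAt (fun h : E5 ↦ h.2.2) _ h := h2.snd
  have hA : HasFDerivAt (fun h : E5 ↦ mkL ((Complex.exp h.1, h.2.1.1), (0, h.2.1.2))) _ h :=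
    mkL.hasFDerivAt.comp h
      (((h1.cexp.prodMk h21.fst)).prodMk ((hasFDerivAt_const (0 : ℂ) h).prodMk h21.snd))
  have hB : HasFDerivAt (fun h : E5 ↦
      mkL ((Complex.exp (Complex.I * h.1), h.2.2.1), (0, h.2.2.2))) _ h :=
    mkL.hasFDerivAt.comp h
      ((((h1.const_mul Complex.I).cexp.prodMk h22.fst)).prodMk
        ((hasFDerivAt_const (0 : ℂ) h).prodMk h22.snd))
  have hC := pair.hasFDerivAt.comp h (hA.prodMk hB)
  have hD : HasFDerivAt iH _ h := hC
  rw [hD.fderiv]
  rfl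

theorem chartGG (g g' : GG) : chartAt Alg g g' = (g' : Alg) := rfl

theorem hasMFDerivAt_iota (h : HH) :
    HasMFDerivAt 𝓘(ℂ, E5) 𝓘(ℂ, Alg) iota h (fderiv ℂ iH h.val) := by
  refine hasMFDerivAt_of_rep ?_ (F := iH)
    (contDiff_iH.contDiffAt.differentiableAt (by simp)).hasFDerivAt ?_
  · have h1 : Continuous (fun h : HH ↦ ((iota h : GG) : Alg)) :=
      contDiff_iH.continuous.comp HH.continuous_val
    exact (Units.isOpenEmbedding_val.isInducing.continuous_iff.2 h1).continuousAt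
  · exact Eventually.of_forall fun y ↦ rfl

theorem mk_inj {a b c d a' b' c' d' : ℂ} (h : mk a b c d = mk a' b' c' d') :
    a = a' ∧ b = b' ∧ c = c' ∧ d = d' := by
  have h1 := congrArg (fun m : End2 ↦ m (1, 0)) h
  have h2 := congrArg (fun m : End2 ↦ m (0, 1)) h
  simp only [mk_apply, mul_one, mul_zero, add_zero, zero_add, Prod.mk.injEq] at h1 h2
  exact ⟨h1.1, h2.1, h1.2, h2.2⟩

theorem exp_exp_inj {t t' : ℂ} (h1 : Complex.exp t = Complex.exp t')
    (h2 : Complex.exp (Complex.I * t) = Complex.exp (Complex.I * t')) : t = t' := by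
  have h3 := congrArg norm h1
  have h4 := congrArg norm h2
  rw [Complex.norm_exp, Complex.norm_exp] at h3 h4
  have h5 := Real.exp_injective h3
  have h6 := Real.exp_injective h4
  simp only [Complex.mul_re, Complex.I_re, Complex.I_im, zero_mul, one_mul, zero_sub,
    neg_inj] at h6
  exact Complex.ext h5 h6

/-- A left inverse of the embedding. -/
def recov (a : Alg) : E5 :=
  ((Real.log ‖(pr1 a (1, 0)).1‖ : ℂ) - Complex.I * (Real.log ‖(pr2 a (1, 0)).1‖ : ℂ),
    pr1 a (0, 1), pr2 a (0, 1))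

theorem recov_iH (h : E5) : recov (iH h) = h := by
  have e1 : (pr1 (iH h) (1, 0)).1 = Complex.exp h.1 := by
    rw [iH, pr1_pair, mk_apply]; simp
  have e2 : (pr2 (iH h) (1, 0)).1 = Complex.exp (Complex.I * h.1) := by
    rw [iH, pr2_pair, mk_apply]; simp
  have e3 : pr1 (iH h) (0, 1) = h.2.1 := by
    rw [iH, pr1_pair, mk_apply]; simp
  have e4 : pr2 (iH h) (0, 1) = h.2.2 := by
    rw [iH, pr2_pair, mk_apply]; simp
  unfold recov
  rw [e1, e2, e3, e4, Complex.norm_exp, Complex.norm_exp, Real.log_exp, Real.log_exp]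
  refine Prod.ext ?_ rfl
  apply Complex.ext <;> simp

theorem continuousAt_recov (h : E5) : ContinuousAt recov (iH h) := by
  have e1 : (pr1 (iH h) (1, 0)).1 = Complex.exp h.1 := by
    rw [iH, pr1_pair, mk_apply]; simp
  have e2 : (pr2 (iH h) (1, 0)).1 = Complex.exp (Complex.I * h.1) := by
    rw [iH, pr2_pair, mk_apply]; simp
  have h1 : ContinuousAt (fun a : Alg ↦ Real.log ‖(pr1 a (1, 0)).1‖) (iH h) := by
    refine ContinuousAt.log (by fun_prop) ?_
    rw [e1]; exact (norm_pos_iff.2 (Complex.exp_ne_zero _)).ne'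
  have h2 : ContinuousAt (fun a : Alg ↦ Real.log ‖(pr2 a (1, 0)).1‖) (iH h) := by
    refine ContinuousAt.log (by fun_prop) ?_
    rw [e2]; exact (norm_pos_iff.2 (Complex.exp_ne_zero _)).ne'
  unfold recov
  refine ContinuousAt.prodMk ?_ (ContinuousAt.prodMk (by fun_prop) (by fun_prop))
  exact (Complex.continuous_ofReal.continuousAt.comp h1).sub
    (continuousAt_const.mul (Complex.continuous_ofReal.continuousAt.comp h2))

/-- The stabiliser of the base point. -/
theorem stab (g : GG) : g • base = base ↔ ∃ h : HH, iota h = g := by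
  have hb : Good base.val := base.good
  constructor
  · intro hg
    rw [smul_def] at hg
    have h1 : toX base.val = toX (act g base.val) := by rw [hg, toX_of_val]
    have h2 := eq_tw_of_toX hb (act_good g hb) h1
    obtain ⟨t, ht⟩ : ∃ t, t = tau base.val - tau (act (g : Alg) base.val) := ⟨_, rfl⟩
    rw [← ht] at h2
    have h3 : pr1 (g : Alg) (1, 0) = (Complex.exp t, 0) := by
      have := congrArg Prod.fst h2
      change pr1 (g : Alg) (1, 0) = Complex.exp t • ((1, 0) : ℂ × ℂ) at this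
      rw [this]; simp
    have h4 : pr2 (g : Alg) (1, 0) = (Complex.exp (Complex.I * t), 0) := by
      have := congrArg Prod.snd h2
      change pr2 (g : Alg) (1, 0) = Complex.exp (Complex.I * t) • ((1, 0) : ℂ × ℂ) at this
      rw [this]; simp
    have h5 : (g : Alg) = iH (t, pr1 (g : Alg) (0, 1), pr2 (g : Alg) (0, 1)) := by
      refine alg_ext ?_ ?_
      · rw [iH, pr1_pair]
        conv_lhs => rw [eq_mk (pr1 (g : Alg)), h3]
      · rw [iH, pr2_pair]
        conv_lhs => rw [eq_mk (pr2 (g : Alg)), h4]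
    -- the diagonal entries are non-zero
    have key : ∀ a b : End2, b * a = 1 → ∀ z, a (1, 0) = (z, 0) → (a (0, 1)).2 ≠ 0 := by
      intro a b hba z ha h0
      obtain ⟨y, hy⟩ : ∃ y, y = (a (0, 1)).1 := ⟨_, rfl⟩
      have h01 : a (0, 1) = (y, 0) := Prod.ext hy.symm h0
      have hlin : a (-y • ((1, 0) : ℂ × ℂ) + z • ((0, 1) : ℂ × ℂ)) = 0 := by
        rw [map_add, map_smul, map_smul, ha, h01]
        refine Prod.ext ?_ ?_
        · simp only [Prod.fst_add, Prod.smul_fst, smul_eq_mul, Prod.fst_zero]; ring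
        · simp
      have hz : -y • ((1, 0) : ℂ × ℂ) + z • ((0, 1) : ℂ × ℂ) = 0 := by
        have h6 : (b * a) (-y • ((1, 0) : ℂ × ℂ) + z • ((0, 1) : ℂ × ℂ)) = 0 := by
          rw [mul_apply_eq_comp, hlin, map_zero]
        rw [hba] at h6
        exact h6
      have hz2 : z = 0 := by
        have := congrArg Prod.snd hz
        simpa using this
      have h7 : (b * a) (1, 0) = 0 := by
        rw [mul_apply_eq_comp, ha, hz2]
        exact map_zero b
      rw [hba] at h7
      have h8 := congrArg Prod.fst h7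
      exact one_ne_zero h8
    have h6 : (pr1 (g : Alg) (0, 1)).2 ≠ 0 := by
      refine key _ (pr1 ((g⁻¹ : GG) : Alg)) ?_ _ h3
      rw [← pr1_mul, Units.inv_mul, pr1_one]
    have h7 : (pr2 (g : Alg) (0, 1)).2 ≠ 0 := by
      refine key _ (pr2 ((g⁻¹ : GG) : Alg)) ?_ _ h4
      rw [← pr2_mul, Units.inv_mul, pr2_one]
    refine ⟨⟨(t, pr1 (g : Alg) (0, 1), pr2 (g : Alg) (0, 1)), h6, h7⟩, ?_⟩
    apply Units.ext
    exact h5.symm
  · rintro ⟨h, rfl⟩
    rw [smul_def]
    have h1 : act (iota h : Alg) base.val = tw h.val.1 base.val := by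
      rw [val_iota, iH, base_val]
      unfold act tw
      rw [pr1_pair, pr2_pair, mk_apply, mk_apply]
      simp
    rw [h1, toX_tw hb, toX_of_val]

theorem continuous_iota : Continuous iota := by
  have h1 : Continuous (fun h : HH ↦ ((iota h : GG) : Alg)) :=
    contDiff_iH.continuous.comp HH.continuous_val
  exact Units.isOpenEmbedding_val.isInducing.continuous_iff.2 h1

theorem continuous_smul_base : Continuous fun g : GG ↦ g • base := by
  rw [continuous_iff_continuousAt]
  intro g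
  have h1 : Continuous fun g : GG ↦ act (g : Alg) base.val :=
    continuous_act.comp (Units.continuous_val.prodMk continuous_const)
  exact ContinuousAt.comp (f := fun g : GG ↦ act (g : Alg) base.val)
    (continuousAt_toX (act_good g base.good)) h1.continuousAt

theorem isClosedEmbedding_iota : Topology.IsClosedEmbedding iota := by
  refine ⟨⟨⟨?_⟩, ?_⟩, ?_⟩
  · refine le_antisymm (continuous_iota.le_induced) ?_
    refine le_of_nhds_le_nhds fun h ↦ ?_
    rw [nhds_induced, HH.isOpenEmbedding_val.isInducing.nhds_eq_comap]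
    have h1 : Tendsto (fun g : GG ↦ recov (g : Alg)) (𝓝 (iota h)) (𝓝 (HH.val h)) := by
      have h2 : ContinuousAt (fun g : GG ↦ recov (g : Alg)) (iota h) :=
        ContinuousAt.comp (g := recov) (f := fun g : GG ↦ (g : Alg)) (x := iota h)
          (continuousAt_recov h.val) Units.continuous_val.continuousAt
      have h3 : recov ((iota h : GG) : Alg) = h.val := recov_iH h.val
      rw [ContinuousAt, h3] at h2
      exact h2
    have h4 : (fun g : GG ↦ recov (g : Alg)) ∘ iota = HH.val := funext fun h ↦ recov_iH h.val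
    calc comap iota (𝓝 (iota h)) ≤ comap iota (comap (fun g : GG ↦ recov (g : Alg))
          (𝓝 (HH.val h))) := comap_mono h1.le_comap
      _ = comap HH.val (𝓝 (HH.val h)) := by rw [comap_comap, h4]
  · intro h h' hh
    apply HH.ext
    rw [← recov_iH h.val, ← recov_iH h'.val, ← val_iota, ← val_iota, hh]
  · have h1 : Set.range iota = (fun g : GG ↦ g • base) ⁻¹' {base} := by
      ext g
      exact (stab g).symm
    rw [h1]
    exact isClosed_singleton.preimage continuous_smul_base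

theorem iota_closed : IsClosedComplexSubgroup (EG := Alg) (EH := E5) iota where
  holomorphic := by
    intro h
    refine contMDiffAt_of_comp_chart continuous_iota.continuousAt ?_
    exact contDiff_iH.contMDiff.contMDiffAt.comp h HH.contMDiff_val.contMDiffAt
  isClosedEmbedding := isClosedEmbedding_iota
  immersion := by
    rw [(hasMFDerivAt_iota 1).mfderiv]
    intro v w hvw
    have h1 : diH (1 : HH).val v = diH (1 : HH).val w := by
      rw [← fderiv_iH, ← fderiv_iH]; exact hvw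
    have h2 := congrArg pr1 h1
    have h3 := congrArg pr2 h1
    rw [HH.val_one] at h2 h3
    simp only [diH, pr1_pair, pr2_pair] at h2 h3
    obtain ⟨a1, a2, -, a4⟩ := mk_inj h2
    obtain ⟨b1, b2, -, b4⟩ := mk_inj h3
    rw [Complex.exp_zero, one_mul, one_mul] at a1
    exact Prod.ext a1 (Prod.ext (Prod.ext a2 a4) (Prod.ext b2 b4))

/-- The one-parameter family of group elements that gives the developing map. -/
def rhoA (a : ℂ × ℂ × ℂ) : Alg :=
  pair (mk 1 0 a.1 1, mk (Complex.exp a.2.2) 0 (a.2.1 * Complex.exp a.2.2) (Complex.exp a.2.2))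

theorem rhoA_add (a b : ℂ × ℂ × ℂ) : rhoA (a + b) = rhoA a * rhoA b := by
  refine alg_ext ?_ ?_
  · rw [pr1_mul]
    change mk _ _ _ _ = mk _ _ _ _ * mk _ _ _ _
    rw [mk_mul]
    congr 1
    · ring
    · ring
    · change a.1 + b.1 = _; ring
    · ring
  · rw [pr2_mul]
    change mk _ _ _ _ = mk _ _ _ _ * mk _ _ _ _
    rw [mk_mul]
    simp only [Prod.snd_add, Prod.fst_add, Complex.exp_add]
    congr 1 <;> ring

theorem rhoA_zero : rhoA 0 = 1 := by
  refine alg_ext ?_ ?_
  · rw [pr1_one, ← mk_one]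
    change mk _ _ _ _ = mk _ _ _ _
    simp
  · rw [pr2_one, ← mk_one]
    change mk _ _ _ _ = mk _ _ _ _
    simp

/-- The developing homomorphism `ℂ³ → G`. -/
def rho (a : ℂ × ℂ × ℂ) : GG :=
  ⟨rhoA a, rhoA (-a), by rw [← rhoA_add, add_neg_cancel, rhoA_zero], by
    rw [← rhoA_add, neg_add_cancel, rhoA_zero]⟩

theorem val_rho (a : ℂ × ℂ × ℂ) : (rho a : Alg) = rhoA a := rfl

theorem rho_zero : rho 0 = 1 := Units.ext rhoA_zero

theorem rho_add (a b : ℂ × ℂ × ℂ) : rho (a + b) = rho a * rho b := Units.ext (rhoA_add a b)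

theorem contDiff_rhoA : ContDiff ℂ ω rhoA := by
  have h : rhoA = fun a : ℂ × ℂ × ℂ ↦ pair (mkL ((1, 0), (a.1, 1)),
    mkL ((Complex.exp a.2.2, 0), (a.2.1 * Complex.exp a.2.2, Complex.exp a.2.2))) := rfl
  rw [h]
  fun_prop

theorem contMDiff_rho : ContMDiff 𝓘(ℂ, ℂ × ℂ × ℂ) 𝓘(ℂ, Alg) ω rho :=
  ContMDiff.of_comp_isOpenEmbedding Units.isOpenEmbedding_val contDiff_rhoA.contMDiff

theorem act_rho (a : ℂ × ℂ × ℂ) : act (rho a : Alg) base.val = lift a := by
  rw [val_rho, rhoA, base_val]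
  unfold act lift
  rw [pr1_pair, pr2_pair, mk_apply, mk_apply]
  simp

theorem rho_smul_base (a : ℂ × ℂ × ℂ) : rho a • base = pp 1 a := by
  rw [smul_def, act_rho]
  rfl

theorem homogeneous :
    IsHomogeneousSpace (EG := Alg) (EX := ℂ × ℂ × ℂ) iota base where
  holomorphic := contMDiff_smul'
  transitive := transitive
  stabilizer := stab
  submersion := by
    have hf : ContMDiff 𝓘(ℂ, Alg) 𝓘(ℂ, ℂ × ℂ × ℂ) ω (fun g : GG ↦ g • base) :=
      contMDiff_smul'.comp (contMDiff_id.prodMk contMDiff_const)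
    have h1 : MDifferentiableAt 𝓘(ℂ, Alg) 𝓘(ℂ, ℂ × ℂ × ℂ) (fun g : GG ↦ g • base) (rho 0) :=
      hf.contMDiffAt.mdifferentiableAt (by simp)
    have h2 : MDifferentiableAt 𝓘(ℂ, ℂ × ℂ × ℂ) 𝓘(ℂ, Alg) rho 0 :=
      contMDiff_rho.contMDiffAt.mdifferentiableAt (by simp)
    have h3 := mfderiv_comp (0 : ℂ × ℂ × ℂ) h1 h2
    have h4 : (fun g : GG ↦ g • base) ∘ rho = pp 1 := funext rho_smul_base
    rw [h4] at h3
    intro y
    obtain ⟨v, hv⟩ := pp_data.mfderiv_surjective 1 0 (show ℂ × ℂ × ℂ from y)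
    refine ⟨mfderiv 𝓘(ℂ, ℂ × ℂ × ℂ) 𝓘(ℂ, Alg) rho 0 v, ?_⟩
    have h5 := congrArg (fun L ↦ L v) h3
    rw [rho_zero] at h5
    exact h5.symm.trans hv

end Pool.Agent.Lib.MP_69200a_ag.CE
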