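import Mathlib
import Pool.Agent.Lib.MP_69200a_ag.Defs
import Pool.Agent.Lib.MP_69200a_ag.Torus
import Pool.Agent.Lib.MP_69200a_ag.Elliptic
import Pool.Agent.Lib.MP_69200a_ag.FlatExample
import Pool.Agent.Lib.MP_69200a_ag.CE.Frame

/-!
The abelian threefold `E³`, `E = ℂ/(ℤ + ℤ√2 i)`.
-/

open scoped Manifold ContDiff Topology
open Filter Set

noncomputable section

namespace Pool.Agent.Lib.MP_69200a_ag.CE

section Kahler

/-- The standard Hermitian norm squared on `ℂ³`. -/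
def nsq3 (w : ℂ × ℂ × ℂ) : ℝ := ‖w.1‖ ^ 2 + (‖w.2.1‖ ^ 2 + ‖w.2.2‖ ^ 2)

theorem hasFDerivAt_nsq3 (w : ℂ × ℂ × ℂ) :
    HasFDerivAt nsq3 (2 • (innerSL ℝ w.1).comp (ContinuousLinearMap.fst ℝ ℂ (ℂ × ℂ)) +
      (2 • (innerSL ℝ w.2.1).comp ((ContinuousLinearMap.fst ℝ ℂ ℂ).comp
        (ContinuousLinearMap.snd ℝ ℂ (ℂ × ℂ))) +
      2 • (innerSL ℝ w.2.2).comp ((ContinuousLinearMap.snd ℝ ℂ ℂ).comp
        (ContinuousLinearMap.snd ℝ ℂ (ℂ × ℂ))))) w := by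
  have h1 : HasFDerivAt (fun w : ℂ × ℂ × ℂ ↦ ‖w.1‖ ^ 2)
      (2 • (innerSL ℝ w.1).comp (ContinuousLinearMap.fst ℝ ℂ (ℂ × ℂ))) w :=
    (ContinuousLinearMap.fst ℝ ℂ (ℂ × ℂ)).hasFDerivAt.norm_sq
  have h2 : HasFDerivAt (fun w : ℂ × ℂ × ℂ ↦ ‖w.2.1‖ ^ 2)
      (2 • (innerSL ℝ w.2.1).comp ((ContinuousLinearMap.fst ℝ ℂ ℂ).comp
        (ContinuousLinearMap.snd ℝ ℂ (ℂ × ℂ)))) w :=
    ((ContinuousLinearMap.fst ℝ ℂ ℂ).comp
        (ContinuousLinearMap.snd ℝ ℂ (ℂ × ℂ))).hasFDerivAt.norm_sq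
  have h3 : HasFDerivAt (fun w : ℂ × ℂ × ℂ ↦ ‖w.2.2‖ ^ 2)
      (2 • (innerSL ℝ w.2.2).comp ((ContinuousLinearMap.snd ℝ ℂ ℂ).comp
        (ContinuousLinearMap.snd ℝ ℂ (ℂ × ℂ)))) w :=
    ((ContinuousLinearMap.snd ℝ ℂ ℂ).comp
        (ContinuousLinearMap.snd ℝ ℂ (ℂ × ℂ))).hasFDerivAt.norm_sq
  exact h1.add (h2.add h3)

/-- The real inner product. -/
def in3 (u v : ℂ × ℂ × ℂ) : ℝ :=
  inner ℝ u.1 v.1 + (inner ℝ u.2.1 v.2.1 + inner ℝ u.2.2 v.2.2)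

theorem fderiv_nsq3 (w u : ℂ × ℂ × ℂ) : fderiv ℝ nsq3 w u = 2 * in3 w u := by
  rw [(hasFDerivAt_nsq3 w).fderiv]
  simp [in3]
  ring

theorem fderiv_fderiv_nsq3 (z u v : ℂ × ℂ × ℂ) :
    fderiv ℝ (fun w ↦ fderiv ℝ nsq3 w v) z u = 2 * in3 u v := by
  have h : (fun w ↦ fderiv ℝ nsq3 w v) = fun w : ℂ × ℂ × ℂ ↦
      (2 • ((innerSL ℝ v.1).comp (ContinuousLinearMap.fst ℝ ℂ (ℂ × ℂ)) +
        ((innerSL ℝ v.2.1).comp ((ContinuousLinearMap.fst ℝ ℂ ℂ).comp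
        (ContinuousLinearMap.snd ℝ ℂ (ℂ × ℂ))) +
        (innerSL ℝ v.2.2).comp ((ContinuousLinearMap.snd ℝ ℂ ℂ).comp
        (ContinuousLinearMap.snd ℝ ℂ (ℂ × ℂ)))))) w := by
    funext w
    rw [fderiv_nsq3]
    simp [real_inner_comm, in3]
    ring
  rw [h, ContinuousLinearMap.fderiv]
  simp [real_inner_comm, in3]
  ring

theorem nsq3_smul_I (v : ℂ × ℂ × ℂ) : nsq3 (Complex.I • v) = nsq3 v := by
  simp [nsq3]

theorem inner_self_nsq3 (v : ℂ × ℂ × ℂ) : in3 v v = nsq3 v := by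
  simp [nsq3, in3]

theorem nsq3_pos {v : ℂ × ℂ × ℂ} (hv : v ≠ 0) : 0 < nsq3 v := by
  have h1 : 0 ≤ ‖v.1‖ ^ 2 := by positivity
  have h2 : 0 ≤ ‖v.2.1‖ ^ 2 := by positivity
  have h3 : 0 ≤ ‖v.2.2‖ ^ 2 := by positivity
  have h0 : 0 ≤ nsq3 v := by unfold nsq3; linarith
  refine lt_of_le_of_ne h0 fun hcon ↦ hv ?_
  unfold nsq3 at hcon
  have e1 : ‖v.1‖ ^ 2 = 0 := by linarith
  have e2 : ‖v.2.1‖ ^ 2 = 0 := by linarith
  have e3 : ‖v.2.2‖ ^ 2 = 0 := by linarith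
  refine Prod.ext ?_ (Prod.ext ?_ ?_)
  · simpa using e1
  · simpa using e2
  · simpa using e3

/-- If a function looks like `w ↦ |w + c|²` in the chart, its Levi form is `4 |v|²`. -/
theorem levi_aux3 (f : ℂ × ℂ × ℂ → ℝ) (z c : ℂ × ℂ × ℂ)
    (hf : f =ᶠ[𝓝 z] fun w ↦ nsq3 (w + c)) (v : ℂ × ℂ × ℂ) :
    fderiv ℝ (fun w ↦ fderiv ℝ f w v) z v +
      fderiv ℝ (fun w ↦ fderiv ℝ f w (Complex.I • v)) z (Complex.I • v) = 4 * nsq3 v := by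
  have key : ∀ u : ℂ × ℂ × ℂ, fderiv ℝ (fun w ↦ fderiv ℝ f w u) z u = 2 * nsq3 u := by
    intro u
    have h1 : (fun w ↦ fderiv ℝ f w u) =ᶠ[𝓝 z] fun w ↦ fderiv ℝ (fun w ↦ nsq3 (w + c)) w u := by
      filter_upwards [hf.fderiv (𝕜 := ℝ)] with w hw
      rw [hw]
    rw [h1.fderiv_eq]
    have h2 : (fun w ↦ fderiv ℝ (fun w ↦ nsq3 (w + c)) w u) = fun w ↦
        (fun w ↦ fderiv ℝ nsq3 w u) (w + c) := by
      funext w
      rw [fderiv_comp_add_right]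
    rw [h2, fderiv_comp_add_right (f := fun w ↦ fderiv ℝ nsq3 w u), fderiv_fderiv_nsq3,
      inner_self_nsq3]
  rw [key, key, nsq3_smul_I]
  ring

variable {M : Type} [TopologicalSpace M] [AddCommGroup M]
  (π : ℂ × ℂ × ℂ →+ M) (hπ : IsLocalHomeomorph π) (hs : Function.Surjective π)

theorem quot_isKahler3 :
    letI := quotChartedSpace π hπ hs
    IsKahler (ℂ × ℂ × ℂ) M := by
  let := quotChartedSpace π hπ hs
  have : IsManifold 𝓘(ℂ, ℂ × ℂ × ℂ) ω M := quot_isManifold π hπ hs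
  have hlevi : ∀ x y : M, y ∈ (chartAt (ℂ × ℂ × ℂ) x).source → ∀ v : ℂ × ℂ × ℂ,
      leviForm (ℂ × ℂ × ℂ) (fun y ↦ nsq3 (chartAt (ℂ × ℂ × ℂ) x y)) y v = 4 * nsq3 v := by
    intro x y hy v
    have he : chartAt (ℂ × ℂ × ℂ) y ∈ (quotChartedSpace π hπ hs).atlas := chart_mem_atlas _ y
    have he' : chartAt (ℂ × ℂ × ℂ) x ∈ (quotChartedSpace π hπ hs).atlas := chart_mem_atlas _ x
    have hsrc : chartAt (ℂ × ℂ × ℂ) y y ∈
        ((chartAt (ℂ × ℂ × ℂ) y).symm.trans (chartAt (ℂ × ℂ × ℂ) x)).source := by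
      rw [OpenPartialHomeomorph.trans_source]
      refine ⟨(chartAt (ℂ × ℂ × ℂ) y).map_source (mem_chart_source _ y), ?_⟩
      rw [Set.mem_preimage, (chartAt (ℂ × ℂ × ℂ) y).left_inv (mem_chart_source _ y)]
      exact hy
    have hcc := coord_change π hπ hs he he' hsrc
    unfold leviForm
    refine levi_aux3 _ _ (chartAt (ℂ × ℂ × ℂ) x ((chartAt (ℂ × ℂ × ℂ) y).symm
      (chartAt (ℂ × ℂ × ℂ) y y)) - chartAt (ℂ × ℂ × ℂ) y y) ?_ v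
    filter_upwards [hcc] with w hw
    simp only [Function.comp_apply]
    rw [hw]
  refine ⟨fun x ↦ (chartAt (ℂ × ℂ × ℂ) x).source,
    fun x y ↦ nsq3 (chartAt (ℂ × ℂ × ℂ) x y), ?_, ?_, ?_⟩
  · intro x
    refine ⟨(chartAt (ℂ × ℂ × ℂ) x).open_source, mem_chart_source _ x, ?_⟩
    have h1 : ContDiff ℝ ∞ nsq3 := by
      unfold nsq3
      exact (contDiff_fst.norm_sq ℝ).add (((contDiff_fst.comp contDiff_snd).norm_sq ℝ).add
        ((contDiff_snd.comp contDiff_snd).norm_sq ℝ))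
    have h2 : ContMDiffOn 𝓘(ℝ, ℂ × ℂ × ℂ) 𝓘(ℝ, ℂ × ℂ × ℂ) ∞ (chartAt (ℂ × ℂ × ℂ) x)
        (chartAt (ℂ × ℂ × ℂ) x).source := by
      have : IsManifold 𝓘(ℝ, ℂ × ℂ × ℂ) ∞ M := quot_isManifold_real π hπ hs
      exact contMDiffOn_chart
    exact h1.contMDiff.comp_contMDiffOn h2
  · intro x y hy v hv
    rw [hlevi x y hy]
    have := nsq3_pos hv
    linarith
  · intro x x' y hy hy' v
    rw [hlevi x y hy, hlevi x' y hy']

end Kahler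

/-- The abelian threefold `E³`, `E = ℂ/(ℤ + ℤ√2 i)`. -/
def T3 : Type := Ell (√2) × Ell (√2) × Ell (√2)

namespace T3

instance : TopologicalSpace T3 := inferInstanceAs (TopologicalSpace (Ell (√2) × Ell (√2) × Ell (√2)))
instance : AddCommGroup T3 := inferInstanceAs (AddCommGroup (Ell (√2) × Ell (√2) × Ell (√2)))
instance : T2Space T3 := inferInstanceAs (T2Space (Ell (√2) × Ell (√2) × Ell (√2)))
instance : CompactSpace T3 := inferInstanceAs (CompactSpace (Ell (√2) × Ell (√2) × Ell (√2)))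
instance : ConnectedSpace T3 := inferInstanceAs (ConnectedSpace (Ell (√2) × Ell (√2) × Ell (√2)))
instance : SecondCountableTopology T3 :=
  inferInstanceAs (SecondCountableTopology (Ell (√2) × Ell (√2) × Ell (√2)))

/-- The projection `ℂ³ → E³`. -/
def proj : ℂ × ℂ × ℂ →+ T3 :=
  (Ell.proj (√2)).prodMap ((Ell.proj (√2)).prodMap (Ell.proj (√2)))

theorem proj_isLocalHomeomorph : IsLocalHomeomorph proj :=
  Torus.prodMap_isLocalHomeomorph (Ell.proj_isLocalHomeomorph (√2))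
    (Torus.prodMap_isLocalHomeomorph (Ell.proj_isLocalHomeomorph (√2))
      (Ell.proj_isLocalHomeomorph (√2)))

theorem proj_surjective : Function.Surjective proj :=
  Function.Surjective.prodMap (Ell.proj_surjective (√2))
    (Function.Surjective.prodMap (Ell.proj_surjective (√2)) (Ell.proj_surjective (√2)))

instance : ChartedSpace (ℂ × ℂ × ℂ) T3 :=
  quotChartedSpace proj proj_isLocalHomeomorph proj_surjective

instance : IsManifold 𝓘(ℂ, ℂ × ℂ × ℂ) ω T3 :=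
  quot_isManifold proj proj_isLocalHomeomorph proj_surjective

theorem isKahler : IsKahler (ℂ × ℂ × ℂ) T3 :=
  quot_isKahler3 proj proj_isLocalHomeomorph proj_surjective

theorem contMDiff_proj : ContMDiff 𝓘(ℂ, ℂ × ℂ × ℂ) 𝓘(ℂ, ℂ × ℂ × ℂ) ω proj :=
  proj_contMDiff proj proj_isLocalHomeomorph proj_surjective

theorem proj_chartAt (x : T3) {y : T3} (hy : y ∈ (chartAt (ℂ × ℂ × ℂ) x).source) :
    proj (chartAt (ℂ × ℂ × ℂ) x y) = y :=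
  proj_chart proj proj_isLocalHomeomorph proj_surjective (chart_mem_atlas (ℂ × ℂ × ℂ) x) hy

theorem contMDiffAt_chart (x : T3) :
    ContMDiffAt 𝓘(ℂ, ℂ × ℂ × ℂ) 𝓘(ℂ, ℂ × ℂ × ℂ) ω (chartAt (ℂ × ℂ × ℂ) x : T3 → ℂ × ℂ × ℂ) x :=
  contMDiffOn_chart.contMDiffAt
    ((chartAt (ℂ × ℂ × ℂ) x).open_source.mem_nhds (mem_chart_source (ℂ × ℂ × ℂ) x))

/-- Coordinate changes are translations. -/
theorem change (x y : T3) (hy : y ∈ (chartAt (ℂ × ℂ × ℂ) x).source) :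
    ∀ᶠ w in 𝓝 (chartAt (ℂ × ℂ × ℂ) y y), chartAt (ℂ × ℂ × ℂ) x ((chartAt (ℂ × ℂ × ℂ) y).symm w) =
      w + (chartAt (ℂ × ℂ × ℂ) x y - chartAt (ℂ × ℂ × ℂ) y y) := by
  have he : chartAt (ℂ × ℂ × ℂ) y ∈
      (quotChartedSpace proj proj_isLocalHomeomorph proj_surjective).atlas := chart_mem_atlas _ y
  have he' : chartAt (ℂ × ℂ × ℂ) x ∈
      (quotChartedSpace proj proj_isLocalHomeomorph proj_surjective).atlas := chart_mem_atlas _ x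
  have hsrc : chartAt (ℂ × ℂ × ℂ) y y ∈
      ((chartAt (ℂ × ℂ × ℂ) y).symm.trans (chartAt (ℂ × ℂ × ℂ) x)).source := by
    rw [OpenPartialHomeomorph.trans_source]
    refine ⟨(chartAt (ℂ × ℂ × ℂ) y).map_source (mem_chart_source _ y), ?_⟩
    rw [Set.mem_preimage, (chartAt (ℂ × ℂ × ℂ) y).left_inv (mem_chart_source _ y)]
    exact hy
  have hcc := coord_change proj proj_isLocalHomeomorph proj_surjective he he' hsrc
  rw [(chartAt (ℂ × ℂ × ℂ) y).left_inv (mem_chart_source _ y)] at hcc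
  exact hcc

end T3

end Pool.Agent.Lib.MP_69200a_ag.CE
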