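import Mathlib
import Pool.Agent.Lib.MP_69200a_ag.CE.Stab
import Pool.Agent.Lib.MP_69200a_ag.CE.Torus3

/-!
The flat Cartan geometry on the abelian threefold `E³` modelled on the Calabi-Eckmann manifold.
-/

open scoped Manifold ContDiff Topology
open Filter Set

noncomputable section

namespace Pool.Agent.Lib.MP_69200a_ag.CE

/-- The coordinate space `ℂ³`. -/
abbrev C3 : Type := ℂ × ℂ × ℂ

/-- The total space of the trivial principal bundle. -/
def PP : Type := T3 × HH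

instance : TopologicalSpace PP := inferInstanceAs (TopologicalSpace (T3 × HH))
instance : T2Space PP := inferInstanceAs (T2Space (T3 × HH))
instance : SecondCountableTopology PP := inferInstanceAs (SecondCountableTopology (T3 × HH))
instance : ChartedSpace (C3 × E5) PP := prodCharted (V := C3) (N := T3) (V' := E5) (N' := HH)
instance : IsManifold 𝓘(ℂ, C3 × E5) ω PP := prod_isManifold (V := C3) (N := T3) (V' := E5) (N' := HH)

theorem pp_fst : ContMDiff 𝓘(ℂ, C3 × E5) 𝓘(ℂ, C3) ω (fun p : PP ↦ p.1) :=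
  contMDiff_fst_prod (V := C3) (N := T3) (V' := E5) (N' := HH)

theorem pp_snd : ContMDiff 𝓘(ℂ, C3 × E5) 𝓘(ℂ, E5) ω (fun p : PP ↦ p.2) :=
  contMDiff_snd_prod (V := C3) (N := T3) (V' := E5) (N' := HH)

theorem pp_chart (p q : PP) : chartAt (C3 × E5) p q = (chartAt C3 p.1 q.1, q.2.val) := rfl

theorem pp_chart_symm (p : PP) (w : C3 × E5) :
    (chartAt (C3 × E5) p).symm w = ((chartAt C3 p.1).symm w.1, (chartAt E5 p.2).symm w.2) := rfl

/-- The linear map `σ : ℂ³ → 𝔤`. -/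
def sg : C3 →L[ℂ] Alg :=
  pair.comp ((mkL.comp (ContinuousLinearMap.prod
      (ContinuousLinearMap.prod 0 0)
      (ContinuousLinearMap.prod (ContinuousLinearMap.fst ℂ ℂ (ℂ × ℂ)) 0))).prod
    (mkL.comp (ContinuousLinearMap.prod
      (ContinuousLinearMap.prod ((ContinuousLinearMap.snd ℂ ℂ ℂ).comp
        (ContinuousLinearMap.snd ℂ ℂ (ℂ × ℂ))) 0)
      (ContinuousLinearMap.prod ((ContinuousLinearMap.fst ℂ ℂ ℂ).comp
        (ContinuousLinearMap.snd ℂ ℂ (ℂ × ℂ))) ((ContinuousLinearMap.snd ℂ ℂ ℂ).comp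
        (ContinuousLinearMap.snd ℂ ℂ (ℂ × ℂ)))))))

theorem sg_apply (v : C3) : sg v = pair (mk 0 0 v.1 0, mk v.2.2 0 v.2.1 v.2.2) := rfl

/-- The Cartan connection. -/
def theta (p : PP) : TangentSpace 𝓘(ℂ, C3 × E5) p →L[ℂ] GroupLieAlgebra 𝓘(ℂ, Alg) GG :=
  ((ContinuousLinearMap.mul ℂ Alg (((iota p.2)⁻¹ : GG) : Alg)).comp
    ((((ContinuousLinearMap.mul ℂ Alg).flip (iH p.2.val)).comp
      (sg.comp (ContinuousLinearMap.fst ℂ C3 E5))) +
      (fderiv ℂ iH p.2.val).comp (ContinuousLinearMap.snd ℂ C3 E5)) : (C3 × E5) →L[ℂ] Alg)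

theorem theta_apply (p : PP) (v : C3 × E5) : theta p v =
    (((iota p.2)⁻¹ : GG) : Alg) * (sg v.1 * iH p.2.val + fderiv ℂ iH p.2.val v.2) := rfl

theorem inv_iota_val (h : HH) : (((iota h)⁻¹ : GG) : Alg) = iH (invE h.val) := by
  rw [← map_inv]; rfl

theorem iH_inv_mul (h : HH) : (((iota h)⁻¹ : GG) : Alg) * iH h.val = 1 :=
  Units.inv_mul (iota h)

theorem iH_mul_inv (h : HH) : iH h.val * (((iota h)⁻¹ : GG) : Alg) = 1 :=
  Units.mul_inv (iota h)

theorem differentiable_iH (h : E5) : DifferentiableAt ℂ iH h :=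
  contDiff_iH.contDiffAt.differentiableAt (by simp)

theorem contDiff_mulE_left (h : E5) : ContDiff ℂ ω (fun w ↦ mulE w h) :=
  HH.contDiff_mulE.comp (contDiff_id.prodMk contDiff_const)

theorem contDiff_mulE_right (h : E5) : ContDiff ℂ ω (fun w ↦ mulE h w) :=
  HH.contDiff_mulE.comp (contDiff_const.prodMk contDiff_id)

theorem chain_right (h k w : E5) :
    fderiv ℂ iH (mulE h k) (fderiv ℂ (fun x ↦ mulE x k) h w) = fderiv ℂ iH h w * iH k := by
  have h1 : HasFDerivAt (fun x ↦ mulE x k) (fderiv ℂ (fun x ↦ mulE x k) h) h :=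
    ((contDiff_mulE_left k).contDiffAt.differentiableAt (by simp)).hasFDerivAt
  have h2 : HasFDerivAt iH (fderiv ℂ iH (mulE h k)) (mulE h k) :=
    (differentiable_iH _).hasFDerivAt
  have h3 := h2.comp h h1
  have h4 : iH ∘ (fun x ↦ mulE x k) = fun x ↦ iH x * iH k := funext fun x ↦ iH_mulE x k
  rw [h4] at h3
  have h5 : HasFDerivAt (fun x ↦ iH x * iH k)
      (((ContinuousLinearMap.mul ℂ Alg).flip (iH k)).comp (fderiv ℂ iH h)) h :=
    ((ContinuousLinearMap.mul ℂ Alg).flip (iH k)).hasFDerivAt.comp h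
      (differentiable_iH h).hasFDerivAt
  have h6 := h3.unique h5
  exact congrArg (fun L : E5 →L[ℂ] Alg ↦ L w) h6

theorem chain_left (h k w : E5) :
    fderiv ℂ iH (mulE h k) (fderiv ℂ (fun x ↦ mulE h x) k w) = iH h * fderiv ℂ iH k w := by
  have h1 : HasFDerivAt (fun x ↦ mulE h x) (fderiv ℂ (fun x ↦ mulE h x) k) k :=
    ((contDiff_mulE_right h).contDiffAt.differentiableAt (by simp)).hasFDerivAt
  have h2 : HasFDerivAt iH (fderiv ℂ iH (mulE h k)) (mulE h k) :=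
    (differentiable_iH _).hasFDerivAt
  have h3 := h2.comp k h1
  have h4 : iH ∘ (fun x ↦ mulE h x) = fun x ↦ iH h * iH x := funext fun x ↦ iH_mulE h x
  rw [h4] at h3
  have h5 : HasFDerivAt (fun x ↦ iH h * iH x)
      ((ContinuousLinearMap.mul ℂ Alg (iH h)).comp (fderiv ℂ iH k)) k :=
    (ContinuousLinearMap.mul ℂ Alg (iH h)).hasFDerivAt.comp k
      (differentiable_iH k).hasFDerivAt
  have h6 := h3.unique h5
  exact congrArg (fun L : E5 →L[ℂ] Alg ↦ L w) h6

theorem continuous_mul_GG (g g' : GG) : Continuous (fun x : GG ↦ g * x * g') := by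
  fun_prop

/-- The adjoint action is conjugation. -/
theorem Ad_apply (g : GG) (v : Alg) : Ad Alg g v = (g : Alg) * v * ((g⁻¹ : GG) : Alg) := by
  have h : HasMFDerivAt 𝓘(ℂ, Alg) 𝓘(ℂ, Alg) (fun x : GG ↦ g * x * g⁻¹) 1
      (((ContinuousLinearMap.mul ℂ Alg).flip ((g⁻¹ : GG) : Alg)).comp
        (ContinuousLinearMap.mul ℂ Alg (g : Alg)) : Alg →L[ℂ] Alg) := by
    refine hasMFDerivAt_of_rep (continuous_mul_GG g g⁻¹).continuousAt
      (F := fun a : Alg ↦ (g : Alg) * a * ((g⁻¹ : GG) : Alg))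
      (((ContinuousLinearMap.mul ℂ Alg).flip ((g⁻¹ : GG) : Alg)).comp
        (ContinuousLinearMap.mul ℂ Alg (g : Alg))).hasFDerivAt ?_
    exact Eventually.of_forall fun y ↦ rfl
  exact congrArg (fun L : Alg →L[ℂ] Alg ↦ L v) h.mfderiv

/-- The Maurer-Cartan form. -/
theorem mc_apply (g : GG) (v : Alg) :
    maurerCartan Alg g (show TangentSpace 𝓘(ℂ, Alg) g from v) = ((g⁻¹ : GG) : Alg) * v := by
  have h : HasMFDerivAt 𝓘(ℂ, Alg) 𝓘(ℂ, Alg) (fun x : GG ↦ g⁻¹ * x) g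
      (ContinuousLinearMap.mul ℂ Alg ((g⁻¹ : GG) : Alg) : Alg →L[ℂ] Alg) := by
    refine hasMFDerivAt_of_rep (by fun_prop)
      (F := fun a : Alg ↦ ((g⁻¹ : GG) : Alg) * a)
      (ContinuousLinearMap.mul ℂ Alg ((g⁻¹ : GG) : Alg)).hasFDerivAt ?_
    exact Eventually.of_forall fun y ↦ rfl
  exact congrArg (fun L : Alg →L[ℂ] Alg ↦ L v) h.mfderiv

/-- The right action. -/
def actP (p : PP) (h : HH) : PP := (p.1, p.2 * h)

theorem principal :
    IsPrincipalBundle (EM := C3) (EP := C3 × E5) (EH := E5) (fun p : PP ↦ p.1) actP where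
  holomorphic_proj := pp_fst
  holomorphic_act := by
    intro q
    have h1 : ContMDiffAt (𝓘(ℂ, C3 × E5).prod 𝓘(ℂ, E5)) 𝓘(ℂ, C3) ω
        (fun q : PP × HH ↦ q.1.1) q := pp_fst.contMDiffAt.comp q contMDiffAt_fst
    have h2 : ContMDiffAt (𝓘(ℂ, C3 × E5).prod 𝓘(ℂ, E5)) 𝓘(ℂ, E5) ω
        (fun q : PP × HH ↦ q.1.2) q := pp_snd.contMDiffAt.comp q contMDiffAt_fst
    have h3 : ContMDiffAt (𝓘(ℂ, C3 × E5).prod 𝓘(ℂ, E5)) 𝓘(ℂ, E5) ω
        (fun q : PP × HH ↦ q.1.2 * q.2) q := h2.mul contMDiffAt_snd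
    exact contMDiffAt_prodMk h1 h3
  act_one p := by
    change (p.1, p.2 * 1) = p
    rw [mul_one]
    rfl
  act_mul p h h' := by
    change (p.1, p.2 * (h * h')) = (p.1, p.2 * h * h')
    rw [mul_assoc]
  proj_act p h := rfl
  locally_trivial x := by
    refine ⟨Set.univ, isOpen_univ, Set.mem_univ _, fun p ↦ p, fun p ↦ p, ?_, ?_, ?_, ?_, ?_⟩
    · intro p _
      refine ContMDiffAt.contMDiffWithinAt ?_
      exact contMDiffAt_prodMk (N := T3) (N' := HH) contMDiffAt_fst contMDiffAt_snd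
    · intro p _
      refine ContMDiffAt.contMDiffWithinAt ?_
      exact pp_fst.contMDiffAt.prodMk pp_snd.contMDiffAt
    · intro y _ h
      exact ⟨rfl, rfl⟩
    · intro y _ h h'
      rfl
    · intro p _
      exact ⟨rfl, rfl⟩

theorem hh_change (x y : HH) :
    ∀ᶠ w in 𝓝 y.val, chartAt E5 x ((chartAt E5 y).symm w) = w := by
  have h1 : y.val ∈ (chartAt E5 y).target := (chartAt E5 y).map_source (mem_chart_source E5 y)
  filter_upwards [(chartAt E5 y).open_target.mem_nhds h1] with w hw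
  exact (chartAt E5 y).right_inv hw

theorem pp_change (x y : PP) (hy : y ∈ (chartAt (C3 × E5) x).source) :
    ∀ᶠ w in 𝓝 (chartAt (C3 × E5) y y), chartAt (C3 × E5) x ((chartAt (C3 × E5) y).symm w) =
      w + (chartAt C3 x.1 y.1 - chartAt C3 y.1 y.1, 0) := by
  have hy1 : y.1 ∈ (chartAt C3 x.1).source := hy.1
  have h1 := T3.change x.1 y.1 hy1
  have h2 := hh_change x.2 y.2
  have h3 : Tendsto (fun w : C3 × E5 ↦ w.1) (𝓝 (chartAt (C3 × E5) y y))
      (𝓝 (chartAt C3 y.1 y.1)) := continuous_fst.tendsto (chartAt (C3 × E5) y y)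
  have h4 : Tendsto (fun w : C3 × E5 ↦ w.2) (𝓝 (chartAt (C3 × E5) y y))
      (𝓝 y.2.val) := continuous_snd.tendsto (chartAt (C3 × E5) y y)
  filter_upwards [h3.eventually h1, h4.eventually h2] with w hw1 hw2
  rw [pp_chart_symm, pp_chart]
  refine Prod.ext hw1 ?_
  rw [Prod.snd_add, add_zero]
  exact hw2

theorem pp_frame (x y : PP) (hy : y ∈ (chartAt (C3 × E5) x).source) :
    HasFDerivAt (fun w ↦ chartAt (C3 × E5) x ((chartAt (C3 × E5) y).symm w))
      (ContinuousLinearMap.id ℂ (C3 × E5)) (chartAt (C3 × E5) y y) :=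
  ((hasFDerivAt_id _).add_const _).congr_of_eventuallyEq (pp_change x y hy)

theorem theta_holomorphic : ContMDiff (M' := Alg) 𝓘(ℂ, C3 × E5).tangent 𝓘(ℂ, Alg) ω
    (fun v : TangentBundle 𝓘(ℂ, C3 × E5) PP ↦ theta v.proj v.snd) := by
  have h1 : ContMDiff 𝓘(ℂ, C3 × E5).tangent 𝓘(ℂ, C3 × E5) ω
      (fun v : TangentBundle 𝓘(ℂ, C3 × E5) PP ↦ v.proj) := Bundle.contMDiff_proj _
  have h2 : ContMDiff 𝓘(ℂ, C3 × E5).tangent 𝓘(ℂ, E5) ω
      (fun v : TangentBundle 𝓘(ℂ, C3 × E5) PP ↦ v.proj.2.val) :=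
    HH.contMDiff_val.comp (pp_snd.comp h1)
  have h3 : ContMDiff (M' := C3 × E5) 𝓘(ℂ, C3 × E5).tangent 𝓘(ℂ, C3 × E5) ω
      (fun v : TangentBundle 𝓘(ℂ, C3 × E5) PP ↦ v.snd) := contMDiff_snd_of_frame pp_frame
  intro v₀
  have h4 : ContMDiffAt 𝓘(ℂ, C3 × E5).tangent 𝓘(ℂ, E5 × (C3 × E5)) ω
      (fun v : TangentBundle 𝓘(ℂ, C3 × E5) PP ↦ (v.proj.2.val, (v.snd : C3 × E5))) v₀ :=
    (h2 v₀).prodMk_space (h3 v₀)
  obtain ⟨G, hG⟩ : ∃ G : E5 × (C3 × E5) → Alg, G = fun q ↦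
    iH (invE q.1) * (sg q.2.1 * iH q.1 + diH q.1 q.2.2) := ⟨_, rfl⟩
  have h5 : (fun v : TangentBundle 𝓘(ℂ, C3 × E5) PP ↦ (theta v.proj v.snd : Alg)) =
      G ∘ (fun v : TangentBundle 𝓘(ℂ, C3 × E5) PP ↦ (v.proj.2.val, (v.snd : C3 × E5))) := by
    funext v
    rw [hG]
    change theta v.proj v.snd = _
    rw [theta_apply, inv_iota_val, fderiv_iH]
    rfl
  rw [h5]
  have h6 : ContDiffAt ℂ ω G (v₀.proj.2.val, (v₀.snd : C3 × E5)) := by
    have a1 : ContDiffAt ℂ ω (fun q : E5 × (C3 × E5) ↦ iH (invE q.1))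
        (v₀.proj.2.val, (v₀.snd : C3 × E5)) := by
      have b1 : ContDiffAt ℂ ω invE v₀.proj.2.val := by
        have h3 := v₀.proj.2.prop.1
        have h4 := v₀.proj.2.prop.2
        unfold invE
        have e1 : ContDiffAt ℂ ω (fun h : E5 ↦ h.1) v₀.proj.2.val := by fun_prop
        have e2 : ContDiffAt ℂ ω (fun h : E5 ↦ h.2.1.1) v₀.proj.2.val := by fun_prop
        have e3 : ContDiffAt ℂ ω (fun h : E5 ↦ h.2.1.2) v₀.proj.2.val := by fun_prop
        have e4 : ContDiffAt ℂ ω (fun h : E5 ↦ h.2.2.1) v₀.proj.2.val := by fun_prop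
        have e5 : ContDiffAt ℂ ω (fun h : E5 ↦ h.2.2.2) v₀.proj.2.val := by fun_prop
        refine e1.neg.prodMk ((((e1.neg.cexp.mul e2).div e3 h3).neg.prodMk (e3.inv h3)).prodMk
          (((((contDiffAt_const.mul e1.neg).cexp).mul e4).div e5 h4).neg.prodMk (e5.inv h4)))
      have b2 : ContDiffAt ℂ ω (fun q : E5 × (C3 × E5) ↦ q.1)
        (v₀.proj.2.val, (v₀.snd : C3 × E5)) := contDiffAt_fst
      exact contDiff_iH.contDiffAt.comp _ (ContDiffAt.comp (g := invE) _ b1 b2)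
    have a2 : ContDiff ℂ ω (fun q : E5 × (C3 × E5) ↦ sg q.2.1) := by fun_prop
    have a3 : ContDiff ℂ ω (fun q : E5 × (C3 × E5) ↦ iH q.1) := contDiff_iH.comp contDiff_fst
    have a4 : ContDiff ℂ ω (fun q : E5 × (C3 × E5) ↦ diH q.1 q.2.2) := by
      have b : (fun q : E5 × (C3 × E5) ↦ diH q.1 q.2.2) = fun q ↦
        pair (mkL ((Complex.exp q.1.1 * q.2.2.1, q.2.2.2.1.1), (0, q.2.2.2.1.2)),
          mkL ((Complex.exp (Complex.I * q.1.1) * (Complex.I * q.2.2.1), q.2.2.2.2.1),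
            (0, q.2.2.2.2.2))) := rfl
      rw [b]
      fun_prop
    rw [hG]
    exact a1.mul ((a2.contDiffAt.mul a3.contDiffAt).add a4.contDiffAt)
  exact h6.contMDiffAt.comp v₀ h4

theorem theta_bijective (p : PP) : Function.Bijective (theta p) := by
  obtain ⟨m, h⟩ := p
  have hcancel : ∀ x y : Alg, (((iota h)⁻¹ : GG) : Alg) * x = y ↔ x = iH h.val * y := by
    intro x y
    constructor
    · intro hx
      rw [← hx, ← mul_assoc, iH_mul_inv, one_mul]
    · intro hx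
      rw [hx, ← mul_assoc, iH_inv_mul, one_mul]
  have hexp1 := Complex.exp_ne_zero h.val.1
  have hexp2 := Complex.exp_ne_zero (Complex.I * h.val.1)
  have hform : ∀ v : C3 × E5, sg v.1 * iH h.val + fderiv ℂ iH h.val v.2 =
      pair (mk (Complex.exp h.val.1 * v.2.1) v.2.2.1.1 (v.1.1 * Complex.exp h.val.1)
          (v.1.1 * h.val.2.1.1 + v.2.2.1.2),
        mk (v.1.2.2 * Complex.exp (Complex.I * h.val.1) +
            Complex.exp (Complex.I * h.val.1) * (Complex.I * v.2.1))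
          (v.1.2.2 * h.val.2.2.1 + v.2.2.2.1) (v.1.2.1 * Complex.exp (Complex.I * h.val.1))
          (v.1.2.1 * h.val.2.2.1 + v.1.2.2 * h.val.2.2.2 + v.2.2.2.2)) := by
    intro v
    have hadd : ∀ a b c d a' b' c' d' : ℂ, mk a b c d + mk a' b' c' d' =
        mk (a + a') (b + b') (c + c') (d + d') := fun a b c d a' b' c' d' ↦
      (map_add mkL ((a, b), (c, d)) ((a', b'), (c', d'))).symm
    rw [fderiv_iH, sg_apply]
    refine alg_ext ?_ ?_
    · rw [map_add, pr1_mul]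
      change mk _ _ _ _ * mk _ _ _ _ + mk _ _ _ _ = mk _ _ _ _
      rw [mk_mul, hadd]
      congr 1 <;> ring
    · rw [map_add, pr2_mul]
      change mk _ _ _ _ * mk _ _ _ _ + mk _ _ _ _ = mk _ _ _ _
      rw [mk_mul, hadd]
      congr 1 <;> ring
  constructor
  · rw [injective_iff_map_eq_zero]
    intro v hv
    have h1 : sg v.1 * iH h.val + fderiv ℂ iH h.val v.2 = 0 := by
      have hv' : (((iota h)⁻¹ : GG) : Alg) * (sg v.1 * iH h.val + fderiv ℂ iH h.val v.2) =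
        (0 : Alg) := (theta_apply (m, h) v).symm.trans hv
      have h2 := (hcancel _ _).1 hv'
      rw [mul_zero] at h2
      exact h2
    rw [hform] at h1
    have h2 : mk (Complex.exp h.val.1 * v.2.1) v.2.2.1.1 (v.1.1 * Complex.exp h.val.1)
          (v.1.1 * h.val.2.1.1 + v.2.2.1.2) = mk 0 0 0 0 := by
      have := congrArg pr1 h1
      rw [pr1_pair, map_zero] at this
      refine this.trans ?_
      exact (map_zero mkL).symm
    have h3 : mk (v.1.2.2 * Complex.exp (Complex.I * h.val.1) +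
            Complex.exp (Complex.I * h.val.1) * (Complex.I * v.2.1))
          (v.1.2.2 * h.val.2.2.1 + v.2.2.2.1) (v.1.2.1 * Complex.exp (Complex.I * h.val.1))
          (v.1.2.1 * h.val.2.2.1 + v.1.2.2 * h.val.2.2.2 + v.2.2.2.2) = mk 0 0 0 0 := by
      have := congrArg pr2 h1
      rw [pr2_pair, map_zero] at this
      refine this.trans ?_
      exact (map_zero mkL).symm
    obtain ⟨a1, a2, a3, a4⟩ := mk_inj h2
    obtain ⟨b1, b2, b3, b4⟩ := mk_inj h3
    have c1 : v.2.1 = 0 := (mul_eq_zero.1 a1).resolve_left hexp1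
    have c2 : v.1.1 = 0 := (mul_eq_zero.1 a3).resolve_right hexp1
    rw [c2, zero_mul, zero_add] at a4
    rw [c1, mul_zero, mul_zero, add_zero] at b1
    have c3 : v.1.2.2 = 0 := (mul_eq_zero.1 b1).resolve_right hexp2
    have c4 : v.1.2.1 = 0 := (mul_eq_zero.1 b3).resolve_right hexp2
    rw [c3, zero_mul, zero_add] at b2
    rw [c3, c4, zero_mul, zero_mul, zero_add, zero_add] at b4
    exact Prod.ext (Prod.ext c2 (Prod.ext c4 c3))
      (Prod.ext c1 (Prod.ext (Prod.ext a2 a4) (Prod.ext b2 b4)))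
  · intro y
    obtain ⟨y', hy'⟩ : ∃ y' : Alg, y' = y := ⟨y, rfl⟩
    obtain ⟨Y, hY⟩ : ∃ Y : Alg, Y = iH h.val * y' := ⟨_, rfl⟩
    obtain ⟨A, hA⟩ : ∃ A, A = pr1 Y := ⟨_, rfl⟩
    obtain ⟨B, hB⟩ : ∃ B, B = pr2 Y := ⟨_, rfl⟩
    refine ⟨(((A (1, 0)).2 / Complex.exp h.val.1,
      (B (1, 0)).2 / Complex.exp (Complex.I * h.val.1),
      (B (1, 0)).1 / Complex.exp (Complex.I * h.val.1) -
        Complex.I * ((A (1, 0)).1 / Complex.exp h.val.1)),
      ((A (1, 0)).1 / Complex.exp h.val.1,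
        ((A (0, 1)).1, (A (0, 1)).2 - (A (1, 0)).2 / Complex.exp h.val.1 * h.val.2.1.1),
        ((B (0, 1)).1 - ((B (1, 0)).1 / Complex.exp (Complex.I * h.val.1) -
            Complex.I * ((A (1, 0)).1 / Complex.exp h.val.1)) * h.val.2.2.1,
          (B (0, 1)).2 - (B (1, 0)).2 / Complex.exp (Complex.I * h.val.1) * h.val.2.2.1 -
            ((B (1, 0)).1 / Complex.exp (Complex.I * h.val.1) -
            Complex.I * ((A (1, 0)).1 / Complex.exp h.val.1)) * h.val.2.2.2))), ?_⟩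
    refine (theta_apply (m, h) _).trans ?_
    rw [← hy']
    refine (hcancel _ _).2 ?_
    rw [hform, ← hY]
    refine alg_ext ?_ ?_
    · rw [pr1_pair, ← hA]
      conv_rhs => rw [eq_mk A]
      change mk _ _ _ _ = mk _ _ _ _
      congr 1
      · field_simp
      · field_simp
      · ring
    · rw [pr2_pair, ← hB]
      conv_rhs => rw [eq_mk B]
      change mk _ _ _ _ = mk _ _ _ _
      congr 1
      · field_simp; ring
      · ring
      · field_simp
      · ring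

theorem theta_cartan : IsCartanConnection (EP := C3 × E5) (EH := E5) (EG := Alg) iota actP theta where
  holomorphic := theta_holomorphic
  bijective := theta_bijective
  equivariant p h v := by
    have hcont : Continuous (fun q : PP ↦ actP q h) := by
      have h1 : Continuous (fun q : T3 × HH ↦ (q.1, q.2 * h)) :=
        continuous_fst.prodMk (continuous_snd.mul continuous_const)
      exact h1
    have hd : HasMFDerivAt 𝓘(ℂ, C3 × E5) 𝓘(ℂ, C3 × E5) (fun q : PP ↦ actP q h) p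
        ((ContinuousLinearMap.id ℂ C3).prodMap (fderiv ℂ (fun x ↦ mulE x h.val) p.2.val) :
          (C3 × E5) →L[ℂ] C3 × E5) := by
      refine hasMFDerivAt_of_rep hcont.continuousAt
        (F := Prod.map (fun a : C3 ↦ a) (fun x : E5 ↦ mulE x h.val)) ?_ ?_
      · exact HasFDerivAt.prodMap (p := (chartAt C3 p.1 p.1, p.2.val)) (hasFDerivAt_id _)
          ((contDiff_mulE_left h.val).contDiffAt.differentiableAt (by simp)).hasFDerivAt
      · exact Eventually.of_forall fun y ↦ rfl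
    obtain ⟨v1, hv1⟩ : ∃ v1 : C3 × E5, v1 = v := ⟨_, rfl⟩
    have h1 : (mfderiv 𝓘(ℂ, C3 × E5) 𝓘(ℂ, C3 × E5) (fun q : PP ↦ actP q h) p v : C3 × E5) =
        (v1.1, fderiv ℂ (fun x ↦ mulE x h.val) p.2.val v1.2) := by
      rw [hd.mfderiv, hv1]; rfl
    refine (congrArg (theta (actP p h)) h1).trans ?_
    rw [Ad_apply, inv_inv, ← hv1]
    refine (theta_apply (actP p h) _).trans ?_
    have h2 : (theta p v1 : Alg) = _ := theta_apply p v1
    rw [h2]
    change (((iota (p.2 * h))⁻¹ : GG) : Alg) * (sg v1.1 * iH (mulE p.2.val h.val) +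
      fderiv ℂ iH (mulE p.2.val h.val) (fderiv ℂ (fun x ↦ mulE x h.val) p.2.val v1.2)) = _
    rw [chain_right, iH_mulE, map_mul, mul_inv_rev, Units.val_mul, val_iota h]
    noncomm_ring
  vertical p A := by
    have hcont : Continuous (fun h : HH ↦ actP p h) := by
      have h1 : Continuous (fun h : HH ↦ (p.1, p.2 * h)) :=
        continuous_const.prodMk (continuous_const.mul continuous_id)
      exact h1
    have hd : HasMFDerivAt 𝓘(ℂ, E5) 𝓘(ℂ, C3 × E5) (fun h : HH ↦ actP p h) 1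
        (ContinuousLinearMap.prod (0 : E5 →L[ℂ] C3)
          (fderiv ℂ (fun x ↦ mulE p.2.val x) (1 : HH).val) : E5 →L[ℂ] C3 × E5) := by
      refine hasMFDerivAt_of_rep hcont.continuousAt
        (F := fun x : E5 ↦ ((chartAt C3 p.1 p.1 : C3), mulE p.2.val x)) ?_ ?_
      · exact (hasFDerivAt_const _ _).prodMk
          ((contDiff_mulE_right p.2.val).contDiffAt.differentiableAt (by simp)).hasFDerivAt
      · exact Eventually.of_forall fun y ↦ rfl
    have h1 : (mfderiv 𝓘(ℂ, E5) 𝓘(ℂ, C3 × E5) (fun h : HH ↦ actP p h) 1 A : C3 × E5) =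
        ((0 : C3), fderiv ℂ (fun x ↦ mulE p.2.val x) (1 : HH).val A) := by
      rw [hd.mfderiv]; rfl
    refine (congrArg (theta (actP p 1)) h1).trans ?_
    rw [(hasMFDerivAt_iota 1).mfderiv]
    refine (theta_apply (actP p 1) _).trans ?_
    change (((iota (p.2 * 1))⁻¹ : GG) : Alg) * (sg 0 * iH (mulE p.2.val (1 : HH).val) +
      fderiv ℂ iH (mulE p.2.val (1 : HH).val)
        (fderiv ℂ (fun x ↦ mulE p.2.val x) (1 : HH).val A)) = _
    rw [chain_left, map_zero, zero_mul, zero_add, mul_one, ← mul_assoc, iH_inv_mul, one_mul]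
    rfl

theorem hasFDerivAt_rhoA (a : C3) : HasFDerivAt rhoA
    ((ContinuousLinearMap.mul ℂ Alg (rhoA a)).comp sg) a := by
  have h0 : HasFDerivAt rhoA sg 0 := by
    have h1 : HasFDerivAt (fun a : C3 ↦ a.1) (ContinuousLinearMap.fst ℂ ℂ (ℂ × ℂ)) 0 :=
      hasFDerivAt_fst
    have h2 : HasFDerivAt (fun a : C3 ↦ a.2) (ContinuousLinearMap.snd ℂ ℂ (ℂ × ℂ)) 0 :=
      hasFDerivAt_snd
    have h21 : HasFDerivAt (fun a : C3 ↦ a.2.1) _ 0 := h2.fst
    have h22 : HasFDerivAt (fun a : C3 ↦ a.2.2) _ 0 := h2.snd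
    have hA : HasFDerivAt (fun a : C3 ↦ mkL ((1, 0), (a.1, 1))) _ 0 :=
      mkL.hasFDerivAt.comp 0 (((hasFDerivAt_const (1 : ℂ) (0 : C3)).prodMk
        (hasFDerivAt_const (0 : ℂ) 0)).prodMk (h1.prodMk (hasFDerivAt_const (1 : ℂ) 0)))
    have hB : HasFDerivAt (fun a : C3 ↦
        mkL ((Complex.exp a.2.2, 0), (a.2.1 * Complex.exp a.2.2, Complex.exp a.2.2))) _ 0 :=
      mkL.hasFDerivAt.comp 0 ((h22.cexp.prodMk (hasFDerivAt_const (0 : ℂ) (0 : C3))).prodMk
        ((h21.mul h22.cexp).prodMk h22.cexp))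
    have hC : HasFDerivAt rhoA _ 0 := pair.hasFDerivAt.comp 0 (hA.prodMk hB)
    refine hC.congr_fderiv ?_
    refine ContinuousLinearMap.ext fun v ↦ ?_
    rw [sg_apply]
    refine alg_ext ?_ ?_
    · change mk 0 0 v.1 0 = mk 0 0 v.1 0
      rfl
    · change mk (Complex.exp 0 * v.2.2) 0 ((0 : ℂ) * (Complex.exp 0 * v.2.2) +
        Complex.exp 0 * v.2.1) (Complex.exp 0 * v.2.2) = mk v.2.2 0 v.2.1 v.2.2
      rw [Complex.exp_zero]
      congr 1 <;> ring
  have h1 : rhoA = fun b ↦ rhoA a * rhoA (b - a) := by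
    funext b
    rw [← rhoA_add, add_sub_cancel]
  have h2 : HasFDerivAt (fun b : C3 ↦ b - a) (ContinuousLinearMap.id ℂ C3) a :=
    (hasFDerivAt_id a).sub_const a
  have h3 : HasFDerivAt rhoA sg (a - a) := by rw [sub_self]; exact h0
  have h5 : HasFDerivAt (fun b : C3 ↦ rhoA (b - a)) (sg.comp (ContinuousLinearMap.id ℂ C3)) a :=
    HasFDerivAt.comp (g := rhoA) (f := fun b : C3 ↦ b - a) a h3 h2
  have h4 : HasFDerivAt (fun b : C3 ↦ rhoA a * rhoA (b - a))
      ((ContinuousLinearMap.mul ℂ Alg (rhoA a)).comp (sg.comp (ContinuousLinearMap.id ℂ C3))) a :=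
    HasFDerivAt.comp (g := fun x ↦ rhoA a * x) (f := fun b : C3 ↦ rhoA (b - a)) a
      (ContinuousLinearMap.mul ℂ Alg (rhoA a)).hasFDerivAt h5
  rw [← h1] at h4
  exact h4

theorem theta_flat : IsFlat (EP := C3 × E5) (EG := Alg) theta := by
  intro p
  obtain ⟨W, hW⟩ : ∃ W : Set PP, W = {q | q.1 ∈ (chartAt C3 p.1).source} := ⟨_, rfl⟩
  have hfst : Continuous (fun q : PP ↦ q.1) := pp_fst.continuous
  have hsnd : Continuous (fun q : PP ↦ q.2) := pp_snd.continuous
  have hWo : IsOpen W := by rw [hW]; exact (chartAt C3 p.1).open_source.preimage hfst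
  refine ⟨W, fun q ↦ rho (chartAt C3 p.1 q.1) * iota q.2, hWo, ?_, ?_, ?_⟩
  · rw [hW]; exact mem_chart_source C3 p.1
  · intro q hq
    refine ContMDiffAt.contMDiffWithinAt ?_
    have hq1 : q.1 ∈ (chartAt C3 p.1).source := by rw [hW] at hq; exact hq
    have h1 : ContMDiffAt 𝓘(ℂ, C3) 𝓘(ℂ, C3) ω (chartAt C3 p.1 : T3 → C3) q.1 :=
      contMDiffOn_chart.contMDiffAt ((chartAt C3 p.1).open_source.mem_nhds hq1)
    have h2 : ContMDiffAt 𝓘(ℂ, C3 × E5) 𝓘(ℂ, Alg) ω
        (fun q : PP ↦ rho (chartAt C3 p.1 q.1)) q :=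
      contMDiff_rho.contMDiffAt.comp q (ContMDiffAt.comp q (g := (chartAt C3 p.1 : T3 → C3)) h1
        pp_fst.contMDiffAt)
    have h3 : ContMDiffAt 𝓘(ℂ, C3 × E5) 𝓘(ℂ, Alg) ω (fun q : PP ↦ iota q.2) q :=
      iota_closed.holomorphic.contMDiffAt.comp q pp_snd.contMDiffAt
    exact h2.mul h3
  · intro q hq v
    have hq1 : q.1 ∈ (chartAt C3 p.1).source := by rw [hW] at hq; exact hq
    obtain ⟨c, hc⟩ : ∃ c, c = chartAt C3 p.1 q.1 - chartAt C3 q.1 q.1 := ⟨_, rfl⟩
    obtain ⟨a, ha⟩ : ∃ a, a = chartAt C3 p.1 q.1 := ⟨_, rfl⟩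
    have hac : chartAt C3 q.1 q.1 + c = a := by rw [hc, ha]; abel
    have hFcont : ContinuousAt (fun q : PP ↦ rho (chartAt C3 p.1 q.1) * iota q.2) q := by
      have h1 : ContinuousAt (fun q : PP ↦ chartAt C3 p.1 q.1) q :=
        ContinuousAt.comp (g := chartAt C3 p.1) ((chartAt C3 p.1).continuousAt hq1)
          hfst.continuousAt
      have h2 : ContinuousAt (fun q : PP ↦ rho (chartAt C3 p.1 q.1)) q :=
        ContinuousAt.comp (g := rho) contMDiff_rho.continuous.continuousAt h1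
      have h3 : ContinuousAt (fun q : PP ↦ iota q.2) q :=
        (continuous_iota.comp hsnd).continuousAt
      exact h2.mul h3
    have hd : HasMFDerivAt 𝓘(ℂ, C3 × E5) 𝓘(ℂ, Alg)
        (fun q : PP ↦ rho (chartAt C3 p.1 q.1) * iota q.2) q
        ((ContinuousLinearMap.mul ℂ Alg (rhoA a)).comp
          ((fderiv ℂ iH q.2.val).comp (ContinuousLinearMap.snd ℂ C3 E5)) +
          ((ContinuousLinearMap.mul ℂ Alg).flip (iH q.2.val)).comp
            (((ContinuousLinearMap.mul ℂ Alg (rhoA a)).comp sg).comp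
              (ContinuousLinearMap.fst ℂ C3 E5)) : (C3 × E5) →L[ℂ] Alg) := by
      refine hasMFDerivAt_of_rep hFcont
        (F := fun w : C3 × E5 ↦ rhoA (w.1 + c) * iH w.2) ?_ ?_
      · have h1 : HasFDerivAt (fun w : C3 × E5 ↦ w.1 + c) (ContinuousLinearMap.fst ℂ C3 E5)
            (chartAt C3 q.1 q.1, q.2.val) := hasFDerivAt_fst.add_const c
        have h2 : HasFDerivAt rhoA ((ContinuousLinearMap.mul ℂ Alg (rhoA a)).comp sg)
            (chartAt C3 q.1 q.1 + c) := by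
          rw [hac]; exact hasFDerivAt_rhoA a
        have h3 : HasFDerivAt (fun w : C3 × E5 ↦ rhoA (w.1 + c))
            (((ContinuousLinearMap.mul ℂ Alg (rhoA a)).comp sg).comp
              (ContinuousLinearMap.fst ℂ C3 E5)) (chartAt C3 q.1 q.1, q.2.val) :=
          HasFDerivAt.comp (g := rhoA) (chartAt C3 q.1 q.1, q.2.val) h2 h1
        have h4 : HasFDerivAt (fun w : C3 × E5 ↦ iH w.2)
            ((fderiv ℂ iH q.2.val).comp (ContinuousLinearMap.snd ℂ C3 E5))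
            (chartAt C3 q.1 q.1, q.2.val) :=
          HasFDerivAt.comp (g := iH) (chartAt C3 q.1 q.1, q.2.val)
            (differentiable_iH _).hasFDerivAt hasFDerivAt_snd
        have h5 := h3.mul' h4
        refine (h5.congr_fderiv ?_ : HasFDerivAt _ _ (chartAt C3 q.1 q.1, q.2.val))
        refine ContinuousLinearMap.ext fun w ↦ ?_
        change rhoA (chartAt C3 q.1 q.1 + c) * fderiv ℂ iH q.2.val w.2 +
          (rhoA a * sg w.1) * iH q.2.val = _
        rw [hac]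
        rfl
      · have h1 := T3.change p.1 q.1 hq1
        have h2 : Tendsto (fun y : PP ↦ chartAt C3 q.1 y.1) (𝓝 q) (𝓝 (chartAt C3 q.1 q.1)) :=
          ContinuousAt.comp (g := chartAt C3 q.1)
            ((chartAt C3 q.1).continuousAt (mem_chart_source C3 q.1)) hfst.continuousAt
        have h3 : ∀ᶠ y : PP in 𝓝 q, y.1 ∈ (chartAt C3 q.1).source :=
          hfst.continuousAt ((chartAt C3 q.1).open_source.mem_nhds (mem_chart_source C3 q.1))
        filter_upwards [h2.eventually h1, h3] with y hy1 hy2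
        rw [(chartAt C3 q.1).left_inv hy2] at hy1
        change rhoA (chartAt C3 p.1 y.1) * iH y.2.val = rhoA (chartAt C3 q.1 y.1 + c) * iH y.2.val
        rw [hy1, hc]
    obtain ⟨v1, hv1⟩ : ∃ v1 : C3 × E5, v1 = v := ⟨_, rfl⟩
    have h1 : (mfderiv 𝓘(ℂ, C3 × E5) 𝓘(ℂ, Alg)
        (fun q : PP ↦ rho (chartAt C3 p.1 q.1) * iota q.2) q v : Alg) =
        rhoA a * fderiv ℂ iH q.2.val v1.2 + rhoA a * sg v1.1 * iH q.2.val := by
      rw [hd.mfderiv, hv1]; rfl
    have h2 : (theta q v : Alg) = _ := (congrArg (theta q) hv1.symm).trans (theta_apply q v1)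
    refine h2.trans ?_
    refine Eq.trans ?_ (congrArg (maurerCartan Alg (rho (chartAt C3 p.1 q.1) * iota q.2)) h1).symm
    refine Eq.trans ?_ (mc_apply (rho (chartAt C3 p.1 q.1) * iota q.2) _).symm
    rw [mul_inv_rev, Units.val_mul, ← ha]
    have h3 : (((rho a)⁻¹ : GG) : Alg) * rhoA a = 1 := Units.inv_mul (rho a)
    have h4 : (((iota q.2)⁻¹ : GG) : Alg) * (((rho a)⁻¹ : GG) : Alg) *
        (rhoA a * fderiv ℂ iH q.2.val v1.2 + rhoA a * sg v1.1 * iH q.2.val) =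
        (((iota q.2)⁻¹ : GG) : Alg) * ((((rho a)⁻¹ : GG) : Alg) * rhoA a) *
          (sg v1.1 * iH q.2.val + fderiv ℂ iH q.2.val v1.2) := by
      noncomm_ring
    rw [h4, h3, mul_one]

theorem flat_geometry3 :
    CarriesFlatCartanGeometry (EG := Alg) (EH := E5) C3 T3 iota :=
  ⟨C3 × E5, inferInstance, inferInstance, inferInstance, PP, inferInstance, inferInstance,
    inferInstance, inferInstance, inferInstance, fun p ↦ p.1, actP, theta, principal, theta_cartan,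
    theta_flat⟩

end Pool.Agent.Lib.MP_69200a_ag.CE
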