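import Mathlib

/-!
Rational curves in complex manifolds.
-/

open scoped Manifold ContDiff Topology

noncomputable section

namespace Pool.Agent.Lib.MP_69200a_ag.CE

/-- `X` contains a rational curve: there is a non-constant holomorphic map from the projective line,
glued from two copies of `ℂ` by `z ↦ 1/z`, to `X`. -/
def HasRationalCurve (EX : Type) [NormedAddCommGroup EX] [NormedSpace ℂ EX]
    (X : Type) [TopologicalSpace X] [ChartedSpace EX X] : Prop :=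
  ∃ f₀ f₁ : ℂ → X, ContMDiff 𝓘(ℂ, ℂ) 𝓘(ℂ, EX) ω f₀ ∧ ContMDiff 𝓘(ℂ, ℂ) 𝓘(ℂ, EX) ω f₁ ∧
    (∀ z : ℂ, z ≠ 0 → f₁ z = f₀ z⁻¹) ∧ ∃ z w : ℂ, f₀ z ≠ f₀ w

end Pool.Agent.Lib.MP_69200a_ag.CE
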