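import Mathlib
import Pool.Agent.Lib.MP_69200a_ag.CE.Group
import Pool.Agent.Lib.MP_69200a_ag.CE.Rational

/-!
The Calabi-Eckmann manifold contains no rational curve: every holomorphic map from the projective
line is constant.
-/

open scoped Manifold ContDiff Topology
open Filter Set

noncomputable section

namespace Pool.Agent.Lib.MP_69200a_ag.CE

section LogDeriv

/-- Logarithmic derivatives of holomorphic functions have at most simple poles. -/
theorem logDeriv_local {u : ℂ → ℂ} {z₀ : ℂ} (hu : AnalyticAt ℂ u z₀)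
    (h0 : ¬ ∀ᶠ z in 𝓝 z₀, u z = 0) :
    ∃ (m : ℕ) (g : ℂ → ℂ), AnalyticAt ℂ g z₀ ∧
      (∀ᶠ z in 𝓝[≠] z₀, u z ≠ 0 ∧ deriv u z / u z = m / (z - z₀) + g z) ∧
      (u z₀ ≠ 0 → m = 0 ∧ deriv u z₀ / u z₀ = g z₀) ∧ (u z₀ = 0 → 0 < m) := by
  obtain ⟨m, U, hU, hU0, hev⟩ := (hu.exists_eventuallyEq_pow_smul_nonzero_iff).2 h0
  have hUne : ∀ᶠ z in 𝓝 z₀, U z ≠ 0 := hU.continuousAt.eventually_ne hU0
  refine ⟨m, fun z ↦ deriv U z / U z, hU.deriv.div hU hU0, ?_, ?_, ?_⟩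
  · have h1 : ∀ᶠ z in 𝓝 z₀, AnalyticAt ℂ U z := hU.eventually_analyticAt
    have h2 := hev.eventually_nhds
    filter_upwards [nhdsWithin_le_nhds h1, nhdsWithin_le_nhds h2, nhdsWithin_le_nhds hUne,
      self_mem_nhdsWithin] with z a1 a2 a3 a4
    have hz : z - z₀ ≠ 0 := sub_ne_zero.2 a4
    have e1 : u z = (z - z₀) ^ m * U z := a2.self_of_nhds
    have e2 : deriv u z = m * (z - z₀) ^ (m - 1) * U z + (z - z₀) ^ m * deriv U z := by
      have h3 : u =ᶠ[𝓝 z] fun w ↦ (w - z₀) ^ m * U w := a2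
      rw [h3.deriv_eq]
      have h4 : HasDerivAt (fun w : ℂ ↦ (w - z₀) ^ m) (m * (z - z₀) ^ (m - 1)) z := by
        have := ((hasDerivAt_id z).sub_const z₀).fun_pow m
        simpa using this
      exact (h4.mul a1.differentiableAt.hasDerivAt).deriv
    refine ⟨by rw [e1]; exact mul_ne_zero (pow_ne_zero _ hz) a3, ?_⟩
    rw [e1, e2]
    rcases Nat.eq_zero_or_pos m with hm | hm
    · subst hm
      simp
    · have h5 : (z - z₀) ^ m = (z - z₀) ^ (m - 1) * (z - z₀) := by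
        rw [← pow_succ]; congr 1; omega
      have h6 : (z - z₀) ^ (m - 1) ≠ 0 := pow_ne_zero _ hz
      rw [h5]
      field_simp
  · intro hu0
    have hm : m = 0 := by
      by_contra hm
      apply hu0
      have h1 : u z₀ = (z₀ - z₀) ^ m • U z₀ := hev.self_of_nhds
      rw [h1, sub_self, zero_pow hm, zero_smul]
    refine ⟨hm, ?_⟩
    subst hm
    have h3 : u =ᶠ[𝓝 z₀] U := by
      filter_upwards [hev] with w hw
      rw [hw]; simp
    rw [h3.deriv_eq, h3.self_of_nhds]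
  · intro hu0
    rcases Nat.eq_zero_or_pos m with hm | hm
    · exfalso
      subst hm
      have h1 : u z₀ = (z₀ - z₀) ^ 0 • U z₀ := hev.self_of_nhds
      rw [hu0] at h1
      simp at h1
      exact hU0 h1.symm
    · exact hm

end LogDeriv

/-- A holomorphic local lift of a map to the Calabi-Eckmann manifold. -/
structure IsLift (f : ℂ → CEX) (z₀ : ℂ) (F : ℂ → W) : Prop where
  an : AnalyticAt ℂ F z₀
  good : Good (F z₀)
  eq : ∀ᶠ z in 𝓝 z₀, f z = toX (F z)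

theorem IsLift.eventually {f : ℂ → CEX} {z₀ : ℂ} {F : ℂ → W} (h : IsLift f z₀ F) :
    ∀ᶠ z in 𝓝 z₀, IsLift f z F := by
  have h1 : ∀ᶠ z in 𝓝 z₀, Good (F z) := h.an.continuousAt (isOpen_good.mem_nhds h.good)
  filter_upwards [h.an.eventually_analyticAt, h1, h.eq.eventually_nhds] with z a1 a2 a3
  exact ⟨a1, a2, a3⟩

theorem analyticAt_lift (a : ℂ × ℂ × ℂ) : AnalyticAt ℂ lift a := by
  have h : ContDiffAt ℂ ω lift a := by unfold lift; fun_prop
  rw [← contDiffWithinAt_univ] at h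
  exact analyticWithinAt_univ.1 (contDiffWithinAt_omega_iff_analyticWithinAt.1 h)

theorem exists_isLift {f : ℂ → CEX} (hf : ContMDiff 𝓘(ℂ, ℂ) 𝓘(ℂ, ℂ × ℂ × ℂ) ω f) (z₀ : ℂ) :
    ∃ F, IsLift f z₀ F := by
  obtain ⟨k, a₀, hk⟩ := pp_data.surj (f z₀)
  obtain ⟨e, he⟩ : ∃ e : CEX → ℂ × ℂ × ℂ, e = (pp_data.homeo k).localInverseAt a₀ := ⟨_, rfl⟩
  have he1 : ContMDiffAt 𝓘(ℂ, ℂ × ℂ × ℂ) 𝓘(ℂ, ℂ × ℂ × ℂ) ω e (f z₀) := by
    rw [he, ← hk]; exact pp_data.contMDiffAt_inverse k a₀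
  have he3 : ∀ᶠ x in 𝓝 (f z₀), pp k (e x) = x := by
    rw [he, ← hk]
    filter_upwards [((pp_data.homeo k).localInverseAt a₀).open_source.mem_nhds
      (pp_data.homeo k).apply_self_mem_localInverseAt_source] with x hx
    exact (pp_data.homeo k).apply_localInverseAt_of_mem hx
  have h1 : ContDiffAt ℂ ω (fun z ↦ e (f z)) z₀ := (he1.comp z₀ hf.contMDiffAt).contDiffAt
  have h2 : AnalyticAt ℂ (fun z ↦ e (f z)) z₀ := by
    rw [← contDiffWithinAt_univ] at h1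
    exact analyticWithinAt_univ.1 (contDiffWithinAt_omega_iff_analyticWithinAt.1 h1)
  refine ⟨fun z ↦ act (k : Alg) (lift (e (f z))), ?_, act_good k (lift_good _), ?_⟩
  · have h3 : AnalyticAt ℂ (fun z ↦ lift (e (f z))) z₀ :=
      AnalyticAt.comp (g := lift) (analyticAt_lift _) h2
    have h4 : AnalyticAt ℂ (fun z ↦ (lift (e (f z))).1) z₀ := analyticAt_fst.comp h3
    have h5 : AnalyticAt ℂ (fun z ↦ (lift (e (f z))).2) z₀ := analyticAt_snd.comp h3
    exact (((pr1 (k : Alg)).analyticAt _).comp h4).prod (((pr2 (k : Alg)).analyticAt _).comp h5)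
  · filter_upwards [(hf.continuous.tendsto z₀).eventually he3] with z hz
    exact hz.symm

/-- Two lifts differ by a holomorphic function. -/
theorem IsLift.compare {f : ℂ → CEX} {z₀ : ℂ} {F F' : ℂ → W} (h : IsLift f z₀ F)
    (h' : IsLift f z₀ F') :
    ∃ t : ℂ → ℂ, AnalyticAt ℂ t z₀ ∧ ∀ᶠ z in 𝓝 z₀, F' z = tw (t z) (F z) := by
  obtain ⟨t, ht⟩ : ∃ t : ℂ → ℂ, t = fun z ↦ tau (F z) - tau (F' z) := ⟨_, rfl⟩
  have h1 : ∀ᶠ z in 𝓝 z₀, F' z = tw (t z) (F z) := by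
    filter_upwards [h.eventually, h'.eventually] with z a a'
    rw [ht]
    refine eq_tw_of_toX a.good a'.good ?_
    rw [← a.eq.self_of_nhds, ← a'.eq.self_of_nhds]
  have htc : ContinuousAt t z₀ := by
    rw [ht]
    exact (ContinuousAt.comp (g := tau) (continuousAt_tau h.good) h.an.continuousAt).sub
      (ContinuousAt.comp (g := tau) (continuousAt_tau h'.good) h'.an.continuousAt)
  refine ⟨t, ?_, h1⟩
  -- `exp t` is holomorphic
  have h2 : ∃ A : ℂ → ℂ, AnalyticAt ℂ A z₀ ∧ ∀ᶠ z in 𝓝 z₀, A z = Complex.exp (t z) := by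
    have hne : (F z₀).1.1 ≠ 0 ∨ (F z₀).1.2 ≠ 0 := by
      by_contra hcon
      push Not at hcon
      exact h.good.1 (Prod.ext hcon.1 hcon.2)
    have e1 : AnalyticAt ℂ (fun z ↦ (F z).1) z₀ := analyticAt_fst.comp h.an
    have e1' : AnalyticAt ℂ (fun z ↦ (F' z).1) z₀ := analyticAt_fst.comp h'.an
    rcases hne with hne | hne
    · refine ⟨fun z ↦ (F' z).1.1 / (F z).1.1,
        AnalyticAt.div (analyticAt_fst.comp e1') (analyticAt_fst.comp e1) hne, ?_⟩
      have h3 : ∀ᶠ z in 𝓝 z₀, (F z).1.1 ≠ 0 :=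
        (AnalyticAt.continuousAt (analyticAt_fst.comp e1)).eventually_ne hne
      filter_upwards [h1, h3] with z a1 a2
      rw [a1]
      change Complex.exp (t z) * (F z).1.1 / (F z).1.1 = _
      field_simp
    · refine ⟨fun z ↦ (F' z).1.2 / (F z).1.2,
        AnalyticAt.div (analyticAt_snd.comp e1') (analyticAt_snd.comp e1) hne, ?_⟩
      have h3 : ∀ᶠ z in 𝓝 z₀, (F z).1.2 ≠ 0 :=
        (AnalyticAt.continuousAt (analyticAt_snd.comp e1)).eventually_ne hne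
      filter_upwards [h1, h3] with z a1 a2
      rw [a1]
      change Complex.exp (t z) * (F z).1.2 / (F z).1.2 = _
      field_simp
  obtain ⟨A, hA, hAe⟩ := h2
  have h3 : ∀ᶠ z in 𝓝 z₀, ‖t z - t z₀‖ < 1 := by
    have h4 : ContinuousAt (fun z ↦ ‖t z - t z₀‖) z₀ := (htc.sub continuousAt_const).norm
    exact h4.eventually_lt_const (by simp)
  have h5 : t =ᶠ[𝓝 z₀] fun z ↦ t z₀ + Complex.log (A z * Complex.exp (-t z₀)) := by
    filter_upwards [h3, hAe] with z a1 a2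
    rw [a2, ← Complex.exp_add]
    have hpi := Real.pi_gt_three
    have h6 := (Complex.abs_im_le_norm (t z - t z₀)).trans_lt a1
    rw [abs_lt] at h6
    have h7 : Complex.log (Complex.exp (t z + -t z₀)) = t z + -t z₀ := by
      rw [← sub_eq_add_neg]
      exact Complex.log_exp (by linarith) (by linarith)
    rw [h7]; ring
  have h8 : AnalyticAt ℂ (fun z ↦ t z₀ + Complex.log (A z * Complex.exp (-t z₀))) z₀ := by
    refine analyticAt_const.add ((hA.mul analyticAt_const).clog ?_)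
    change A z₀ * Complex.exp (-t z₀) ∈ Complex.slitPlane
    rw [hAe.self_of_nhds, ← Complex.exp_add, add_neg_cancel, Complex.exp_zero]
    exact Complex.one_mem_slitPlane
  exact h8.congr h5.symm

/-- The logarithmic form computed from a lift. -/
def eta (F : ℂ → W) (z : ℂ) : ℂ :=
  deriv (fun w ↦ (F w).2.1) z / (F z).2.1 - Complex.I * (deriv (fun w ↦ (F w).1.1) z / (F z).1.1)

theorem eta_eq {f : ℂ → CEX} {z : ℂ} {F F' : ℂ → W} (h : IsLift f z F)
    (h' : IsLift f z F') (h1 : (F z).1.1 ≠ 0) (h2 : (F z).2.1 ≠ 0) : eta F' z = eta F z := by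
  obtain ⟨t, ht, hev⟩ := h.compare h'
  have e11 : AnalyticAt ℂ (fun z ↦ (F z).1.1) z := analyticAt_fst.comp (analyticAt_fst.comp h.an)
  have e21 : AnalyticAt ℂ (fun z ↦ (F z).2.1) z := analyticAt_fst.comp (analyticAt_snd.comp h.an)
  have d1 : HasDerivAt (fun w ↦ (F' w).1.1)
      (Complex.exp (t z) * deriv t z * (F z).1.1 +
        Complex.exp (t z) * deriv (fun w ↦ (F w).1.1) z) z := by
    have h3 : (fun w ↦ (F' w).1.1) =ᶠ[𝓝 z] fun w ↦ Complex.exp (t w) * (F w).1.1 := by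
      filter_upwards [hev] with w hw
      rw [hw]; rfl
    refine HasDerivAt.congr_of_eventuallyEq ?_ h3
    exact (ht.differentiableAt.hasDerivAt.cexp).mul e11.differentiableAt.hasDerivAt
  have d2 : HasDerivAt (fun w ↦ (F' w).2.1)
      (Complex.exp (Complex.I * t z) * (Complex.I * deriv t z) * (F z).2.1 +
        Complex.exp (Complex.I * t z) * deriv (fun w ↦ (F w).2.1) z) z := by
    have h3 : (fun w ↦ (F' w).2.1) =ᶠ[𝓝 z] fun w ↦ Complex.exp (Complex.I * t w) * (F w).2.1 := by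
      filter_upwards [hev] with w hw
      rw [hw]; rfl
    refine HasDerivAt.congr_of_eventuallyEq ?_ h3
    exact ((ht.differentiableAt.hasDerivAt.const_mul Complex.I).cexp).mul
      e21.differentiableAt.hasDerivAt
  have c1 : (F' z).1.1 = Complex.exp (t z) * (F z).1.1 := by rw [hev.self_of_nhds]; rfl
  have c2 : (F' z).2.1 = Complex.exp (Complex.I * t z) * (F z).2.1 := by
    rw [hev.self_of_nhds]; rfl
  unfold eta
  rw [d1.deriv, d2.deriv, c1, c2]
  have x1 := Complex.exp_ne_zero (t z)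
  have x2 := Complex.exp_ne_zero (Complex.I * t z)
  field_simp
  ring

/-- The open set where both first coordinates are non-zero. -/
def Reg : Set CEX := {x | x.val.1.1 ≠ 0 ∧ x.val.2.1 ≠ 0}

theorem isOpen_reg : IsOpen Reg := by
  have h1 : IsOpen {x : CEX | x.val.1.1 ≠ 0} :=
    isOpen_ne.preimage ((continuous_fst.comp continuous_fst).comp CEX.continuous_val)
  have h2 : IsOpen {x : CEX | x.val.2.1 ≠ 0} :=
    isOpen_ne.preimage ((continuous_fst.comp continuous_snd).comp CEX.continuous_val)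
  exact h1.inter h2

theorem toX_fst_ne {p : W} (h : Good p) : (toX p).val.1.1 ≠ 0 ↔ p.1.1 ≠ 0 := by
  rw [toX_val h]
  change Complex.exp (tau p) * p.1.1 ≠ 0 ↔ _
  rw [mul_ne_zero_iff]
  exact and_iff_right (Complex.exp_ne_zero _)

theorem toX_snd_ne {p : W} (h : Good p) : (toX p).val.2.1 ≠ 0 ↔ p.2.1 ≠ 0 := by
  rw [toX_val h]
  change Complex.exp (Complex.I * tau p) * p.2.1 ≠ 0 ↔ _
  rw [mul_ne_zero_iff]
  exact and_iff_right (Complex.exp_ne_zero _)

theorem IsLift.fst_ne {f : ℂ → CEX} {z : ℂ} {F : ℂ → W} (h : IsLift f z F) :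
    (f z).val.1.1 ≠ 0 ↔ (F z).1.1 ≠ 0 := by
  rw [h.eq.self_of_nhds]; exact toX_fst_ne h.good

theorem IsLift.snd_ne {f : ℂ → CEX} {z : ℂ} {F : ℂ → W} (h : IsLift f z F) :
    (f z).val.2.1 ≠ 0 ↔ (F z).2.1 ≠ 0 := by
  rw [h.eq.self_of_nhds]; exact toX_snd_ne h.good

/-- A function whose zeros are locally those of holomorphic functions has isolated zeros. -/
theorem isolated {a : ℂ → ℂ} (ha : ∀ z₀, ∃ u : ℂ → ℂ, AnalyticAt ℂ u z₀ ∧
    ∀ᶠ z in 𝓝 z₀, (a z = 0 ↔ u z = 0)) {z₁ : ℂ} (h1 : a z₁ ≠ 0) (z₀ : ℂ) :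
    ∀ᶠ z in 𝓝[≠] z₀, a z ≠ 0 := by
  have hdich : ∀ z₀, (∀ᶠ z in 𝓝 z₀, a z = 0) ∨ ∀ᶠ z in 𝓝[≠] z₀, a z ≠ 0 := by
    intro z₀
    obtain ⟨u, hu, hau⟩ := ha z₀
    rcases hu.eventually_eq_zero_or_eventually_ne_zero with h | h
    · left
      filter_upwards [h, hau] with z h2 h3
      exact h3.2 h2
    · right
      filter_upwards [h, nhdsWithin_le_nhds hau] with z h2 h3 h4
      exact h2 (h3.1 h4)
  have hopen : IsOpen {z₀ | ∀ᶠ z in 𝓝 z₀, a z = 0} := isOpen_setOfPred_eventually_nhds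
  have hclosed : IsClosed {z₀ | ∀ᶠ z in 𝓝 z₀, a z = 0} := by
    rw [← isOpen_compl_iff, isOpen_iff_mem_nhds]
    intro z₀ hz₀
    have h2 := (hdich z₀).resolve_left hz₀
    have h3 : ∀ᶠ z in 𝓝 z₀, z ≠ z₀ → ∀ᶠ w in 𝓝 z, w ≠ z₀ → a w ≠ 0 := by
      have h4 : ∀ᶠ z in 𝓝 z₀, z ≠ z₀ → a z ≠ 0 := eventually_nhdsWithin_iff.1 h2
      filter_upwards [h4.eventually_nhds] with z hz _
      exact hz
    filter_upwards [h3] with z hz
    by_cases hzz : z = z₀
    · rw [hzz]; exact hz₀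
    · intro hcon
      have h5 : a z ≠ 0 := (hz hzz).self_of_nhds hzz
      have hcon' : ∀ᶠ w in 𝓝 z, a w = 0 := hcon
      exact h5 hcon'.self_of_nhds
  rcases isClopen_iff.1 ⟨hclosed, hopen⟩ with h | h
  · refine (hdich z₀).resolve_left fun h2 ↦ ?_
    have h3 : z₀ ∈ {z₀ | ∀ᶠ z in 𝓝 z₀, a z = 0} := h2
    rw [h] at h3
    exact h3
  · exfalso
    have h3 : z₁ ∈ {z₀ | ∀ᶠ z in 𝓝 z₀, a z = 0} := by rw [h]; exact Set.mem_univ _
    have h4 : ∀ᶠ w in 𝓝 z₁, a w = 0 := h3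
    exact h1 h4.self_of_nhds

theorem IsLift.an11 {f : ℂ → CEX} {z₀ : ℂ} {F : ℂ → W} (h : IsLift f z₀ F) :
    AnalyticAt ℂ (fun z ↦ (F z).1.1) z₀ := analyticAt_fst.comp (analyticAt_fst.comp h.an)

theorem IsLift.an12 {f : ℂ → CEX} {z₀ : ℂ} {F : ℂ → W} (h : IsLift f z₀ F) :
    AnalyticAt ℂ (fun z ↦ (F z).1.2) z₀ := analyticAt_snd.comp (analyticAt_fst.comp h.an)

theorem IsLift.an21 {f : ℂ → CEX} {z₀ : ℂ} {F : ℂ → W} (h : IsLift f z₀ F) :
    AnalyticAt ℂ (fun z ↦ (F z).2.1) z₀ := analyticAt_fst.comp (analyticAt_snd.comp h.an)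

theorem IsLift.an22 {f : ℂ → CEX} {z₀ : ℂ} {F : ℂ → W} (h : IsLift f z₀ F) :
    AnalyticAt ℂ (fun z ↦ (F z).2.2) z₀ := analyticAt_snd.comp (analyticAt_snd.comp h.an)

theorem tendsto_of_inv {g : ℂ → ℂ} {l : Filter ℂ}
    (h : Tendsto (fun ζ ↦ g ζ⁻¹) (𝓝[≠] 0) l) : Tendsto g (Bornology.cobounded ℂ) l := by
  have h1 := h.comp (tendsto_inv₀_cobounded' (α := ℂ))
  refine h1.congr fun z ↦ ?_
  simp

theorem base_mem_reg : base ∈ Reg := by
  constructor
  · rw [base_val]; exact one_ne_zero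
  · rw [base_val]; exact one_ne_zero

theorem val12_eq {p : W} (h : Good p) : (toX p).val.1.2 / (toX p).val.1.1 = p.1.2 / p.1.1 := by
  rw [toX_val h]
  change Complex.exp (tau p) * p.1.2 / (Complex.exp (tau p) * p.1.1) = _
  rw [mul_div_mul_left _ _ (Complex.exp_ne_zero _)]

theorem val22_eq {p : W} (h : Good p) : (toX p).val.2.2 / (toX p).val.2.1 = p.2.2 / p.2.1 := by
  rw [toX_val h]
  change Complex.exp (Complex.I * tau p) * p.2.2 / (Complex.exp (Complex.I * tau p) * p.2.1) = _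
  rw [mul_div_mul_left _ _ (Complex.exp_ne_zero _)]

/-- A holomorphic map from the projective line to the Calabi-Eckmann manifold is constant. -/
theorem rational_const {f₀ f₁ : ℂ → CEX} (h0 : ContMDiff 𝓘(ℂ, ℂ) 𝓘(ℂ, ℂ × ℂ × ℂ) ω f₀)
    (h1 : ContMDiff 𝓘(ℂ, ℂ) 𝓘(ℂ, ℂ × ℂ × ℂ) ω f₁) (hg : ∀ z : ℂ, z ≠ 0 → f₁ z = f₀ z⁻¹)
    (hb : f₁ 0 = base) (z w : ℂ) : f₀ z = f₀ w := by
  choose L hL using exists_isLift h0
  obtain ⟨η, hη⟩ : ∃ η : ℂ → ℂ, η = fun z ↦ eta (L z) z := ⟨_, rfl⟩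
  have hη1 : ∀ z F, IsLift f₀ z F → f₀ z ∈ Reg → η z = eta F z := by
    intro z F hF hr
    rw [hη]
    exact eta_eq hF (hL z) (hF.fst_ne.1 hr.1) (hF.snd_ne.1 hr.2)
  have hη2 : ∀ z₀ F, IsLift f₀ z₀ F → ∀ᶠ z in 𝓝 z₀, f₀ z ∈ Reg → η z = eta F z := by
    intro z₀ F hF
    filter_upwards [hF.eventually] with z hz hr
    exact hη1 z F hz hr
  -- behaviour at infinity
  have hne : ∀ᶠ z : ℂ in Bornology.cobounded ℂ, z ≠ 0 := by
    have := tendsto_inv₀_cobounded' (α := ℂ) self_mem_nhdsWithin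
    filter_upwards [this] with z hz h0
    rw [h0] at hz
    simp at hz
  have hinf0 : ∀ᶠ ζ in 𝓝 (0 : ℂ), f₁ ζ ∈ Reg := by
    have h2 : Reg ∈ 𝓝 (f₁ 0) := by rw [hb]; exact isOpen_reg.mem_nhds base_mem_reg
    exact h1.continuous.continuousAt h2
  have hglue : ∀ z : ℂ, z ≠ 0 → f₀ z = f₁ z⁻¹ := by
    intro z hz
    rw [hg _ (inv_ne_zero hz), inv_inv]
  have hinf : ∀ᶠ z in Bornology.cobounded ℂ, f₀ z ∈ Reg := by
    filter_upwards [(tendsto_inv₀_cobounded (α := ℂ)).eventually hinf0, hne] with z h2 h3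
    rw [hglue z h3]; exact h2
  obtain ⟨z₁, hz₁⟩ := hinf.exists
  obtain ⟨F₁, hF₁⟩ := exists_isLift h1 0
  have hF₁r : (F₁ 0).1.1 ≠ 0 ∧ (F₁ 0).2.1 ≠ 0 :=
    ⟨hF₁.fst_ne.1 (by rw [hb]; exact base_mem_reg.1), hF₁.snd_ne.1 (by rw [hb]; exact base_mem_reg.2)⟩
  have hηinf : ∀ᶠ ζ in 𝓝[≠] (0 : ℂ), η ζ⁻¹ = -ζ ^ 2 * eta F₁ ζ := by
    filter_upwards [nhdsWithin_le_nhds hF₁.eventually, nhdsWithin_le_nhds hinf0,
      self_mem_nhdsWithin] with ζ hζ1 hζ2 hζ3
    have hζ : ζ ≠ 0 := hζ3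
    have hinv : AnalyticAt ℂ (fun w : ℂ ↦ w⁻¹) ζ⁻¹ := analyticAt_inv (inv_ne_zero hζ)
    have hlift : IsLift f₀ ζ⁻¹ (fun w ↦ F₁ w⁻¹) := by
      refine ⟨?_, ?_, ?_⟩
      · refine AnalyticAt.comp (g := F₁) (f := fun w : ℂ ↦ w⁻¹) ?_ hinv
        rw [inv_inv]; exact hζ1.an
      · change Good (F₁ (ζ⁻¹)⁻¹)
        rw [inv_inv]; exact hζ1.good
      · have h2 : Tendsto (fun w : ℂ ↦ w⁻¹) (𝓝 ζ⁻¹) (𝓝 ζ) := by
          have h3 := hinv.continuousAt
          rw [ContinuousAt, inv_inv] at h3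
          exact h3
        filter_upwards [h2.eventually hζ1.eq, eventually_ne_nhds (inv_ne_zero hζ)] with w h3 h4
        rw [hglue w h4]; exact h3
    have hreg : f₀ ζ⁻¹ ∈ Reg := by rw [← hg ζ hζ]; exact hζ2
    rw [hη1 ζ⁻¹ _ hlift hreg]
    have hd : ∀ u : ℂ → ℂ, AnalyticAt ℂ u ζ →
        deriv (fun w : ℂ ↦ u w⁻¹) ζ⁻¹ = -ζ ^ 2 * deriv u ζ := by
      intro u hu
      have h2 : HasDerivAt (fun w : ℂ ↦ w⁻¹) (-((ζ⁻¹) ^ 2)⁻¹) ζ⁻¹ :=
        hasDerivAt_inv (inv_ne_zero hζ)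
      have h3 : HasDerivAt u (deriv u ζ) ((ζ⁻¹)⁻¹) := by
        rw [inv_inv]; exact hu.differentiableAt.hasDerivAt
      have h4 := HasDerivAt.comp (h₂ := u) ζ⁻¹ h3 h2
      have h5 : HasDerivAt (fun w : ℂ ↦ u w⁻¹) (deriv u ζ * -((ζ⁻¹) ^ 2)⁻¹) ζ⁻¹ := h4
      rw [h5.deriv]
      rw [inv_pow, inv_inv]; ring
    unfold eta
    rw [hd _ hζ1.an11, hd _ hζ1.an21]
    simp only [inv_inv]
    ring
  have hetac : ContinuousAt (eta F₁) 0 := by
    have h2 : ContinuousAt (fun z ↦ deriv (fun w ↦ (F₁ w).2.1) z / (F₁ z).2.1) 0 :=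
      hF₁.an21.deriv.continuousAt.div hF₁.an21.continuousAt hF₁r.2
    have h3 : ContinuousAt (fun z ↦ deriv (fun w ↦ (F₁ w).1.1) z / (F₁ z).1.1) 0 :=
      hF₁.an11.deriv.continuousAt.div hF₁.an11.continuousAt hF₁r.1
    exact h2.sub (continuousAt_const.mul h3)
  have hzη : Tendsto (fun z ↦ z * η z) (Bornology.cobounded ℂ) (𝓝 0) := by
    refine tendsto_of_inv ?_
    have h2 : Tendsto (fun ζ : ℂ ↦ -ζ * eta F₁ ζ) (𝓝[≠] 0) (𝓝 0) := by
      have h3 : ContinuousAt (fun ζ : ℂ ↦ -ζ * eta F₁ ζ) 0 :=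
        (continuousAt_id.neg).mul hetac
      have h4 := h3.tendsto
      simp only [neg_zero, zero_mul] at h4
      exact h4.mono_left nhdsWithin_le_nhds
    refine h2.congr' ?_
    filter_upwards [hηinf, self_mem_nhdsWithin] with ζ a1 a2
    have hζ : ζ ≠ 0 := a2
    rw [a1]; field_simp
  have hη0 : Tendsto η (Bornology.cobounded ℂ) (𝓝 0) := by
    have h2 := (tendsto_inv₀_cobounded (α := ℂ)).mul hzη
    rw [zero_mul] at h2
    refine h2.congr' ?_
    filter_upwards [hne] with z hz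
    rw [← mul_assoc, inv_mul_cancel₀ hz, one_mul]
  -- isolated singularities
  have hiso : ∀ z₀, ∀ᶠ z in 𝓝[≠] z₀, f₀ z ∈ Reg := by
    intro z₀
    have h2 : ∀ᶠ z in 𝓝[≠] z₀, (f₀ z).val.1.1 ≠ 0 := by
      refine isolated (a := fun z ↦ (f₀ z).val.1.1) (fun z₀ ↦ ?_) (z₁ := z₁) hz₁.1 z₀
      refine ⟨_, (hL z₀).an11, ?_⟩
      filter_upwards [(hL z₀).eventually] with z hz
      exact not_iff_not.1 hz.fst_ne
    have h3 : ∀ᶠ z in 𝓝[≠] z₀, (f₀ z).val.2.1 ≠ 0 := by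
      refine isolated (a := fun z ↦ (f₀ z).val.2.1) (fun z₀ ↦ ?_) (z₁ := z₁) hz₁.2 z₀
      refine ⟨_, (hL z₀).an21, ?_⟩
      filter_upwards [(hL z₀).eventually] with z hz
      exact not_iff_not.1 hz.snd_ne
    filter_upwards [h2, h3] with z a1 a2
    exact ⟨a1, a2⟩
  have hloc : ∀ z₀, ∃ (m n : ℕ) (h : ℂ → ℂ), AnalyticAt ℂ h z₀ ∧
      (∀ᶠ z in 𝓝[≠] z₀, f₀ z ∈ Reg ∧ η z = ((n : ℂ) - Complex.I * m) / (z - z₀) + h z) ∧
      (f₀ z₀ ∈ Reg → m = 0 ∧ n = 0 ∧ η z₀ = h z₀) ∧ (f₀ z₀ ∉ Reg → 0 < m + n) := by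
    intro z₀
    have hF := hL z₀
    have n1 : ¬ ∀ᶠ z in 𝓝 z₀, (L z₀ z).1.1 = 0 := by
      intro hcon
      have c1 : ∀ᶠ z in 𝓝[≠] z₀, (L z₀ z).1.1 = 0 := nhdsWithin_le_nhds hcon
      have c2 : ∀ᶠ z in 𝓝[≠] z₀, IsLift f₀ z (L z₀) := nhdsWithin_le_nhds hF.eventually
      obtain ⟨z, a1, a2, a3⟩ := ((hiso z₀).and (c1.and c2)).exists
      exact a3.fst_ne.1 a1.1 a2
    have n2 : ¬ ∀ᶠ z in 𝓝 z₀, (L z₀ z).2.1 = 0 := by
      intro hcon
      have c1 : ∀ᶠ z in 𝓝[≠] z₀, (L z₀ z).2.1 = 0 := nhdsWithin_le_nhds hcon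
      have c2 : ∀ᶠ z in 𝓝[≠] z₀, IsLift f₀ z (L z₀) := nhdsWithin_le_nhds hF.eventually
      obtain ⟨z, a1, a2, a3⟩ := ((hiso z₀).and (c1.and c2)).exists
      exact a3.snd_ne.1 a1.2 a2
    obtain ⟨m, g, hg1, hg2, hg3, hg4⟩ := logDeriv_local hF.an11 n1
    obtain ⟨n, k, hk1, hk2, hk3, hk4⟩ := logDeriv_local hF.an21 n2
    refine ⟨m, n, fun z ↦ k z - Complex.I * g z, hk1.sub (analyticAt_const.mul hg1), ?_, ?_, ?_⟩
    · filter_upwards [hg2, hk2, hiso z₀, nhdsWithin_le_nhds (hη2 z₀ _ hF)] with z a1 a2 a3 a4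
      refine ⟨a3, ?_⟩
      rw [a4 a3]
      unfold eta
      rw [a1.2, a2.2]
      ring
    · intro hr
      obtain ⟨b1, b2⟩ := hg3 (hF.fst_ne.1 hr.1)
      obtain ⟨b3, b4⟩ := hk3 (hF.snd_ne.1 hr.2)
      refine ⟨b1, b3, ?_⟩
      rw [hη1 z₀ _ hF hr]
      unfold eta
      rw [b2, b4]
    · intro hr
      have h2 : (L z₀ z₀).1.1 = 0 ∨ (L z₀ z₀).2.1 = 0 := by
        by_contra hcon
        push Not at hcon
        exact hr ⟨hF.fst_ne.2 hcon.1, hF.snd_ne.2 hcon.2⟩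
      rcases h2 with h2 | h2
      · have := hg4 h2; omega
      · have := hk4 h2; omega
  choose m n h hh1 hh2 hh3 hh4 using hloc
  have hBfin : {z | f₀ z ∉ Reg}.Finite := by
    by_contra hcon
    have hinfi : {z | f₀ z ∉ Reg}.Infinite := hcon
    have hbd : Bornology.IsBounded {z | f₀ z ∉ Reg} := by
      rw [← Bornology.isCobounded_compl_iff]
      have : {z | f₀ z ∉ Reg}ᶜ = {z | f₀ z ∈ Reg} := by ext z; simp
      rw [this]; exact hinf
    obtain ⟨R, hR⟩ := hbd.subset_closedBall 0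
    obtain ⟨x, -, hx⟩ := hinfi.exists_accPt_of_subset_isCompact (isCompact_closedBall (0 : ℂ) R) hR
    rw [accPt_iff_frequently] at hx
    have h2 := eventually_nhdsWithin_iff.1 (hiso x)
    obtain ⟨y, ⟨hy1, hy2⟩, hy3⟩ := (hx.and_eventually h2).exists
    exact hy2 (hy3 hy1)
  obtain ⟨B, hB⟩ : ∃ B : Finset ℂ, ∀ z, z ∈ B ↔ f₀ z ∉ Reg :=
    ⟨hBfin.toFinset, fun z ↦ by rw [Set.Finite.mem_toFinset]; rfl⟩
  obtain ⟨r, hr⟩ : ∃ r : ℂ → ℂ, r = fun b ↦ (n b : ℂ) - Complex.I * m b := ⟨_, rfl⟩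
  obtain ⟨R, hR⟩ : ∃ R : ℂ → ℂ, R = fun z ↦ ∑ b ∈ B, r b / (z - b) := ⟨_, rfl⟩
  obtain ⟨E, hE⟩ : ∃ E : ℂ → ℂ → ℂ, E = fun z₀ z ↦ h z₀ z - ∑ b ∈ B.erase z₀, r b / (z - b) :=
    ⟨_, rfl⟩
  have hEan : ∀ z₀, AnalyticAt ℂ (E z₀) z₀ := by
    intro z₀
    rw [hE]
    refine (hh1 z₀).sub ?_
    refine Finset.analyticAt_fun_sum _ fun b hb ↦ ?_
    refine analyticAt_const.div (analyticAt_id.sub analyticAt_const) ?_
    exact sub_ne_zero.2 (Finset.ne_of_mem_erase hb).symm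
  have hEreg : ∀ z, f₀ z ∈ Reg → E z z = η z - R z := by
    intro z hz
    have h2 : z ∉ B := by rw [hB]; simpa using hz
    rw [hE, hR]
    simp only []
    rw [Finset.erase_eq_of_notMem h2, (hh3 z hz).2.2]
  have hEev : ∀ z₀, ∀ᶠ z in 𝓝[≠] z₀, f₀ z ∈ Reg ∧ E z₀ z = η z - R z := by
    intro z₀
    filter_upwards [hh2 z₀] with z hz
    refine ⟨hz.1, ?_⟩
    rw [hz.2, hE, hR]
    simp only []
    by_cases hz₀ : z₀ ∈ B
    · rw [← Finset.add_sum_erase _ _ hz₀, hr]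
      ring
    · have h2 : f₀ z₀ ∈ Reg := by
        by_contra hcon
        exact hz₀ ((hB z₀).2 hcon)
      obtain ⟨b1, b2, -⟩ := hh3 z₀ h2
      rw [Finset.erase_eq_of_notMem hz₀, b1, b2]
      simp
  have hEd : Differentiable ℂ (fun z ↦ E z z) := by
    intro z₀
    have h2 : (fun z ↦ E z z) =ᶠ[𝓝 z₀] E z₀ := by
      have h3 := eventually_nhdsWithin_iff.1 (hEev z₀)
      filter_upwards [h3] with z hz
      by_cases hzz : z = z₀
      · rw [hzz]
      · obtain ⟨c1, c2⟩ := hz hzz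
        rw [hEreg z c1, c2]
    exact ((hEan z₀).differentiableAt).congr_of_eventuallyEq h2
  have hfrac : ∀ b : ℂ, Tendsto (fun z : ℂ ↦ z / (z - b)) (Bornology.cobounded ℂ) (𝓝 1) := by
    intro b
    refine tendsto_of_inv ?_
    have h2 : ContinuousAt (fun ζ : ℂ ↦ 1 / (1 - b * ζ)) 0 := by
      refine ContinuousAt.div (by fun_prop) (by fun_prop) ?_
      simp
    have h3 := h2.tendsto
    simp only [mul_zero, sub_zero, div_one] at h3
    refine (h3.mono_left nhdsWithin_le_nhds).congr' ?_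
    have h4 : ∀ᶠ ζ : ℂ in 𝓝[≠] 0, 1 - b * ζ ≠ 0 := by
      refine nhdsWithin_le_nhds ?_
      have h5 : ContinuousAt (fun ζ : ℂ ↦ 1 - b * ζ) 0 := by fun_prop
      exact h5.eventually_ne (by simp)
    filter_upwards [h4, self_mem_nhdsWithin] with ζ a1 a2
    have hζ : ζ ≠ 0 := a2
    have h6 : ζ⁻¹ - b = (1 - b * ζ) / ζ := by field_simp
    rw [h6]
    field_simp
  have hzR : Tendsto (fun z ↦ z * R z) (Bornology.cobounded ℂ) (𝓝 (∑ b ∈ B, r b)) := by
    have h2 : Tendsto (fun z : ℂ ↦ ∑ b ∈ B, r b * (z / (z - b))) (Bornology.cobounded ℂ)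
        (𝓝 (∑ b ∈ B, r b * 1)) :=
      tendsto_finsetSum _ fun b _ ↦ (hfrac b).const_mul (r b)
    simp only [mul_one] at h2
    refine h2.congr fun z ↦ ?_
    rw [hR]
    simp only []
    rw [Finset.mul_sum]
    refine Finset.sum_congr rfl fun b _ ↦ ?_
    ring
  have hR0 : Tendsto R (Bornology.cobounded ℂ) (𝓝 0) := by
    have h2 := (tendsto_inv₀_cobounded (α := ℂ)).mul hzR
    rw [zero_mul] at h2
    refine h2.congr' ?_
    filter_upwards [hne] with z hz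
    rw [← mul_assoc, inv_mul_cancel₀ hz, one_mul]
  have hE0 : ∀ z, E z z = 0 := by
    intro z
    refine hEd.apply_eq_of_tendsto_cocompact z ?_
    rw [← Metric.cobounded_eq_cocompact]
    have h2 := hη0.sub hR0
    rw [sub_zero] at h2
    refine h2.congr' ?_
    filter_upwards [hinf] with z hz
    exact (hEreg z hz).symm
  have hηR : ∀ z, f₀ z ∈ Reg → η z = R z := by
    intro z hz
    have h2 := hEreg z hz
    rw [hE0] at h2
    exact (sub_eq_zero.1 h2.symm)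
  have hsum : ∑ b ∈ B, r b = 0 := by
    refine tendsto_nhds_unique hzR (hzη.congr' ?_)
    filter_upwards [hinf] with z hz
    rw [hηR z hz]
  have hBempty : B = ∅ := by
    rw [Finset.eq_empty_iff_forall_notMem]
    intro b hb
    have h2 := congrArg Complex.re hsum
    have h3 := congrArg Complex.im hsum
    rw [hr] at h2 h3
    simp only [Complex.re_sum, Complex.im_sum, Complex.sub_re, Complex.sub_im, Complex.natCast_re,
      Complex.natCast_im, Complex.mul_re, Complex.mul_im, Complex.I_re, Complex.I_im, zero_mul,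
      one_mul, zero_sub, mul_zero, sub_zero, Complex.zero_re, Complex.zero_im, zero_add,
      Finset.sum_neg_distrib, neg_eq_zero] at h2 h3
    have h4 : n b = 0 := by
      have h5 : (∑ b ∈ B, (n b : ℝ)) = ((∑ b ∈ B, n b : ℕ) : ℝ) := by push_cast; rfl
      have h6 : (∑ b ∈ B, n b : ℕ) = 0 := by
        have : ((∑ b ∈ B, n b : ℕ) : ℝ) = 0 := by rw [← h5]; linarith
        exact_mod_cast this
      exact (Finset.sum_eq_zero_iff.1 h6) b hb
    have h4' : m b = 0 := by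
      have h5 : (∑ b ∈ B, (m b : ℝ)) = ((∑ b ∈ B, m b : ℕ) : ℝ) := by push_cast; rfl
      have h6 : (∑ b ∈ B, m b : ℕ) = 0 := by
        have : ((∑ b ∈ B, m b : ℕ) : ℝ) = 0 := by rw [← h5]; linarith
        exact_mod_cast this
      exact (Finset.sum_eq_zero_iff.1 h6) b hb
    have h7 := hh4 b ((hB b).1 hb)
    omega
  have hall : ∀ z, f₀ z ∈ Reg := by
    intro z
    by_contra hcon
    have h2 := (hB z).2 hcon
    rw [hBempty] at h2
    exact absurd h2 (Finset.notMem_empty z)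
  have hη00 : ∀ z, η z = 0 := by
    intro z
    rw [hηR z (hall z), hR, hBempty]
    simp
  -- the ratios vanish
  have hZ : ∀ z, (f₀ z).val.1.2 = 0 := by
    have h2 : Differentiable ℂ (fun z ↦ (f₀ z).val.1.2 / (f₀ z).val.1.1) := by
      intro z₀
      have h3 : (fun z ↦ (f₀ z).val.1.2 / (f₀ z).val.1.1) =ᶠ[𝓝 z₀]
          fun z ↦ (L z₀ z).1.2 / (L z₀ z).1.1 := by
        filter_upwards [(hL z₀).eventually] with z hz
        rw [hz.eq.self_of_nhds, val12_eq hz.good]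
      exact (((hL z₀).an12.div (hL z₀).an11
        ((hL z₀).fst_ne.1 (hall z₀).1)).differentiableAt).congr_of_eventuallyEq h3
    have h3 : Tendsto (fun z ↦ (f₀ z).val.1.2 / (f₀ z).val.1.1) (Bornology.cobounded ℂ) (𝓝 0) := by
      have h4 : ContinuousAt (fun ζ ↦ (f₁ ζ).val.1.2 / (f₁ ζ).val.1.1) 0 := by
        have hc : Continuous (fun ζ ↦ (f₁ ζ).val) := CEX.continuous_val.comp h1.continuous
        refine ContinuousAt.div hc.fst.snd.continuousAt hc.fst.fst.continuousAt ?_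
        rw [hb]; exact base_mem_reg.1
      have h5 := h4.tendsto
      rw [hb, base_val] at h5
      simp only [zero_div] at h5
      refine (h5.comp (tendsto_inv₀_cobounded (α := ℂ))).congr' ?_
      filter_upwards [hne] with z hz
      simp only [Function.comp_apply]
      rw [hglue z hz]
    intro z
    have h4 : (f₀ z).val.1.2 / (f₀ z).val.1.1 = 0 := by
      refine h2.apply_eq_of_tendsto_cocompact z ?_
      rw [← Metric.cobounded_eq_cocompact]
      exact h3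
    exact (div_eq_zero_iff.1 h4).resolve_right (hall z).1
  have hZ' : ∀ z, (f₀ z).val.2.2 = 0 := by
    have h2 : Differentiable ℂ (fun z ↦ (f₀ z).val.2.2 / (f₀ z).val.2.1) := by
      intro z₀
      have h3 : (fun z ↦ (f₀ z).val.2.2 / (f₀ z).val.2.1) =ᶠ[𝓝 z₀]
          fun z ↦ (L z₀ z).2.2 / (L z₀ z).2.1 := by
        filter_upwards [(hL z₀).eventually] with z hz
        rw [hz.eq.self_of_nhds, val22_eq hz.good]
      exact (((hL z₀).an22.div (hL z₀).an21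
        ((hL z₀).snd_ne.1 (hall z₀).2)).differentiableAt).congr_of_eventuallyEq h3
    have h3 : Tendsto (fun z ↦ (f₀ z).val.2.2 / (f₀ z).val.2.1) (Bornology.cobounded ℂ) (𝓝 0) := by
      have h4 : ContinuousAt (fun ζ ↦ (f₁ ζ).val.2.2 / (f₁ ζ).val.2.1) 0 := by
        have hc : Continuous (fun ζ ↦ (f₁ ζ).val) := CEX.continuous_val.comp h1.continuous
        refine ContinuousAt.div hc.snd.snd.continuousAt hc.snd.fst.continuousAt ?_
        rw [hb]; exact base_mem_reg.2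
      have h5 := h4.tendsto
      rw [hb, base_val] at h5
      simp only [zero_div] at h5
      refine (h5.comp (tendsto_inv₀_cobounded (α := ℂ))).congr' ?_
      filter_upwards [hne] with z hz
      simp only [Function.comp_apply]
      rw [hglue z hz]
    intro z
    have h4 : (f₀ z).val.2.2 / (f₀ z).val.2.1 = 0 := by
      refine h2.apply_eq_of_tendsto_cocompact z ?_
      rw [← Metric.cobounded_eq_cocompact]
      exact h3
    exact (div_eq_zero_iff.1 h4).resolve_right (hall z).2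
  -- the map is locally constant
  have hlc : IsLocallyConstant f₀ := by
    rw [IsLocallyConstant.iff_eventually_eq]
    intro z₀
    obtain ⟨F, hFdef⟩ : ∃ F, F = L z₀ := ⟨_, rfl⟩
    have hF : IsLift f₀ z₀ F := by rw [hFdef]; exact hL z₀
    have hu0 : (F z₀).1.1 ≠ 0 := hF.fst_ne.1 (hall z₀).1
    obtain ⟨u, hu⟩ : ∃ u : ℂ → ℂ, u = fun z ↦ (F z).1.1 := ⟨_, rfl⟩
    obtain ⟨v, hv⟩ : ∃ v : ℂ → ℂ, v = fun z ↦ (F z).2.1 := ⟨_, rfl⟩
    have hua : AnalyticAt ℂ u z₀ := by rw [hu]; exact hF.an11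
    have hva : AnalyticAt ℂ v z₀ := by rw [hv]; exact hF.an21
    have hu0' : u z₀ ≠ 0 := by rw [hu]; exact hu0
    have hslit : ∀ᶠ z in 𝓝 z₀, u z / u z₀ ∈ Complex.slitPlane := by
      have h2 : ContinuousAt (fun z ↦ u z / u z₀) z₀ := hua.continuousAt.div_const _
      refine h2 (Complex.isOpen_slitPlane.mem_nhds ?_)
      change u z₀ / u z₀ ∈ Complex.slitPlane
      rw [div_self hu0']
      exact Complex.one_mem_slitPlane
    obtain ⟨K, hK⟩ : ∃ K : ℂ → ℂ, K = fun z ↦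
      Complex.exp (Complex.I * -Complex.log (u z / u z₀)) * v z := ⟨_, rfl⟩
    obtain ⟨ρ, hρ, hball⟩ := Metric.eventually_nhds_iff_ball.1
      (hslit.and (hF.eventually.and (hua.eventually_analyticAt.and hva.eventually_analyticAt)))
    have hKd : ∀ z ∈ Metric.ball z₀ ρ, HasDerivAt K 0 z := by
      intro z hz
      obtain ⟨b1, b2, b3, b4⟩ := hball z hz
      have huz : u z ≠ 0 := by rw [hu]; exact b2.fst_ne.1 (hall z).1
      have hvz : v z ≠ 0 := by rw [hv]; exact b2.snd_ne.1 (hall z).2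
      have h2 : HasDerivAt (fun z ↦ Complex.log (u z / u z₀)) (deriv u z / u z₀ / (u z / u z₀)) z :=
        (b3.differentiableAt.hasDerivAt.div_const (u z₀)).clog b1
      have h3 : HasDerivAt K (Complex.exp (Complex.I * -Complex.log (u z / u z₀)) *
          (Complex.I * -(deriv u z / u z₀ / (u z / u z₀))) * v z +
          Complex.exp (Complex.I * -Complex.log (u z / u z₀)) * deriv v z) z := by
        rw [hK]
        exact ((h2.neg.const_mul Complex.I).cexp).mul b4.differentiableAt.hasDerivAt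
      have h4 : deriv v z / v z - Complex.I * (deriv u z / u z) = 0 := by
        have h5 := hη1 z F b2 (hall z)
        rw [hη00] at h5
        rw [hu, hv]
        exact h5.symm
      have h6 : Complex.exp (Complex.I * -Complex.log (u z / u z₀)) *
          (Complex.I * -(deriv u z / u z₀ / (u z / u z₀))) * v z +
          Complex.exp (Complex.I * -Complex.log (u z / u z₀)) * deriv v z =
          Complex.exp (Complex.I * -Complex.log (u z / u z₀)) * v z *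
            (deriv v z / v z - Complex.I * (deriv u z / u z)) := by
        field_simp
        ring
      rw [h6, h4, mul_zero] at h3
      exact h3
    have hKc : ∀ z ∈ Metric.ball z₀ ρ, K z = K z₀ := by
      intro z hz
      refine Metric.isOpen_ball.is_const_of_deriv_eq_zero (𝕜 := ℂ) (f := K)
        (convex_ball z₀ ρ).isPreconnected ?_ ?_ hz (Metric.mem_ball_self hρ)
      · intro w hw
        exact (hKd w hw).differentiableAt.differentiableWithinAt
      · intro w hw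
        exact (hKd w hw).deriv
    have hpt : ∀ z ∈ Metric.ball z₀ ρ, f₀ z = toX ((u z₀, 0), (K z₀, 0)) := by
      intro z hz
      obtain ⟨b1, b2, b3, b4⟩ := hball z hz
      have huz : u z ≠ 0 := by rw [hu]; exact b2.fst_ne.1 (hall z).1
      have e1 : (F z).1.2 = 0 := by
        have h2 : (toX (F z)).val.1.2 = 0 := by rw [← b2.eq.self_of_nhds]; exact hZ z
        rw [toX_val b2.good] at h2
        exact (mul_eq_zero.1 h2).resolve_left (Complex.exp_ne_zero _)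
      have e2 : (F z).2.2 = 0 := by
        have h2 : (toX (F z)).val.2.2 = 0 := by rw [← b2.eq.self_of_nhds]; exact hZ' z
        rw [toX_val b2.good] at h2
        exact (mul_eq_zero.1 h2).resolve_left (Complex.exp_ne_zero _)
      rw [b2.eq.self_of_nhds, ← toX_tw b2.good (-Complex.log (u z / u z₀)), ← hKc z hz]
      congr 1
      refine Prod.ext (Prod.ext ?_ ?_) (Prod.ext ?_ ?_)
      · change Complex.exp (-Complex.log (u z / u z₀)) * (F z).1.1 = u z₀
        rw [Complex.exp_neg, Complex.exp_log (div_ne_zero huz hu0')]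
        have h2 : (F z).1.1 = u z := by rw [hu]
        rw [h2]
        field_simp
      · change Complex.exp (-Complex.log (u z / u z₀)) * (F z).1.2 = 0
        rw [e1, mul_zero]
      · change Complex.exp (Complex.I * -Complex.log (u z / u z₀)) * (F z).2.1 = K z
        rw [hK, hv]
      · change Complex.exp (Complex.I * -Complex.log (u z / u z₀)) * (F z).2.2 = 0
        rw [e2, mul_zero]
    filter_upwards [Metric.ball_mem_nhds z₀ hρ] with z hz
    rw [hpt z hz, hpt z₀ (Metric.mem_ball_self hρ)]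
  exact hlc.apply_eq_of_isPreconnected isPreconnected_univ (Set.mem_univ z) (Set.mem_univ w)

theorem no_rational : ¬ HasRationalCurve (ℂ × ℂ × ℂ) CEX := by
  rintro ⟨f₀, f₁, h0, h1, hg, z, w, hzw⟩
  obtain ⟨k, hk⟩ := transitive (f₁ 0)
  have hsm : ∀ f : ℂ → CEX, ContMDiff 𝓘(ℂ, ℂ) 𝓘(ℂ, ℂ × ℂ × ℂ) ω f →
      ContMDiff 𝓘(ℂ, ℂ) 𝓘(ℂ, ℂ × ℂ × ℂ) ω (fun z ↦ k⁻¹ • f z) := fun f hf ↦
    contMDiff_smul'.comp (contMDiff_const.prodMk hf)
  have h2 := rational_const (hsm f₀ h0) (hsm f₁ h1) (fun z hz ↦ by rw [hg z hz])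
    (by rw [← hk, inv_smul_smul]) z w
  exact hzw (smul_left_cancel k⁻¹ h2)

end Pool.Agent.Lib.MP_69200a_ag.CE
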