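import Mathlib
import Pool.Agent.Lib.MP_69200a_ag.CE.Space

/-!
The Calabi-Eckmann manifold `S³ × S³` is simply connected.
-/

open scoped Topology unitInterval ContDiff ContinuousMap
open Filter Set

noncomputable section

namespace Pool.Agent.Lib.MP_69200a_ag.CE

/-- The punctured plane `ℂ² ∖ 0`. -/
abbrev N2 : Type := {u : ℂ × ℂ // u ≠ 0}

/-- Smooth approximation of a path with fixed endpoints. -/
theorem approx_path {f : ℝ → ℂ × ℂ} (hf : Continuous f) {ε : ℝ} (hε : 0 < ε) :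
    ∃ P : ℝ → ℂ × ℂ, ContDiff ℝ 1 P ∧ P 0 = f 0 ∧ P 1 = f 1 ∧
      ∀ t ∈ Set.Icc (0 : ℝ) 1, ‖P t - f t‖ < ε := by
  have hε8 : 0 < ε / 8 := by positivity
  have key : ∀ g : ℝ → ℝ, Continuous g → ∃ q : Polynomial ℝ, ∀ x ∈ Set.Icc (0 : ℝ) 1,
      |q.eval x - g x| < ε / 8 := fun g hg ↦
    exists_polynomial_near_of_continuousOn 0 1 g hg.continuousOn _ hε8
  obtain ⟨q1, h1⟩ := key (fun t ↦ (f t).1.re) (by fun_prop)
  obtain ⟨q2, h2⟩ := key (fun t ↦ (f t).1.im) (by fun_prop)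
  obtain ⟨q3, h3⟩ := key (fun t ↦ (f t).2.re) (by fun_prop)
  obtain ⟨q4, h4⟩ := key (fun t ↦ (f t).2.im) (by fun_prop)
  obtain ⟨P, hP⟩ : ∃ P : ℝ → ℂ × ℂ, P = fun t ↦
    (((q1.eval t : ℝ) : ℂ) + ((q2.eval t : ℝ) : ℂ) * Complex.I,
      ((q3.eval t : ℝ) : ℂ) + ((q4.eval t : ℝ) : ℂ) * Complex.I) := ⟨_, rfl⟩
  have hpoly : ∀ q : Polynomial ℝ, ContDiff ℝ 1 (fun t : ℝ ↦ ((q.eval t : ℝ) : ℂ)) := by
    intro q
    have h0 : ContDiff ℝ 1 (fun t : ℝ ↦ q.aeval t) := q.contDiff_aeval 1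
    exact Complex.ofRealCLM.contDiff.comp h0
  have hPc : ContDiff ℝ 1 P := by
    rw [hP]
    exact ((hpoly q1).add ((hpoly q2).mul contDiff_const)).prodMk
      ((hpoly q3).add ((hpoly q4).mul contDiff_const))
  have hb : ∀ t ∈ Set.Icc (0 : ℝ) 1, ‖P t - f t‖ < ε / 4 := by
    intro t ht
    rw [Prod.norm_def, max_lt_iff]
    have hcomp : ∀ (a b : ℝ) (z : ℂ), |a - z.re| < ε / 8 → |b - z.im| < ε / 8 →
        ‖(a : ℂ) + (b : ℂ) * Complex.I - z‖ < ε / 4 := by
      intro a b z ha hb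
      refine (Complex.norm_le_abs_re_add_abs_im _).trans_lt ?_
      have e1 : ((a : ℂ) + (b : ℂ) * Complex.I - z).re = a - z.re := by simp
      have e2 : ((a : ℂ) + (b : ℂ) * Complex.I - z).im = b - z.im := by simp
      rw [e1, e2]; linarith
    rw [hP]
    exact ⟨hcomp _ _ _ (h1 t ht) (h2 t ht), hcomp _ _ _ (h3 t ht) (h4 t ht)⟩
  refine ⟨fun t ↦ P t + ((1 - t) • (f 0 - P 0) + t • (f 1 - P 1)), ?_, ?_, ?_, ?_⟩
  · have e1 : ContDiff ℝ 1 (fun t : ℝ ↦ (1 - t) • (f 0 - P 0)) := by fun_prop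
    have e2 : ContDiff ℝ 1 (fun t : ℝ ↦ t • (f 1 - P 1)) := by fun_prop
    exact hPc.add (e1.add e2)
  · simp
  · simp
  · intro t ht
    have a1 := hb t ht
    have a2 := hb 0 ⟨le_refl _, zero_le_one⟩
    have a3 := hb 1 ⟨zero_le_one, le_refl _⟩
    have e : P t + ((1 - t) • (f 0 - P 0) + t • (f 1 - P 1)) - f t =
        (P t - f t) + ((1 - t) • (f 0 - P 0) + t • (f 1 - P 1)) := by abel
    rw [e]
    have b2 : ‖(1 - t) • (f 0 - P 0)‖ ≤ ε / 4 := by
      rw [norm_smul, Real.norm_eq_abs, abs_of_nonneg (by linarith [ht.2] : (0 : ℝ) ≤ 1 - t),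
        norm_sub_rev]
      have := norm_nonneg (P 0 - f 0)
      nlinarith [ht.1, ht.2]
    have b3 : ‖t • (f 1 - P 1)‖ ≤ ε / 4 := by
      rw [norm_smul, Real.norm_eq_abs, abs_of_nonneg ht.1, norm_sub_rev]
      have := norm_nonneg (P 1 - f 1)
      nlinarith [ht.1, ht.2]
    calc ‖(P t - f t) + ((1 - t) • (f 0 - P 0) + t • (f 1 - P 1))‖
        ≤ ‖P t - f t‖ + (‖(1 - t) • (f 0 - P 0)‖ + ‖t • (f 1 - P 1)‖) :=
          (norm_add_le _ _).trans (add_le_add le_rfl (norm_add_le _ _))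
      _ < ε := by linarith

/-- Close paths in the punctured plane are homotopic. -/
theorem straight_homotopic {x y : N2} (p q : Path x y) (ε : ℝ)
    (h1 : ∀ t, ε ≤ ‖(p t : ℂ × ℂ)‖) (h2 : ∀ t, ‖(q t : ℂ × ℂ) - (p t : ℂ × ℂ)‖ < ε) :
    p.Homotopic q := by
  have hne : ∀ s t : I, (p t : ℂ × ℂ) + (s : ℝ) • ((q t : ℂ × ℂ) - (p t : ℂ × ℂ)) ≠ 0 := by
    intro s t hcon
    have h3 : (p t : ℂ × ℂ) = -((s : ℝ) • ((q t : ℂ × ℂ) - (p t : ℂ × ℂ))) :=
      eq_neg_of_add_eq_zero_left hcon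
    have h4 := congrArg norm h3
    rw [norm_neg, norm_smul, Real.norm_eq_abs, abs_of_nonneg s.2.1] at h4
    have h5 := h1 t
    have h6 := h2 t
    have h7 := norm_nonneg ((q t : ℂ × ℂ) - (p t : ℂ × ℂ))
    have h8 : (s : ℝ) ≤ 1 := s.2.2
    have h9 : (0 : ℝ) ≤ s := s.2.1
    nlinarith
  refine ⟨{
    toFun := fun st ↦ ⟨(p st.2 : ℂ × ℂ) + (st.1 : ℝ) • ((q st.2 : ℂ × ℂ) - (p st.2 : ℂ × ℂ)),
      hne st.1 st.2⟩
    continuous_toFun := ?_
    map_zero_left := ?_
    map_one_left := ?_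
    prop' := ?_ }⟩
  · refine Continuous.subtype_mk ?_ _
    fun_prop
  · intro t
    apply Subtype.ext
    simp
  · intro t
    apply Subtype.ext
    simp
  · intro s t ht
    apply Subtype.ext
    rcases ht with ht | ht
    · rw [ht]
      simp
    · rw [mem_singleton_iff] at ht
      rw [ht]
      simp

theorem homotopic_all {x y : N2} (p₁ p₂ : Path x y) : p₁.Homotopic p₂ := by
  -- lower bounds
  have hlow : ∀ p : Path x y, ∃ ε > 0, ∀ t, ε ≤ ‖(p t : ℂ × ℂ)‖ := by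
    intro p
    have hc : Continuous fun t : I ↦ ‖(p t : ℂ × ℂ)‖ := by fun_prop
    obtain ⟨t₀, -, ht₀⟩ := isCompact_univ.exists_isMinOn (univ_nonempty) hc.continuousOn
    exact ⟨‖(p t₀ : ℂ × ℂ)‖, norm_pos_iff.2 (p t₀).2, fun t ↦ ht₀ (mem_univ t)⟩
  have happ : ∀ p : Path x y, ∃ (P : ℝ → ℂ × ℂ), ContDiff ℝ 1 P ∧ P 0 = x ∧ P 1 = y ∧
      ∀ hP : (∀ t : I, P t ≠ 0), ∀ q : Path x y, (∀ t, (q t : ℂ × ℂ) = P t) → p.Homotopic q := by
    intro p
    obtain ⟨ε, hε, hεp⟩ := hlow p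
    obtain ⟨P, h1, h2, h3, h4⟩ := approx_path
      (f := fun t : ℝ ↦ ((p.extend t : N2) : ℂ × ℂ)) (by fun_prop) hε
    refine ⟨P, h1, ?_, ?_, ?_⟩
    · rw [h2]; simp
    · rw [h3]; simp
    · intro _ q hq
      refine straight_homotopic p q ε hεp fun t ↦ ?_
      have h5 := h4 t t.2
      rw [Path.extend_apply p t.2] at h5
      rw [hq]; exact h5
  have hnz : ∀ p : Path x y, ∃ (P : ℝ → ℂ × ℂ), ContDiff ℝ 1 P ∧ P 0 = x ∧ P 1 = y ∧
      (∀ t : I, P t ≠ 0) ∧ ∀ q : Path x y, (∀ t, (q t : ℂ × ℂ) = P t) → p.Homotopic q := by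
    intro p
    obtain ⟨ε, hε, hεp⟩ := hlow p
    obtain ⟨P, h1, h2, h3, h4⟩ := approx_path
      (f := fun t : ℝ ↦ ((p.extend t : N2) : ℂ × ℂ)) (by fun_prop) hε
    have h6 : ∀ t : I, ‖P t - (p t : ℂ × ℂ)‖ < ε := by
      intro t
      have h5 := h4 t t.2
      rwa [Path.extend_apply p t.2] at h5
    refine ⟨P, h1, ?_, ?_, ?_, ?_⟩
    · rw [h2]; simp
    · rw [h3]; simp
    · intro t h0
      have h7 := h6 t
      rw [h0, zero_sub, norm_neg] at h7
      exact absurd (hεp t) (not_le.2 h7)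
    · intro q hq
      refine straight_homotopic p q ε hεp fun t ↦ ?_
      rw [hq]; exact h6 t
  obtain ⟨P₁, a1, a2, a3, a4, a5⟩ := hnz p₁
  obtain ⟨P₂, b1, b2, b3, b4, b5⟩ := hnz p₂
  -- a direction missed by both cones
  have hcone : ∀ P : ℝ → ℂ × ℂ, ContDiff ℝ 1 P →
      dimH (range fun q : ℝ × ℝ ↦ q.1 • P q.2) ≤ 2 := by
    intro P hP
    have h1 : ContDiff ℝ 1 fun q : ℝ × ℝ ↦ q.1 • P q.2 :=
      contDiff_fst.smul (hP.comp contDiff_snd)
    have h2 := h1.dimH_range_le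
    rwa [Module.finrank_prod, Module.finrank_self] at h2
  obtain ⟨w, hw⟩ : ∃ w : ℂ × ℂ, w ∉ (range fun q : ℝ × ℝ ↦ q.1 • P₁ q.2) ∪
      range fun q : ℝ × ℝ ↦ q.1 • P₂ q.2 := by
    have h1 : dimH ((range fun q : ℝ × ℝ ↦ q.1 • P₁ q.2) ∪
        range fun q : ℝ × ℝ ↦ q.1 • P₂ q.2) < Module.finrank ℝ (ℂ × ℂ) := by
      rw [dimH_union]
      refine (max_le (hcone P₁ a1) (hcone P₂ b1)).trans_lt ?_
      rw [Module.finrank_prod, Complex.finrank_real_complex]
      norm_num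
    obtain ⟨w, hw⟩ := (dense_compl_of_dimH_lt_finrank h1).nonempty
    exact ⟨w, hw⟩
  rw [mem_union, not_or] at hw
  have hw0 : w ≠ 0 := by
    rintro rfl
    exact hw.1 ⟨(0, 0), by simp⟩
  obtain ⟨D, hD⟩ : ∃ D : Set (ℂ × ℂ), D = {u | ∀ s : ℝ, 0 ≤ s → u ≠ s • w} := ⟨_, rfl⟩
  have hDN : ∀ u ∈ D, u ≠ 0 := by
    intro u hu h0
    rw [hD] at hu
    exact hu 0 le_rfl (by rw [h0, zero_smul])
  have hPD : ∀ P : ℝ → ℂ × ℂ, (∀ t : I, P t ≠ 0) →
      w ∉ (range fun q : ℝ × ℝ ↦ q.1 • P q.2) → ∀ t : I, P t ∈ D := by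
    intro P hP hwP t
    rw [hD]
    intro s hs hcon
    rcases hs.eq_or_lt with h | h
    · rw [← h, zero_smul] at hcon
      exact hP t hcon
    · apply hwP
      refine ⟨(s⁻¹, t), ?_⟩
      change s⁻¹ • P t = w
      rw [hcon, smul_smul, inv_mul_cancel₀ h.ne', one_smul]
  have hstar : StarConvex ℝ (-w) D := by
    intro u hu a b ha hb hab
    rw [hD] at hu ⊢
    intro s hs hcon
    rcases hb.eq_or_lt with h | h
    · have ha1 : a = 1 := by linarith
      rw [← h, ha1, one_smul, zero_smul, add_zero] at hcon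
      have h1 : (s + 1) • w = 0 := by
        rw [add_smul, one_smul, ← hcon]; abel
      rcases smul_eq_zero.1 h1 with h2 | h2
      · linarith
      · exact hw0 h2
    · refine hu ((s + a) / b) (by positivity) ?_
      have h1 : b • u = (s + a) • w := by
        rw [add_smul, ← hcon, smul_neg]; abel
      rw [div_eq_inv_mul, mul_smul, ← h1, smul_smul, inv_mul_cancel₀ h.ne', one_smul]
  have hDne : D.Nonempty := by
    refine ⟨-w, ?_⟩
    rw [hD]
    intro s hs hcon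
    have h1 : (s + 1) • w = 0 := by
      rw [add_smul, one_smul, ← hcon]; abel
    rcases smul_eq_zero.1 h1 with h2 | h2
    · linarith
    · exact hw0 h2
  have : ContractibleSpace D := hstar.contractibleSpace hDne
  have hxD : (x : ℂ × ℂ) ∈ D := by
    have := hPD P₁ a4 hw.1 0
    rw [Set.Icc.coe_zero, a2] at this
    exact this
  have hyD : (y : ℂ × ℂ) ∈ D := by
    have := hPD P₁ a4 hw.1 1
    rw [Set.Icc.coe_one, a3] at this
    exact this
  obtain ⟨r₁, hr₁⟩ : ∃ r : Path (⟨x, hxD⟩ : D) ⟨y, hyD⟩, ∀ t, (r t : ℂ × ℂ) = P₁ t :=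
    ⟨{ toFun := fun t ↦ ⟨P₁ t, hPD P₁ a4 hw.1 t⟩
       continuous_toFun := (a1.continuous.comp continuous_subtype_val).subtype_mk _
       source' := by apply Subtype.ext; change P₁ ((0 : I) : ℝ) = x; rw [Set.Icc.coe_zero, a2]
       target' := by apply Subtype.ext; change P₁ ((1 : I) : ℝ) = y; rw [Set.Icc.coe_one, a3] },
      fun t ↦ rfl⟩
  obtain ⟨r₂, hr₂⟩ : ∃ r : Path (⟨x, hxD⟩ : D) ⟨y, hyD⟩, ∀ t, (r t : ℂ × ℂ) = P₂ t :=
    ⟨{ toFun := fun t ↦ ⟨P₂ t, hPD P₂ b4 hw.2 t⟩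
       continuous_toFun := (b1.continuous.comp continuous_subtype_val).subtype_mk _
       source' := by apply Subtype.ext; change P₂ ((0 : I) : ℝ) = x; rw [Set.Icc.coe_zero, b2]
       target' := by apply Subtype.ext; change P₂ ((1 : I) : ℝ) = y; rw [Set.Icc.coe_one, b3] },
      fun t ↦ rfl⟩
  have hh := SimplyConnectedSpace.paths_homotopic r₁ r₂
  let j : C(D, N2) := ⟨fun u ↦ ⟨u, hDN u u.2⟩, continuous_subtype_val.subtype_mk _⟩
  let q₁ : Path x y := r₁.map j.continuous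
  let q₂ : Path x y := r₂.map j.continuous
  have hq12 : q₁.Homotopic q₂ := hh.map j
  have h1 : p₁.Homotopic q₁ := a5 q₁ fun t ↦ hr₁ t
  have h2 : p₂.Homotopic q₂ := b5 q₂ fun t ↦ hr₂ t
  exact (h1.trans hq12).trans h2.symm

instance sc_punctured : SimplyConnectedSpace N2 := by
  rw [simply_connected_iff_paths_homotopic']
  refine ⟨?_, fun p₁ p₂ ↦ homotopic_all p₁ p₂⟩
  have hrank : 1 < Module.rank ℝ (ℂ × ℂ) := by
    rw [rank_prod', Complex.rank_real_complex]
    norm_num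
  have h := isPathConnected_compl_singleton_of_one_lt_rank hrank (0 : ℂ × ℂ)
  exact isPathConnected_iff_pathConnectedSpace.1 h

instance sc_prod : SimplyConnectedSpace (N2 × N2) := by
  rw [simply_connected_iff_paths_homotopic]
  refine ⟨inferInstance, ?_⟩
  rintro ⟨x, x'⟩ ⟨y, y'⟩
  refine ⟨fun p q ↦ ?_⟩
  rw [← Path.Homotopic.prod_projLeft_projRight p, ← Path.Homotopic.prod_projLeft_projRight q,
    Subsingleton.elim (Path.Homotopic.projLeft p) (Path.Homotopic.projLeft q),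
    Subsingleton.elim (Path.Homotopic.projRight p) (Path.Homotopic.projRight q)]

/-- The pair of vectors of a point of the product. -/
def toW (q : N2 × N2) : W := (q.1.1, q.2.1)

theorem toW_good (q : N2 × N2) : Good (toW q) := ⟨q.1.2, q.2.2⟩

theorem continuous_toW : Continuous toW := by
  unfold toW; fun_prop

instance CEX.simplyConnected : SimplyConnectedSpace CEX := by
  have hr : Continuous (fun q : N2 × N2 ↦ toX (toW q)) := by
    rw [continuous_iff_continuousAt]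
    intro q
    exact ContinuousAt.comp (f := toW) (continuousAt_toX (toW_good q))
      continuous_toW.continuousAt
  have hi : Continuous (fun x : CEX ↦ ((⟨x.val.1, x.good.1⟩, ⟨x.val.2, x.good.2⟩) : N2 × N2)) :=
    (continuous_fst.comp CEX.continuous_val).subtype_mk _ |>.prodMk
      ((continuous_snd.comp CEX.continuous_val).subtype_mk _)
  have htau : Continuous (fun q : N2 × N2 ↦ tau (toW q)) := by
    rw [continuous_iff_continuousAt]
    intro q
    exact ContinuousAt.comp (f := toW) (continuousAt_tau (toW_good q))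
      continuous_toW.continuousAt
  let e : CEX ≃ₕ (N2 × N2) :=
    { toFun := ⟨_, hi⟩
      invFun := ⟨_, hr⟩
      left_inv := by
        have h1 : (⟨_, hr⟩ : C(N2 × N2, CEX)).comp (⟨_, hi⟩ : C(CEX, N2 × N2)) =
            ContinuousMap.id CEX := by
          ext x
          exact toX_of_val x
        rw [h1]
      right_inv := by
        refine ⟨{
          toFun := fun sq ↦ (⟨(tw ((1 - (sq.1 : ℝ) : ℝ) * tau (toW sq.2)) (toW sq.2)).1,
              ((toW_good sq.2).tw _).1⟩,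
            ⟨(tw ((1 - (sq.1 : ℝ) : ℝ) * tau (toW sq.2)) (toW sq.2)).2,
              ((toW_good sq.2).tw _).2⟩)
          continuous_toFun := ?_
          map_zero_left := ?_
          map_one_left := ?_ }⟩
        · have h1 : Continuous (fun sq : I × (N2 × N2) ↦
              tw ((1 - (sq.1 : ℝ) : ℝ) * tau (toW sq.2)) (toW sq.2)) := by
            refine continuous_tw.comp (Continuous.prodMk ?_ (continuous_toW.comp continuous_snd))
            exact (by fun_prop : Continuous fun sq : I × (N2 × N2) ↦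
              (((1 - (sq.1 : ℝ) : ℝ)) : ℂ)).mul (htau.comp continuous_snd)
          exact ((continuous_fst.comp h1).subtype_mk _).prodMk
            ((continuous_snd.comp h1).subtype_mk _)
        · intro q
          have h1 : (toX (toW q)).val = tw (tau (toW q)) (toW q) := toX_val (toW_good q)
          refine Prod.ext (Subtype.ext ?_) (Subtype.ext ?_)
          · change (tw ((1 - ((0 : I) : ℝ) : ℝ) * tau (toW q)) (toW q)).1 = (toX (toW q)).val.1
            rw [h1]; simp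
          · change (tw ((1 - ((0 : I) : ℝ) : ℝ) * tau (toW q)) (toW q)).2 = (toX (toW q)).val.2
            rw [h1]; simp
        · intro q
          refine Prod.ext (Subtype.ext ?_) (Subtype.ext ?_)
          · change (tw ((1 - ((1 : I) : ℝ) : ℝ) * tau (toW q)) (toW q)).1 = q.1.1
            simp [tw_zero, toW]
          · change (tw ((1 - ((1 : I) : ℝ) : ℝ) * tau (toW q)) (toW q)).2 = q.2.1
            simp [tw_zero, toW] }
  exact e.simplyConnectedSpace

end Pool.Agent.Lib.MP_69200a_ag.CE
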