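import Mathlib
import Pool.Agent.Lib.MP_69200a_ag.CE.Geometry
import Pool.Agent.Lib.MP_69200a_ag.CE.NoRational
import Pool.Agent.Lib.MP_69200a_ag.CE.SimplyConn

/-!
The abelian threefold is not a quotient of an open orbit in the Calabi-Eckmann manifold, and
`GL₂(ℂ) × GL₂(ℂ)` is connected.
-/

open scoped Manifold ContDiff Topology
open Filter Set

noncomputable section

namespace Pool.Agent.Lib.MP_69200a_ag.CE

section Connected

/-- The determinant. -/
def dt (a : End2) : ℂ := (a (1, 0)).1 * (a (0, 1)).2 - (a (0, 1)).1 * (a (1, 0)).2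

theorem dt_mk (a b c d : ℂ) : dt (mk a b c d) = a * d - b * c := by
  simp [dt, mk_apply]

theorem dt_mul (a b : End2) : dt (a * b) = dt a * dt b := by
  rw [eq_mk a, eq_mk b, mk_mul, dt_mk, dt_mk, dt_mk]
  ring

theorem dt_one : dt 1 = 1 := by
  rw [← mk_one, dt_mk]; ring

/-- The inverse matrix. -/
def iv (a : End2) : End2 :=
  mk ((a (0, 1)).2 / dt a) (-(a (0, 1)).1 / dt a) (-(a (1, 0)).2 / dt a) ((a (1, 0)).1 / dt a)

theorem mul_iv {a : End2} (h : dt a ≠ 0) : a * iv a = 1 ∧ iv a * a = 1 := by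
  obtain ⟨p, hp⟩ : ∃ p, p = (a (1, 0)).1 := ⟨_, rfl⟩
  obtain ⟨q, hq⟩ : ∃ q, q = (a (0, 1)).1 := ⟨_, rfl⟩
  obtain ⟨r, hr⟩ : ∃ r, r = (a (1, 0)).2 := ⟨_, rfl⟩
  obtain ⟨s, hs⟩ : ∃ s, s = (a (0, 1)).2 := ⟨_, rfl⟩
  obtain ⟨δ, hδ⟩ : ∃ δ, δ = dt a := ⟨_, rfl⟩
  have h1 : δ = p * s - q * r := by rw [hδ, hp, hq, hr, hs]; rfl
  have hδ0 : δ ≠ 0 := by rw [hδ]; exact h
  have ha : a = mk p q r s := by rw [hp, hq, hr, hs]; exact eq_mk a
  have hi : iv a = mk (s / δ) (-q / δ) (-r / δ) (p / δ) := by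
    rw [hp, hq, hr, hs, hδ]; rfl
  rw [hi, ha]
  constructor
  · rw [mk_mul, ← mk_one]
    congr 1 <;> field_simp <;> rw [h1] <;> ring
  · rw [mk_mul, ← mk_one]
    congr 1 <;> field_simp <;> rw [h1] <;> ring

theorem dt_unit1 (g : GG) : dt (pr1 (g : Alg)) ≠ 0 := by
  intro h
  have h1 := dt_mul (pr1 (g : Alg)) (pr1 ((g⁻¹ : GG) : Alg))
  rw [← pr1_mul, Units.mul_inv, pr1_one, dt_one, h, zero_mul] at h1
  exact one_ne_zero h1

theorem dt_unit2 (g : GG) : dt (pr2 (g : Alg)) ≠ 0 := by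
  intro h
  have h1 := dt_mul (pr2 (g : Alg)) (pr2 ((g⁻¹ : GG) : Alg))
  rw [← pr2_mul, Units.mul_inv, pr2_one, dt_one, h, zero_mul] at h1
  exact one_ne_zero h1

/-- The line through `1` and `a`. -/
def seg (a : Alg) (z : ℂ) : Alg := (1 - z) • (1 : Alg) + z • a

theorem seg_zeros (a : End2) : {z : ℂ | dt ((1 - z) • (1 : End2) + z • a) = 0}.Countable := by
  obtain ⟨P, hP⟩ : ∃ P : Polynomial ℂ, P =
      (1 + Polynomial.C ((a (1, 0)).1 - 1) * Polynomial.X) *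
        (1 + Polynomial.C ((a (0, 1)).2 - 1) * Polynomial.X) -
        Polynomial.C ((a (0, 1)).1 * (a (1, 0)).2) * Polynomial.X ^ 2 := ⟨_, rfl⟩
  have hev : ∀ z, P.eval z = dt ((1 - z) • (1 : End2) + z • a) := by
    intro z
    rw [hP]
    have e1 : (((1 - z) • (1 : End2) + z • a) (1, 0)).1 = 1 - z + z * (a (1, 0)).1 := by
      simp
    have e2 : (((1 - z) • (1 : End2) + z • a) (1, 0)).2 = z * (a (1, 0)).2 := by
      simp
    have e3 : (((1 - z) • (1 : End2) + z • a) (0, 1)).1 = z * (a (0, 1)).1 := by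
      simp
    have e4 : (((1 - z) • (1 : End2) + z • a) (0, 1)).2 = 1 - z + z * (a (0, 1)).2 := by
      simp
    unfold dt
    rw [e1, e2, e3, e4]
    simp only [Polynomial.eval_sub, Polynomial.eval_mul, Polynomial.eval_add,
      Polynomial.eval_one, Polynomial.eval_C, Polynomial.eval_X, Polynomial.eval_pow]
    ring
  have hP0 : P ≠ 0 := by
    intro h
    have h1 : P.eval 0 = 1 := by rw [hP]; simp
    rw [h, Polynomial.eval_zero] at h1
    exact zero_ne_one h1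
  have h2 : {z : ℂ | dt ((1 - z) • (1 : End2) + z • a) = 0} ⊆ (P.roots.toFinset : Set ℂ) := by
    intro z hz
    have hz' : P.eval z = 0 := by rw [hev]; exact hz
    simp only [Finset.mem_coe, Multiset.mem_toFinset]
    exact (Polynomial.mem_roots hP0).2 hz'
  exact (Set.Finite.subset (Finset.finite_toSet _) h2).countable

theorem joined_one (g : GG) : Joined 1 g := by
  obtain ⟨S, hS⟩ : ∃ S : Set ℂ, S = ({z : ℂ | dt (pr1 (seg g z)) = 0} ∪
      {z : ℂ | dt (pr2 (seg g z)) = 0}) := ⟨_, rfl⟩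
  have hSc : S.Countable := by
    rw [hS]
    exact (seg_zeros (pr1 (g : Alg))).union (seg_zeros (pr2 (g : Alg)))
  have hrank : 1 < Module.rank ℝ ℂ := by
    rw [Complex.rank_real_complex]; norm_num
  have hpc := hSc.isPathConnected_compl_of_one_lt_rank hrank
  have : PathConnectedSpace (Sᶜ : Set ℂ) := isPathConnected_iff_pathConnectedSpace.1 hpc
  have m1 : ∀ z : ℂ, dt (pr1 (seg g z)) = 0 → z ∈ S := by
    intro z hz
    rw [hS]; exact Or.inl hz
  have m2 : ∀ z : ℂ, dt (pr2 (seg g z)) = 0 → z ∈ S := by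
    intro z hz
    rw [hS]; exact Or.inr hz
  have h1 : ∀ z : (Sᶜ : Set ℂ), dt (pr1 (seg g z)) ≠ 0 := fun z hz ↦ z.2 (m1 z hz)
  have h2 : ∀ z : (Sᶜ : Set ℂ), dt (pr2 (seg g z)) ≠ 0 := fun z hz ↦ z.2 (m2 z hz)
  obtain ⟨φ, hφ⟩ : ∃ φ : (Sᶜ : Set ℂ) → GG, ∀ z, (φ z : Alg) = seg g z :=
    ⟨fun z ↦ ⟨seg g z, pair (iv (pr1 (seg g z)), iv (pr2 (seg g z))),
      alg_ext (mul_iv (h1 z)).1 (mul_iv (h2 z)).1, alg_ext (mul_iv (h1 z)).2 (mul_iv (h2 z)).2⟩,
      fun z ↦ rfl⟩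
  have hφc : Continuous φ := by
    refine Units.isOpenEmbedding_val.isInducing.continuous_iff.2 ?_
    have h3 : (Units.val ∘ φ) = fun z : (Sᶜ : Set ℂ) ↦ seg g z := funext hφ
    rw [h3]
    unfold seg
    fun_prop
  have h0S : (0 : ℂ) ∈ Sᶜ := by
    rw [hS]
    have e : seg g 0 = 1 := by simp [seg]
    rintro (h | h)
    · have h' : dt (pr1 (seg g 0)) = 0 := h
      rw [e, pr1_one, dt_one] at h'
      exact one_ne_zero h'
    · have h' : dt (pr2 (seg g 0)) = 0 := h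
      rw [e, pr2_one, dt_one] at h'
      exact one_ne_zero h'
  have h1S : (1 : ℂ) ∈ Sᶜ := by
    rw [hS]
    have e : seg g 1 = g := by simp [seg]
    rintro (h | h)
    · have h' : dt (pr1 (seg g 1)) = 0 := h
      rw [e] at h'
      exact dt_unit1 g h'
    · have h' : dt (pr2 (seg g 1)) = 0 := h
      rw [e] at h'
      exact dt_unit2 g h'
  have e0 : φ ⟨0, h0S⟩ = 1 := by
    apply Units.ext
    rw [hφ]
    simp [seg]
  have e1 : φ ⟨1, h1S⟩ = g := by
    apply Units.ext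
    rw [hφ]
    simp [seg]
  obtain ⟨γ⟩ := PathConnectedSpace.joined (⟨0, h0S⟩ : (Sᶜ : Set ℂ)) ⟨1, h1S⟩
  have h3 : Joined (φ ⟨0, h0S⟩) (φ ⟨1, h1S⟩) := ⟨γ.map hφc⟩
  rw [e0, e1] at h3
  exact h3

instance : PathConnectedSpace GG where
  nonempty := ⟨1⟩
  joined x y := (joined_one x).symm.trans (joined_one y)

instance : SecondCountableTopology GG :=
  Units.isOpenEmbedding_val.isEmbedding.secondCountableTopology

end Connected

section Central

/-- The central one-parameter subgroup. -/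
def cen (s : ℂ) : GG := rho (0, 0, s)

theorem cen_add (s t : ℂ) : cen (s + t) = cen s * cen t := by
  unfold cen
  rw [← rho_add]
  congr 1
  simp

theorem cen_zero : cen 0 = 1 := rho_zero

theorem act_cen (s : ℂ) (p : W) : act (cen s : Alg) p = (p.1, Complex.exp s • p.2) := by
  change act (rhoA (0, 0, s)) p = _
  unfold rhoA act
  rw [pr1_pair, pr2_pair, mk_apply, mk_apply]
  refine Prod.ext ?_ ?_
  · simp
  · refine Prod.ext ?_ ?_ <;> simp

theorem cen_comm (s : ℂ) (g : GG) : cen s * g = g * cen s := by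
  apply Units.ext
  rw [Units.val_mul, Units.val_mul]
  change rhoA (0, 0, s) * (g : Alg) = (g : Alg) * rhoA (0, 0, s)
  refine alg_ext ?_ ?_
  · rw [pr1_mul, pr1_mul, rhoA, pr1_pair]
    simp only []
    rw [mk_one, one_mul, mul_one]
  · rw [pr2_mul, pr2_mul, rhoA, pr2_pair]
    simp only [zero_mul]
    rw [eq_mk (pr2 (g : Alg)), mk_mul, mk_mul]
    congr 1 <;> ring

theorem cen_smul (s : ℂ) (x : CEX) :
    cen s • x = toX (x.val.1, Complex.exp s • x.val.2) := by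
  rw [smul_def, act_cen]

theorem cen_period (m n : ℤ) (x : CEX) :
    cen (2 * Real.pi * (m + n * Complex.I)) • x = x := by
  rw [cen_smul]
  have h1 : (x.val.1, Complex.exp (2 * Real.pi * (m + n * Complex.I)) • x.val.2) =
      tw (-(m * (2 * Real.pi * Complex.I))) x.val := by
    have e1 : Complex.exp (-(m * (2 * Real.pi * Complex.I))) = 1 := by
      rw [Complex.exp_neg, Complex.exp_int_mul_two_pi_mul_I, inv_one]
    have e2 : Complex.exp (2 * Real.pi * (m + n * Complex.I)) =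
        Complex.exp (Complex.I * -(m * (2 * Real.pi * Complex.I))) := by
      have e3 : (2 * Real.pi * (m + n * Complex.I) : ℂ) =
          Complex.I * -(m * (2 * Real.pi * Complex.I)) + n * (2 * Real.pi * Complex.I) := by
        linear_combination (2 * Real.pi * m : ℂ) * Complex.I_mul_I
      rw [e3, Complex.exp_add, Complex.exp_int_mul_two_pi_mul_I, mul_one]
    unfold tw
    rw [e1, one_smul, e2]
  rw [h1, toX_tw x.good, toX_of_val]

theorem cen_injective {s s' : ℝ} (hs : s ∈ Set.Icc (0 : ℝ) 1) (hs' : s' ∈ Set.Icc (0 : ℝ) 1)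
    (x : CEX) (h : cen s • x = cen s' • x) : s = s' := by
  rw [cen_smul, cen_smul] at h
  have hg : ∀ s : ℂ, Good (x.val.1, Complex.exp s • x.val.2) := fun s ↦
    ⟨x.good.1, smul_ne_zero (Complex.exp_ne_zero _) x.good.2⟩
  have h1 := eq_tw_of_toX (hg s) (hg s') h
  obtain ⟨t, ht⟩ : ∃ t, t = tau (x.val.1, Complex.exp s • x.val.2) -
    tau (x.val.1, Complex.exp s' • x.val.2) := ⟨_, rfl⟩
  rw [← ht] at h1
  have h2 : x.val.1 = Complex.exp t • x.val.1 := congrArg Prod.fst h1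
  have h3 : Complex.exp s' • x.val.2 = Complex.exp (Complex.I * t) • Complex.exp s • x.val.2 :=
    congrArg Prod.snd h1
  have h4 : Complex.exp t = 1 := by
    have h5 : (Complex.exp t - 1) • x.val.1 = 0 := by
      rw [sub_smul, one_smul, ← h2, sub_self]
    exact sub_eq_zero.1 ((smul_eq_zero.1 h5).resolve_right x.good.1)
  have h6 : Complex.exp s' = Complex.exp (Complex.I * t) * Complex.exp s := by
    have h5 : (Complex.exp s' - Complex.exp (Complex.I * t) * Complex.exp s) • x.val.2 = 0 := by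
      rw [sub_smul, h3, mul_smul, sub_self]
    exact sub_eq_zero.1 ((smul_eq_zero.1 h5).resolve_right x.good.2)
  obtain ⟨k, hk⟩ := Complex.exp_eq_one_iff.1 h4
  have h7 := congrArg norm h6
  rw [norm_mul, Complex.norm_exp, Complex.norm_exp, Complex.norm_exp, ← Real.exp_add] at h7
  have h8 := Real.exp_injective h7
  have h9 : (Complex.I * t).re = -(2 * Real.pi * k) := by
    rw [hk]
    simp
    ring
  rw [h9, Complex.ofReal_re, Complex.ofReal_re] at h8
  have hpi := Real.pi_gt_three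
  have hk0 : k = 0 := by
    by_contra hne
    rcases lt_or_gt_of_ne hne with hlt | hgt
    · have : (k : ℝ) ≤ -1 := by exact_mod_cast Int.le_sub_one_of_lt hlt
      nlinarith [hs.1, hs.2, hs'.1, hs'.2]
    · have : (1 : ℝ) ≤ k := by exact_mod_cast hgt
      nlinarith [hs.1, hs.2, hs'.1, hs'.2]
  rw [hk0] at h8
  simp at h8
  exact h8.symm

theorem contMDiff_cen_smul (x : CEX) :
    ContMDiff 𝓘(ℂ, ℂ) 𝓘(ℂ, ℂ × ℂ × ℂ) ω (fun s : ℂ ↦ cen s • x) := by
  have h1 : ContMDiff 𝓘(ℂ, ℂ) 𝓘(ℂ, ℂ × ℂ × ℂ) ω (fun s : ℂ ↦ ((0, 0, s) : ℂ × ℂ × ℂ)) := by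
    have : ContDiff ℂ ω (fun s : ℂ ↦ ((0, 0, s) : ℂ × ℂ × ℂ)) := by fun_prop
    exact this.contMDiff
  exact contMDiff_smul'.comp ((contMDiff_rho.comp h1).prodMk contMDiff_const)

end Central

section Torus

theorem contMDiff_c1 : ContMDiff 𝓘(ℂ, C3) 𝓘(ℂ, ℂ) ω (fun y : T3 ↦ y.1) := by
  intro y₀
  have h1 : ContMDiffAt 𝓘(ℂ, C3) 𝓘(ℂ, ℂ) ω (fun y : T3 ↦ (chartAt C3 y₀ y).1) y₀ := by
    have h2 : ContDiff ℂ ω (fun a : C3 ↦ a.1) := by fun_prop
    exact h2.contMDiff.contMDiffAt.comp y₀ (T3.contMDiffAt_chart y₀)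
  refine contMDiffAt_of_lift (Ell.proj (√2)) (Ell.proj_isLocalHomeomorph (√2))
    (Ell.proj_surjective (√2)) h1 ?_
  filter_upwards [(chartAt C3 y₀).open_source.mem_nhds (mem_chart_source C3 y₀)] with y hy
  have h3 := T3.proj_chartAt y₀ hy
  exact (congrArg (fun y : T3 ↦ y.1) h3).symm

theorem contMDiff_c2 : ContMDiff 𝓘(ℂ, C3) 𝓘(ℂ, ℂ) ω (fun y : T3 ↦ y.2.1) := by
  intro y₀
  have h1 : ContMDiffAt 𝓘(ℂ, C3) 𝓘(ℂ, ℂ) ω (fun y : T3 ↦ (chartAt C3 y₀ y).2.1) y₀ := by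
    have h2 : ContDiff ℂ ω (fun a : C3 ↦ a.2.1) := by fun_prop
    exact h2.contMDiff.contMDiffAt.comp y₀ (T3.contMDiffAt_chart y₀)
  refine contMDiffAt_of_lift (Ell.proj (√2)) (Ell.proj_isLocalHomeomorph (√2))
    (Ell.proj_surjective (√2)) h1 ?_
  filter_upwards [(chartAt C3 y₀).open_source.mem_nhds (mem_chart_source C3 y₀)] with y hy
  have h3 := T3.proj_chartAt y₀ hy
  exact (congrArg (fun y : T3 ↦ y.2.1) h3).symm

theorem contMDiff_c3 : ContMDiff 𝓘(ℂ, C3) 𝓘(ℂ, ℂ) ω (fun y : T3 ↦ y.2.2) := by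
  intro y₀
  have h1 : ContMDiffAt 𝓘(ℂ, C3) 𝓘(ℂ, ℂ) ω (fun y : T3 ↦ (chartAt C3 y₀ y).2.2) y₀ := by
    have h2 : ContDiff ℂ ω (fun a : C3 ↦ a.2.2) := by fun_prop
    exact h2.contMDiff.contMDiffAt.comp y₀ (T3.contMDiffAt_chart y₀)
  refine contMDiffAt_of_lift (Ell.proj (√2)) (Ell.proj_isLocalHomeomorph (√2))
    (Ell.proj_surjective (√2)) h1 ?_
  filter_upwards [(chartAt C3 y₀).open_source.mem_nhds (mem_chart_source C3 y₀)] with y hy
  have h3 := T3.proj_chartAt y₀ hy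
  exact (congrArg (fun y : T3 ↦ y.2.2) h3).symm

/-- Holomorphic maps `ℂ/ℤ[i] → ℂ/(ℤ + ℤ√2 i)` are constant. -/
theorem ell_const (q : Ell 1 → Ell (√2)) (hq : ContMDiff 𝓘(ℂ, ℂ) 𝓘(ℂ, ℂ) ω q) (x y : Ell 1) :
    q x = q y := by
  obtain ⟨α, hα⟩ := Ell.affine_of_holomorphic 1 (√2) q hq
  by_cases h0 : α = 0
  · obtain ⟨z, rfl⟩ := Ell.proj_surjective 1 x
    obtain ⟨z', rfl⟩ := Ell.proj_surjective 1 y
    rw [hα, hα, h0, zero_mul, zero_mul]
  · exfalso
    refine Ell.no_surjective q hq fun w ↦ ?_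
    obtain ⟨v, hv⟩ := Ell.proj_surjective (√2) (w - q 0)
    refine ⟨Ell.proj 1 (v / α), ?_⟩
    rw [hα, mul_div_cancel₀ _ h0, hv]
    abel

theorem periodic_const (f : ℂ → Ell (√2)) (hf : ContMDiff 𝓘(ℂ, ℂ) 𝓘(ℂ, ℂ) ω f)
    (hper : ∀ (s : ℂ) (m n : ℤ), f (s + 2 * Real.pi * (m + n * Complex.I)) = f s) (s s' : ℂ) :
    f s = f s' := by
  have hpi : (2 * Real.pi : ℂ) ≠ 0 := by
    simp [Real.pi_ne_zero]
  have hlat : ∀ z z' : ℂ, Ell.proj 1 z = Ell.proj 1 z' → f (2 * Real.pi * z) = f (2 * Real.pi * z') := by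
    intro z z' h
    have h1 : Ell.proj 1 (z - z') = 0 := by rw [map_sub, h, sub_self]
    obtain ⟨⟨m, hm⟩, ⟨n, hn⟩⟩ := (Ell.proj_eq_zero_iff 1 _).1 h1
    rw [div_one] at hn
    have h2 : z - z' = m + n * Complex.I := by
      apply Complex.ext
      · simpa using hm
      · simpa using hn
    have h3 : 2 * Real.pi * z = 2 * Real.pi * z' + 2 * Real.pi * (m + n * Complex.I) := by
      rw [← h2]; ring
    rw [h3, hper]
  obtain ⟨q, hq⟩ : ∃ q : Ell 1 → Ell (√2), ∀ z, q (Ell.proj 1 z) = f (2 * Real.pi * z) :=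
    ⟨fun x ↦ f (2 * Real.pi * Function.surjInv (Ell.proj_surjective 1) x), fun z ↦
      hlat _ _ (Function.surjInv_eq (Ell.proj_surjective 1) _)⟩
  have hqc : ContMDiff 𝓘(ℂ, ℂ) 𝓘(ℂ, ℂ) ω q := by
    intro x
    have h1 : ContMDiffAt 𝓘(ℂ, ℂ) 𝓘(ℂ, ℂ) ω (fun y ↦ f (2 * Real.pi * chartAt ℂ x y)) x := by
      have h2 : ContDiff ℂ ω (fun z : ℂ ↦ 2 * Real.pi * z) := by fun_prop
      exact hf.contMDiffAt.comp x (h2.contMDiff.contMDiffAt.comp x (Ell.contMDiffAt_chart 1 x))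
    refine h1.congr_of_eventuallyEq ?_
    filter_upwards [(chartAt ℂ x).open_source.mem_nhds (mem_chart_source ℂ x)] with y hy
    conv_lhs => rw [← Ell.proj_chartAt 1 x hy]
    rw [hq]
  have h1 := ell_const q hqc (Ell.proj 1 (s / (2 * Real.pi))) (Ell.proj 1 (s' / (2 * Real.pi)))
  rw [hq, hq, mul_div_cancel₀ _ hpi, mul_div_cancel₀ _ hpi] at h1
  exact h1

end Torus

/-- The main non-existence statement. -/
theorem not_quotient (G' Γ' : Subgroup GG) [Countable Γ'] (x : CEX) (q : CEX → T3)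
    (hop : IsOpen {y : CEX | ∃ g ∈ G', g • x = y})
    (hq : IsQuotientMap' C3 (EX := ℂ × ℂ × ℂ) Γ' {y : CEX | ∃ g ∈ G', g • x = y} q) : False := by
  obtain ⟨U, hU⟩ : ∃ U : Set CEX, U = {y : CEX | ∃ g ∈ G', g • x = y} := ⟨_, rfl⟩
  rw [← hU] at hop hq
  obtain ⟨hq1, hq2, hq3⟩ := hq
  have hcont : Continuous (fun s : ℂ ↦ cen s • x) := (contMDiff_cen_smul x).continuous
  -- the orbit of the central subgroup is contained in the open orbit
  let S : AddSubgroup ℂ :=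
    { carrier := {s | cen s • x ∈ U}
      zero_mem' := by
        change cen 0 • x ∈ U
        rw [cen_zero, one_smul, hU]
        exact ⟨1, G'.one_mem, one_smul _ _⟩
      add_mem' := by
        intro s t hs ht
        change cen (s + t) • x ∈ U
        have hs' : cen s • x ∈ U := hs
        have ht' : cen t • x ∈ U := ht
        rw [hU] at hs' ht' ⊢
        obtain ⟨g, hg, hgs⟩ := hs'
        obtain ⟨g', hg', hgt⟩ := ht'
        refine ⟨g' * g, G'.mul_mem hg' hg, ?_⟩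
        rw [mul_smul, hgs, ← mul_smul, ← cen_comm, mul_smul, hgt, ← mul_smul, ← cen_add]
      neg_mem' := by
        intro s hs
        change cen (-s) • x ∈ U
        have hs' : cen s • x ∈ U := hs
        rw [hU] at hs' ⊢
        obtain ⟨g, hg, hgs⟩ := hs'
        refine ⟨g⁻¹, G'.inv_mem hg, ?_⟩
        have h1 : x = cen (-s) • g • x := by
          rw [hgs, ← mul_smul, ← cen_add, neg_add_cancel, cen_zero, one_smul]
        rw [← mul_smul, cen_comm, mul_smul] at h1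
        conv_lhs => rw [h1]
        rw [inv_smul_smul] }
  have hSo : IsOpen (S : Set ℂ) := hop.preimage hcont
  have hStop : ∀ s : ℂ, cen s • x ∈ U := by
    have h1 : IsClosed (S : Set ℂ) := S.isClosed_of_isOpen hSo
    have h2 := IsClopen.eq_univ ⟨h1, hSo⟩ ⟨0, S.zero_mem⟩
    intro s
    have h3 : s ∈ (S : Set ℂ) := by rw [h2]; exact Set.mem_univ s
    exact h3
  have hF : ContMDiff 𝓘(ℂ, ℂ) 𝓘(ℂ, C3) ω (fun s : ℂ ↦ q (cen s • x)) := by
    intro s
    have h1 : ContMDiffAt 𝓘(ℂ, ℂ × ℂ × ℂ) 𝓘(ℂ, C3) ω q (cen s • x) :=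
      hq1.contMDiffAt (hop.mem_nhds (hStop s))
    exact ContMDiffAt.comp s h1 (contMDiff_cen_smul x).contMDiffAt
  have hper : ∀ (s : ℂ) (m n : ℤ),
      q (cen (s + 2 * Real.pi * (m + n * Complex.I)) • x) = q (cen s • x) := by
    intro s m n
    rw [cen_add, mul_smul, cen_period]
  have hconst : ∀ s : ℂ, q (cen s • x) = q (cen 0 • x) := by
    intro s
    refine Prod.ext ?_ (Prod.ext ?_ ?_)
    · exact periodic_const (fun s ↦ (q (cen s • x)).1) (contMDiff_c1.comp hF)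
        (fun s m n ↦ congrArg (fun y : T3 ↦ y.1) (hper s m n)) s 0
    · exact periodic_const (fun s ↦ (q (cen s • x)).2.1) (contMDiff_c2.comp hF)
        (fun s m n ↦ congrArg (fun y : T3 ↦ y.2.1) (hper s m n)) s 0
    · exact periodic_const (fun s ↦ (q (cen s • x)).2.2) (contMDiff_c3.comp hF)
        (fun s m n ↦ congrArg (fun y : T3 ↦ y.2.2) (hper s m n)) s 0
  have hγ : ∀ s : ℂ, ∃ γ ∈ Γ', γ • x = cen s • x := by
    intro s
    have h1 := (hq3 _ (hStop 0) _ (hStop s)).1 (hconst s).symm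
    rw [cen_zero, one_smul] at h1
    exact h1
  choose γ hγ1 hγ2 using hγ
  have hinj : Function.Injective (fun s : Set.Icc (0 : ℝ) 1 ↦ (⟨γ (s : ℝ), hγ1 _⟩ : Γ')) := by
    intro s s' h
    have h1 : γ ((s : ℝ) : ℂ) = γ ((s' : ℝ) : ℂ) := congrArg Subtype.val h
    have h2 : cen ((s : ℝ) : ℂ) • x = cen ((s' : ℝ) : ℂ) • x := by
      rw [← hγ2, ← hγ2, h1]
    exact Subtype.ext (cen_injective s.2 s'.2 x h2)
  have hcount : Countable (Set.Icc (0 : ℝ) 1) := hinj.countable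
  have h1 : (Set.Icc (0 : ℝ) 1).Countable := Set.countable_coe_iff.1 hcount
  rw [Cardinal.Real.Icc_countable_iff] at h1
  linarith

end Pool.Agent.Lib.MP_69200a_ag.CE
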